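import Pool.Agent.H176.DT.Stm

/-!
# Values of monomials in a defectless extension
-/

set_option autoImplicit false
set_option linter.unusedVariables false
set_option linter.unusedSectionVars false

universe u

namespace Pool.Agent.H176.DT

open Pool.Agent.W418.LU2 IsLocalRing

section val

variable {E F : Type u} [Field E] [Field F] (f : E →+* F) (V : ValuationSubring F)

lemma val_one_iff (z : F) : V.valuation z = 1 ↔ z ≠ 0 ∧ z ∈ V ∧ z⁻¹ ∈ V := by
  constructor
  · intro h
    have h0 : z ≠ 0 := by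
      rintro rfl
      rw [map_zero] at h
      exact zero_ne_one h
    refine ⟨h0, (V.valuation_le_one_iff _).1 h.le, ?_⟩
    rw [← V.valuation_le_one_iff, map_inv₀, h, inv_one]
  · rintro ⟨h0, h1, h2⟩
    refine le_antisymm ((V.valuation_le_one_iff _).2 h1) ?_
    have h3 := (V.valuation_le_one_iff _).2 h2
    rw [map_inv₀] at h3
    exact (inv_le_one₀ (zero_lt_iff.2 ((map_ne_zero _).2 h0))).1 h3

lemma val_lt_one_iff (z : F) : V.valuation z < 1 ↔ z ∈ V ∧ ¬ (z ≠ 0 ∧ z⁻¹ ∈ V) := by
  constructor
  · intro h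
    refine ⟨(V.valuation_le_one_iff _).1 h.le, fun h1 => ?_⟩
    exact h.ne ((val_one_iff V z).2 ⟨h1.1, (V.valuation_le_one_iff _).1 h.le, h1.2⟩)
  · rintro ⟨h1, h2⟩
    refine lt_of_le_of_ne ((V.valuation_le_one_iff _).2 h1) fun h3 => h2 ?_
    have := (val_one_iff V z).1 h3
    exact ⟨this.1, this.2.2⟩

lemma comap_one (z : E) : (V.comap f).valuation z = 1 ↔ V.valuation (f z) = 1 := by
  rw [val_one_iff, val_one_iff]
  simp only [ValuationSubring.mem_comap, map_inv₀, ne_eq, map_eq_zero]

lemma comap_lt (z : E) : (V.comap f).valuation z < 1 ↔ V.valuation (f z) < 1 := by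
  rw [val_lt_one_iff, val_lt_one_iff]
  simp only [ValuationSubring.mem_comap, map_inv₀, ne_eq, map_eq_zero]

end val

lemma map_mo {E F : Type u} [Field E] [Field F] (f : E →+* F) {ι : Type} [Fintype ι] (x : ι → E)
    (δ : ι → ℤ) : f (mo x δ) = mo (fun i => f (x i)) δ := by
  unfold mo
  rw [map_prod]
  exact Finset.prod_congr rfl fun i _ => map_zpow₀ _ _ _

section str

variable {E F : Type u} [Field E] [Field F] [Algebra E F] {V : ValuationSubring F} {q r : ℕ}
  {t : Fin q → F} {ee : Fin q → ℕ} {b : Fin r → F} {ff : Fin r → ℕ}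
  {s : ℕ} {x : Fin s → E}

/-- The monomials. -/
noncomputable def MM (x : Fin s → E) (t : Fin q → F) (l : Fin s → ℤ) (m : Fin q → ℤ) : F :=
  algebraMap E F (mo x l) * mo t m

variable (hx0 : ∀ i, x i ≠ 0) (ht0 : ∀ i, t i ≠ 0)

include hx0 ht0

lemma MM_ne (l : Fin s → ℤ) (m : Fin q → ℤ) : MM x t l m ≠ 0 :=
  mul_ne_zero ((map_ne_zero _).2 (mo_ne_zero hx0 _)) (mo_ne_zero ht0 _)

lemma MM_add (l l' : Fin s → ℤ) (m m' : Fin q → ℤ) :
    MM x t (l + l') (m + m') = MM x t l m * MM x t l' m' := by
  unfold MM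
  rw [mo_add hx0, mo_add ht0, map_mul]
  ring

omit hx0 ht0 in
lemma MM_neg (l : Fin s → ℤ) (m : Fin q → ℤ) : MM x t (-l) (-m) = (MM x t l m)⁻¹ := by
  unfold MM
  rw [mo_neg, mo_neg, map_inv₀, mul_inv]

omit hx0 ht0 in
lemma MM_zero : MM x t 0 0 = 1 := by
  unfold MM
  rw [mo_zero, mo_zero, map_one, mul_one]

lemma MM_zsmul (k : ℤ) (l : Fin s → ℤ) (m : Fin q → ℤ) :
    MM x t (k • l) (k • m) = MM x t l m ^ k := by
  induction k using Int.induction_on with
  | zero => rw [zero_smul, zero_smul, MM_zero, zpow_zero]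
  | succ k ih =>
    rw [add_smul, add_smul, one_smul, one_smul, MM_add hx0 ht0, ih,
      zpow_add₀ (MM_ne hx0 ht0 l m), zpow_one]
  | pred k ih =>
    rw [sub_smul, sub_smul, one_smul, one_smul, sub_eq_add_neg, sub_eq_add_neg,
      MM_add hx0 ht0, MM_neg, ih, sub_eq_add_neg, zpow_add₀ (MM_ne hx0 ht0 l m), zpow_neg_one]

lemma MM_mo {κ : Type} [Fintype κ] (l : κ → Fin s → ℤ) (m : κ → Fin q → ℤ) (n : κ → ℤ) :
    mo (fun k => MM x t (l k) (m k)) n = MM x t (∑ k, n k • l k) (∑ k, n k • m k) := by
  classical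
  unfold mo
  have h : ∀ S : Finset κ, ∏ k ∈ S, MM x t (l k) (m k) ^ n k =
      MM x t (∑ k ∈ S, n k • l k) (∑ k ∈ S, n k • m k) := by
    intro S
    induction S using Finset.induction_on with
    | empty => simp only [Finset.prod_empty, Finset.sum_empty, MM_zero]
    | insert a S ha ih =>
      rw [Finset.prod_insert ha, Finset.sum_insert ha, Finset.sum_insert ha, MM_add hx0 ht0, ih,
        MM_zsmul hx0 ht0]
  exact h _

variable (hmin : ∀ (i : Fin q) (k : ℤ) (a : E) (m : Fin q → ℤ), a ≠ 0 → (∀ j, i ≤ j → m j = 0) →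
    V.valuation (t i ^ k) = V.valuation (algebraMap E F a * mo t m) → (ee i : ℤ) ∣ k)
  (hxi : ∀ δ : Fin s → ℤ, V.valuation (algebraMap E F (mo x δ)) = 1 → δ = 0)

include hmin hxi

omit hx0 hxi in
/-- The divisibility of the top exponent. -/
lemma dvd_top {l : Fin s → ℤ} {m : Fin q → ℤ} (hx0 : ∀ i, x i ≠ 0)
    (h : V.valuation (MM x t l m) = 1) (i : Fin q) (hi : ∀ j, i < j → m j = 0) :
    (ee i : ℤ) ∣ m i := by
  classical
  have h1 : m = Pi.single i (m i) + Function.update m i 0 := by
    funext j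
    by_cases hj : j = i
    · subst hj
      simp
    · simp [hj]
  refine hmin i (m i) (mo x (-l)) (-Function.update m i 0) (mo_ne_zero hx0 _) ?_ ?_
  · intro j hj
    rw [Pi.neg_apply]
    by_cases hji : j = i
    · subst hji
      rw [Function.update_self, neg_zero]
    · rw [Function.update_of_ne hji, hi j (lt_of_le_of_ne hj (Ne.symm hji)), neg_zero]
  · have h2 : mo t (Pi.single i (m i)) = t i ^ m i := by
      unfold mo
      rw [Finset.prod_eq_single i]
      · rw [Pi.single_eq_same]
      · intro j _ hj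
        rw [Pi.single_eq_of_ne hj, zpow_zero]
      · intro h; exact absurd (Finset.mem_univ _) h
    have h3 : MM x t l m * (algebraMap E F (mo x (-l)) * mo t (-Function.update m i 0)) =
        t i ^ m i := by
      rw [← h2]
      have h4 : MM x t l m * MM x t (-l) (-Function.update m i 0) =
          MM x t 0 (Pi.single i (m i)) := by
        rw [← MM_add hx0 ht0]
        congr 1
        · exact add_neg_cancel l
        · nth_rewrite 1 [h1]
          abel
      have h5 : MM x t 0 (Pi.single i (m i)) = mo t (Pi.single i (m i)) := by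
        unfold MM
        rw [mo_zero, map_one, one_mul]
      rw [← h5, ← h4]
      rfl
    rw [← h3, map_mul, h, one_mul]

/-- The monomials of value one are monomials in the `τ i`. -/
theorem val_one_mo {γ : Fin q → Fin s → ℤ} {m₀ : Fin q → Fin q → ℤ}
    (hm₀ : ∀ i j, i ≤ j → m₀ i j = 0) {τ : Fin q → F}
    (hτ : ∀ i, τ i = t i ^ ee i * (MM x t (γ i) (m₀ i))⁻¹)
    (hτ1 : ∀ i, V.valuation (τ i) = 1) (l : Fin s → ℤ) (m : Fin q → ℤ)
    (h : V.valuation (MM x t l m) = 1) : ∃ k : Fin q → ℤ, MM x t l m = mo τ k := by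
  classical
  have hτ0 : ∀ i, τ i ≠ 0 := fun i h0 => by
    have := hτ1 i
    rw [h0, map_zero] at this
    exact zero_ne_one this
  have hτM : ∀ i, τ i = MM x t (-γ i) (Pi.single i (ee i : ℤ) - m₀ i) := by
    intro i
    have h2 : MM x t 0 (Pi.single i (ee i : ℤ)) = t i ^ ee i := by
      unfold MM mo
      rw [Finset.prod_eq_single (s := Finset.univ) i]
      · rw [Pi.single_eq_same, zpow_natCast]
        simp
      · intro j _ hj
        rw [Pi.single_eq_of_ne hj, zpow_zero]
      · intro h; exact absurd (Finset.mem_univ _) h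
    rw [hτ, ← h2, ← MM_neg, ← MM_add hx0 ht0, zero_add, ← sub_eq_add_neg]
  have key : ∀ (n : ℕ) (l : Fin s → ℤ) (m : Fin q → ℤ), (∀ i : Fin q, n ≤ (i : ℕ) → m i = 0) →
      V.valuation (MM x t l m) = 1 → ∃ k : Fin q → ℤ, MM x t l m = mo τ k := by
    intro n
    induction n with
    | zero =>
      intro l m hm h
      have h1 : m = 0 := funext fun i => hm i (Nat.zero_le _)
      subst h1
      have h2 : MM x t l 0 = algebraMap E F (mo x l) := by
        unfold MM
        rw [mo_zero, mul_one]
      rw [h2] at h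
      have h3 := hxi l h
      subst h3
      exact ⟨0, by rw [mo_zero, MM_zero]⟩
    | succ n ih =>
      intro l m hm h
      by_cases hn : n < q
      · let i : Fin q := ⟨n, hn⟩
        have hi : ∀ j, i < j → m j = 0 := fun j hj => hm j hj
        obtain ⟨k, hk⟩ := dvd_top ht0 hmin hx0 h i hi
        have h1 : MM x t (l + (-k) • (-γ i)) (m + (-k) • (Pi.single i (ee i : ℤ) - m₀ i)) =
            MM x t l m * τ i ^ (-k) := by
          rw [MM_add hx0 ht0, MM_zsmul hx0 ht0, ← hτM]
        obtain ⟨k', hk'⟩ := ih (l + (-k) • (-γ i))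
          (m + (-k) • (Pi.single i (ee i : ℤ) - m₀ i)) (by
            intro j hj
            simp only [Pi.add_apply, Pi.smul_apply, Pi.sub_apply, smul_eq_mul]
            rcases eq_or_lt_of_le hj with hj | hj
            · have hji : j = i := Fin.ext hj.symm
              subst hji
              rw [Pi.single_eq_same, hk, hm₀ _ _ le_rfl]
              ring
            · have hji : i < j := hj
              rw [Pi.single_eq_of_ne hji.ne', hm₀ _ _ hji.le, hi j hji]
              ring) (by
            rw [h1, map_mul, h, map_zpow₀, hτ1, one_zpow, mul_one])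
        refine ⟨k' + Pi.single i k, ?_⟩
        rw [mo_add hτ0, ← hk', h1]
        have h2 : mo τ (Pi.single i k) = τ i ^ k := by
          unfold mo
          rw [Finset.prod_eq_single i]
          · rw [Pi.single_eq_same]
          · intro j _ hj
            rw [Pi.single_eq_of_ne hj, zpow_zero]
          · intro h; exact absurd (Finset.mem_univ _) h
        rw [h2, mul_assoc, ← zpow_add₀ (hτ0 i), neg_add_cancel, zpow_zero, mul_one]
      · exact ih l m (fun i hi => hm i (by have := i.2; omega)) h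
  exact key q l m (fun i hi => absurd i.2 (not_lt.2 hi)) h

/-- Small exponents. -/
theorem val_one_small (l : Fin s → ℤ) (μ : (i : Fin q) → Fin (ee i))
    (h : V.valuation (MM x t l fun i => ((μ i : ℕ) : ℤ)) = 1) :
    l = 0 ∧ ∀ i, (μ i : ℕ) = 0 := by
  classical
  have key : ∀ n : ℕ, n ≤ q → ∀ i : Fin q, q - n ≤ (i : ℕ) → (μ i : ℕ) = 0 := by
    intro n
    induction n with
    | zero =>
      intro _ i hi
      have := i.2
      omega
    | succ n ih =>
      intro hn i hi
      by_cases h1 : q - n ≤ (i : ℕ)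
      · exact ih (by omega) i h1
      · have h2 := dvd_top ht0 hmin hx0 h i (fun j hj => by
          have h3 : (i : ℕ) < j := hj
          have := ih (by omega) j (by omega)
          simp [this])
        have h3 := (μ i).2
        have h4 : ee i ∣ (μ i : ℕ) := by exact_mod_cast h2
        exact Nat.eq_zero_of_dvd_of_lt h4 h3
  have hμ : ∀ i, (μ i : ℕ) = 0 := fun i => key q le_rfl i (by omega)
  refine ⟨hxi l ?_, hμ⟩
  rw [← h]
  unfold MM
  have h1 : (fun i => ((μ i : ℕ) : ℤ)) = 0 := funext fun i => by simp [hμ i]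
  rw [h1, mo_zero, mul_one]

end str

end Pool.Agent.H176.DT
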