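import Pool.Agent.H176.DT.B10

/-!
# Preparations for the defectless step
-/

set_option autoImplicit false
set_option linter.unusedVariables false
set_option linter.unusedSectionVars false

universe u

namespace Pool.Agent.H176.DT

open Pool.Agent.W418.LU2 IsLocalRing

section int

variable {E F : Type u} [Field E] [Field F] [Algebra E F] (V : ValuationSubring F)

lemma mem_of_root {w : F} {n : ℕ} {a : ℕ → E} (ha : ∀ i, algebraMap E F (a i) ∈ V)
    (h : w ^ (n + 1) + ∑ i ∈ Finset.range (n + 1), algebraMap E F (a i) * w ^ i = 0) :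
    w ∈ V := by
  by_contra hw
  have hw1 : 1 < V.valuation w := by
    rw [← not_le, V.valuation_le_one_iff]
    exact hw
  have h1 : V.valuation (∑ i ∈ Finset.range (n + 1), algebraMap E F (a i) * w ^ i) <
      V.valuation w ^ (n + 1) := by
    refine V.valuation.map_sum_lt (pow_ne_zero _ (zero_lt_one.trans hw1).ne') fun i hi => ?_
    rw [map_mul, map_pow]
    refine lt_of_le_of_lt (mul_le_of_le_one_left' ((V.valuation_le_one_iff _).2 (ha i))) ?_
    exact pow_lt_pow_right₀ hw1 (Finset.mem_range.1 hi)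
  have h2 : w ^ (n + 1) = -∑ i ∈ Finset.range (n + 1), algebraMap E F (a i) * w ^ i :=
    eq_neg_of_add_eq_zero_left h
  have h3 : V.valuation w ^ (n + 1) =
      V.valuation (∑ i ∈ Finset.range (n + 1), algebraMap E F (a i) * w ^ i) := by
    rw [← map_pow, h2, Valuation.map_neg]
  exact h1.ne' h3

/-- Multiples which are integral. -/
lemma exists_int {z : F} (hz : z ≠ 0) (halg : IsAlgebraic E z) :
    ∃ (d : E) (n : ℕ) (a : ℕ → E), d ≠ 0 ∧ (∀ i, algebraMap E F (a i) ∈ V) ∧ a 0 ≠ 0 ∧
      (algebraMap E F d * z) ^ (n + 1) +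
        ∑ i ∈ Finset.range (n + 1), algebraMap E F (a i) * (algebraMap E F d * z) ^ i = 0 := by
  classical
  have hint : IsIntegral E z := halg.isIntegral
  set p := minpoly E z with hp
  have hpm : p.Monic := minpoly.monic hint
  have hdeg : 0 < p.natDegree := minpoly.natDegree_pos hint
  obtain ⟨n, hn⟩ : ∃ n, p.natDegree = n + 1 := ⟨p.natDegree - 1, by omega⟩
  have hroot : z ^ (n + 1) + ∑ i ∈ Finset.range (n + 1), algebraMap E F (p.coeff i) * z ^ i =
      0 := by
    have h1 := minpoly.aeval E z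
    rw [← hp, Polynomial.aeval_eq_sum_range, hn, Finset.sum_range_succ] at h1
    have h2 : p.coeff (n + 1) = 1 := by
      rw [← hn]
      exact hpm
    rw [h2, one_smul, add_comm] at h1
    simpa [Algebra.smul_def] using h1
  -- the scaling
  obtain ⟨d, hd0, hd1, hd⟩ : ∃ d : E, d ≠ 0 ∧ algebraMap E F d ∈ V ∧
      ∀ i ∈ Finset.range (n + 1), algebraMap E F (d * p.coeff i) ∈ V := by
    have key : ∀ S : Finset ℕ, ∃ d : E, d ≠ 0 ∧ algebraMap E F d ∈ V ∧
        ∀ i ∈ S, algebraMap E F (d * p.coeff i) ∈ V := by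
      intro S
      induction S using Finset.induction_on with
      | empty => exact ⟨1, one_ne_zero, by rw [map_one]; exact V.one_mem, fun i hi =>
          absurd hi (Finset.notMem_empty _)⟩
      | insert i S hi ih =>
        obtain ⟨d, hd0, hd1, hd⟩ := ih
        by_cases h : algebraMap E F (p.coeff i) ∈ V
        · refine ⟨d, hd0, hd1, fun j hj => ?_⟩
          rcases Finset.mem_insert.1 hj with rfl | hj
          · rw [map_mul]
            exact V.mul_mem _ _ hd1 h
          · exact hd j hj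
        · have h0 : p.coeff i ≠ 0 := by
            intro h0
            rw [h0, map_zero] at h
            exact h V.zero_mem
          have h1 : algebraMap E F (p.coeff i)⁻¹ ∈ V := by
            rw [map_inv₀]
            exact (V.mem_or_inv_mem _).resolve_left h
          refine ⟨d * (p.coeff i)⁻¹, mul_ne_zero hd0 (inv_ne_zero h0), ?_, fun j hj => ?_⟩
          · rw [map_mul]
            exact V.mul_mem _ _ hd1 h1
          · rcases Finset.mem_insert.1 hj with rfl | hj
            · rw [mul_assoc, inv_mul_cancel₀ h0, mul_one]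
              exact hd1
            · rw [mul_right_comm, map_mul]
              exact V.mul_mem _ _ (hd j hj) h1
    exact key _
  refine ⟨d, n, fun i => if i < n + 1 then d ^ (n + 1 - i) * p.coeff i else 0, hd0, ?_, ?_, ?_⟩
  · intro i
    by_cases hi : i < n + 1
    · simp only [if_pos hi]
      have h1 : d ^ (n + 1 - i) * p.coeff i = d ^ (n - i) * (d * p.coeff i) := by
        have : n + 1 - i = (n - i) + 1 := by omega
        rw [this, pow_succ, mul_assoc]
      rw [h1, map_mul, map_pow]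
      exact V.mul_mem _ _ (Subring.pow_mem V.toSubring hd1 _) (hd i (Finset.mem_range.2 hi))
    · simp only [if_neg hi, map_zero]
      exact V.zero_mem
  · simp only [if_pos (Nat.succ_pos n)]
    refine mul_ne_zero (pow_ne_zero _ hd0) ?_
    exact minpoly.coeff_zero_ne_zero hint hz
  · have h1 : ∑ i ∈ Finset.range (n + 1), algebraMap E F
        (if i < n + 1 then d ^ (n + 1 - i) * p.coeff i else 0) * (algebraMap E F d * z) ^ i =
        algebraMap E F d ^ (n + 1) *
          ∑ i ∈ Finset.range (n + 1), algebraMap E F (p.coeff i) * z ^ i := by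
      rw [Finset.mul_sum]
      refine Finset.sum_congr rfl fun i hi => ?_
      have hi' := Finset.mem_range.1 hi
      rw [if_pos hi', map_mul, map_pow, mul_pow]
      have h2 : algebraMap E F d ^ (n + 1) = algebraMap E F d ^ (n + 1 - i) *
          algebraMap E F d ^ i := by
        rw [← pow_add]
        congr 1
        omega
      rw [h2]
      ring
    rw [h1, mul_pow, ← mul_add, hroot, mul_zero]

end int

section frac

variable {F : Type u} [Field F] {A P : Subring F} {ι : Type} [Fintype ι] {x : ι → F}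

lemma PMon_neg {g : F} (h : PMon P x g) : PMon P x (-g) := by
  obtain ⟨u, u0, u1, u2, δ, rfl⟩ := h
  refine ⟨-u, neg_ne_zero.2 u0, P.neg_mem u1, ?_, δ, by ring⟩
  rw [inv_neg]
  exact P.neg_mem u2

/-- Quotients of monomials in `A`. -/
def Fra (A P : Subring F) (x : ι → F) (z : F) : Prop :=
  PMon P x z ∧ ∃ b ∈ A, PMon P x b ∧ b * z ∈ A

lemma Fra.one : Fra A P x 1 :=
  ⟨PMon.one, 1, A.one_mem, PMon.one, by rw [mul_one]; exact A.one_mem⟩

lemma Fra.mul (hx : ∀ i, x i ≠ 0) {z w : F} (hz : Fra A P x z) (hw : Fra A P x w) :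
    Fra A P x (z * w) := by
  obtain ⟨h1, b, hb, hbm, hbz⟩ := hz
  obtain ⟨h2, c, hc, hcm, hcw⟩ := hw
  refine ⟨h1.mul hx h2, b * c, A.mul_mem hb hc, hbm.mul hx hcm, ?_⟩
  rw [mul_mul_mul_comm]
  exact A.mul_mem hbz hcw

lemma Fra.inv (hx : ∀ i, x i ≠ 0) {z : F} (hz0 : z ≠ 0) (hz : Fra A P x z) :
    Fra A P x z⁻¹ := by
  obtain ⟨h1, b, hb, hbm, hbz⟩ := hz
  refine ⟨h1.inv, b * z, hbz, hbm.mul hx h1, ?_⟩
  rw [mul_assoc, mul_inv_cancel₀ hz0, mul_one]
  exact hb

lemma Fra.pow (hx : ∀ i, x i ≠ 0) {z : F} (hz : Fra A P x z) (n : ℕ) : Fra A P x (z ^ n) := by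
  induction n with
  | zero => rw [pow_zero]; exact Fra.one
  | succ n ih => rw [pow_succ]; exact ih.mul hx hz

lemma Fra.zpow (hx : ∀ i, x i ≠ 0) {z : F} (hz0 : z ≠ 0) (hz : Fra A P x z) (n : ℤ) :
    Fra A P x (z ^ n) := by
  rcases Int.eq_nat_or_neg n with ⟨k, rfl | rfl⟩
  · rw [zpow_natCast]; exact hz.pow hx k
  · rw [zpow_neg, zpow_natCast]
    exact (hz.pow hx k).inv hx (pow_ne_zero _ hz0)

lemma Fra.mo {κ : Type} [Fintype κ] {w : κ → F} (hx : ∀ i, x i ≠ 0) (hw0 : ∀ k, w k ≠ 0)
    (hw : ∀ k, Fra A P x (w k)) (δ : κ → ℤ) : Fra A P x (Pool.Agent.W418.LU2.mo w δ) := by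
  classical
  unfold Pool.Agent.W418.LU2.mo
  have h : ∀ S : Finset κ, Fra A P x (∏ k ∈ S, w k ^ δ k) := by
    intro S
    induction S using Finset.induction_on with
    | empty => rw [Finset.prod_empty]; exact Fra.one
    | insert a S ha ih =>
      rw [Finset.prod_insert ha]
      exact ((hw a).zpow hx (hw0 a) _).mul hx ih
  exact h _

/-- Common denominators. -/
lemma exists_den (hx : ∀ i, x i ≠ 0) {T : Set F} (hT : T.Finite)
    (h : ∀ t ∈ T, ∃ b ∈ A, PMon P x b ∧ b * t ∈ A) :
    ∃ β ∈ A, PMon P x β ∧ ∀ t ∈ T, β * t ∈ A := by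
  induction T, hT using Set.Finite.induction_on with
  | empty => exact ⟨1, A.one_mem, PMon.one, fun t ht => ht.elim⟩
  | @insert a T ha hT ih =>
    obtain ⟨β, hβ, hβm, hβT⟩ := ih fun t ht => h t (Set.mem_insert_of_mem _ ht)
    obtain ⟨b, hb, hbm, hba⟩ := h a (Set.mem_insert _ _)
    refine ⟨β * b, A.mul_mem hβ hb, hβm.mul hx hbm, ?_⟩
    rintro t (rfl | ht)
    · rw [mul_assoc]
      exact A.mul_mem hβ hba
    · rw [mul_comm β, mul_assoc]
      exact A.mul_mem hb (hβT t ht)

end frac

end Pool.Agent.H176.DT
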