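import Pool.Agent.H176.DT.B11

/-!
# The stages of defectless extensions
-/

set_option autoImplicit false
set_option linter.unusedVariables false
set_option linter.unusedSectionVars false

universe u

namespace Pool.Agent.H176.DT

open Pool.Agent.W418.LU2 IsLocalRing

section main

variable {E F : Type u} [Field E] [Field F] [Algebra E F] {V : ValuationSubring F} {q r s : ℕ}
  {t : Fin q → F} {ee : Fin q → ℕ} {b : Fin r → F} {ff : Fin r → ℕ}
  {x : Fin s → E} {C : Subring E} {τ : Fin q → F} {Y : Fin s → F}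
  {K : Finset ((Fin s → ℤ) × (Fin q → ℤ))}

/-- The local ring of the stage. -/
abbrev PF (C : Subring E) (V : ValuationSubring F) (y : TT r q s → F) : Subring F :=
  lo V.toSubring (Subring.closure ((C.map (algebraMap E F) : Set F) ∪ Set.range y))

lemma alg_mem_PF {y : TT r q s → F} {u : E}
    (hu : u ∈ lo (V.comap (algebraMap E F)).toSubring C) : algebraMap E F u ∈ PF C V y := by
  have h1 : algebraMap E F u ∈ lo V.toSubring (C.map (algebraMap E F)) := by
    rw [lo_map (algebraMap E F) (A' := (V.comap (algebraMap E F)).toSubring) (fun e => Iff.rfl)]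
    exact ⟨u, hu, rfl⟩
  exact lo_mono (fun z hz => Subring.subset_closure (Or.inl hz)) h1

lemma y_mem_PF {y : TT r q s → F} (θ : TT r q s) : y θ ∈ PF C V y :=
  le_lo _ _ (Subring.subset_closure (Or.inr ⟨θ, rfl⟩))

lemma clos_le {y : TT r q s → F} (hC : C ≤ (V.comap (algebraMap E F)).toSubring)
    (hy : ∀ θ, y θ ∈ V) :
    Subring.closure ((C.map (algebraMap E F) : Set F) ∪ Set.range y) ≤ V.toSubring := by
  rw [Subring.closure_le]
  rintro z (⟨c, hc, rfl⟩ | ⟨θ, rfl⟩)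
  · exact hC hc
  · exact hy θ

variable (D : Dat (E := E) V t ee b ff x C τ Y K)

include D

lemma Dat.le : Subring.closure ((C.map (algebraMap E F) : Set F) ∪ Set.range (yy b τ Y)) ≤
    V.toSubring := clos_le D.hC (yy_mem D.t1 D.Y1 D.str.b1)

lemma Dat.t0 (i : Fin q) : τ i ≠ 0 := ne_zero_of_val (D.t1 i)

lemma Dat.tau_mem (i : Fin q) : τ i ∈ PF C V (yy b τ Y) :=
  y_mem_PF (y := yy b τ Y) (Sum.inr (Sum.inl i))

lemma Dat.tau_inv (i : Fin q) : (τ i)⁻¹ ∈ PF C V (yy b τ Y) := by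
  refine inv_mem_lo D.le (D.tau_mem i) (D.t0 i) ?_
  have := D.t1 i
  exact ((val_one_iff V _).1 this).2.2

lemma Dat.Y_mem (j : Fin s) : Y j ∈ PF C V (yy b τ Y) :=
  y_mem_PF (y := yy b τ Y) (Sum.inr (Sum.inr j))

lemma Dat.b_mem (j : Fin r) : b j ∈ PF C V (yy b τ Y) :=
  y_mem_PF (y := yy b τ Y) (Sum.inl j)

lemma Dat.mo_tau (κ : Fin q → ℤ) : mo τ κ ∈ PF C V (yy b τ Y) := by
  unfold mo
  refine Subring.prod_mem _ fun i _ => ?_
  rcases Int.eq_nat_or_neg (κ i) with ⟨n, h | h⟩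
  · rw [h, zpow_natCast]
    exact Subring.pow_mem _ (D.tau_mem i) _
  · rw [h, zpow_neg, zpow_natCast, ← inv_pow]
    exact Subring.pow_mem _ (D.tau_inv i) _

lemma Dat.mo_tau_inv (κ : Fin q → ℤ) : (mo τ κ)⁻¹ ∈ PF C V (yy b τ Y) := by
  rw [← mo_neg]
  exact D.mo_tau _

lemma Dat.tau_PMon (κ : Fin q → ℤ) : PMon (PF C V (yy b τ Y)) Y (mo τ κ) :=
  ⟨mo τ κ, mo_ne_zero D.t0 _, D.mo_tau κ, D.mo_tau_inv κ, 0, by rw [mo_zero, mul_one]⟩

lemma Dat.K_PMon {k : (Fin s → ℤ) × (Fin q → ℤ)} (hk : k ∈ K) :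
    PMon (PF C V (yy b τ Y)) Y (MM x t k.1 k.2) := by
  obtain ⟨n, κ, hn, h⟩ := D.K0 k hk
  rw [h]
  exact (PMon.of_mo _).mul D.Y0 (D.tau_PMon κ)

lemma Dat.K_mem {k : (Fin s → ℤ) × (Fin q → ℤ)} (hk : k ∈ K) :
    MM x t k.1 k.2 ∈ PF C V (yy b τ Y) := by
  obtain ⟨n, κ, hn, h⟩ := D.K0 k hk
  rw [h]
  refine Subring.mul_mem _ ?_ (D.mo_tau κ)
  unfold mo
  refine Subring.prod_mem _ fun i _ => ?_
  rw [zpow_natCast]
  exact Subring.pow_mem _ (D.Y_mem i) _

/-- The elements of `E` which are monomials stay monomials. -/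
lemma Dat.alg_PMon (hKx : ∀ i, ((Pi.single i 1 : Fin s → ℤ), (0 : Fin q → ℤ)) ∈ K) {g : E}
    (hg : PMon (lo (V.comap (algebraMap E F)).toSubring C) x g) :
    PMon (PF C V (yy b τ Y)) Y (algebraMap E F g) := by
  obtain ⟨u, u0, u1, u2, δ, rfl⟩ := hg
  have h1 : ∀ i, PMon (PF C V (yy b τ Y)) Y (algebraMap E F (x i)) := by
    intro i
    have h2 := D.K_PMon (hKx i)
    have h5 : MM x t (Pi.single i 1) 0 = algebraMap E F (x i) := by
      unfold MM
      rw [mo_zero, mul_one, mo_single]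
    simp only at h2
    rwa [h5] at h2
  rw [map_mul, map_mo]
  refine PMon.mul D.Y0 ⟨algebraMap E F u, (map_ne_zero _).2 u0, alg_mem_PF u1, ?_, 0, ?_⟩
    (PMon.mo D.Y0 h1 δ)
  · rw [← map_inv₀]
    exact alg_mem_PF u2
  · rw [mo_zero, mul_one]

/-- The elements with good coefficients lie in the local ring. -/
lemma Dat.el_mem (c : ((i : Fin q) → Fin (ee i)) × ((j : Fin r) → Fin (ff j)) → E)
    (hc : Good x C V t K c) : el t b c ∈ PF C V (yy b τ Y) := by
  obtain ⟨ζ, hζ, hζJ⟩ := D.lift c hc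
  have hZ0 : Z0 V t s c ∈ RZ C (yy b τ Y) V :=
    Z0_mem (W := Set.range (Zc E)) (fun j => ⟨Sum.inl j, rfl⟩) c hc D.K1 D.hC
  have hζm : ζ ∈ RZ C (yy b τ Y) V := by
    have := Subring.add_mem _ hζJ.mem hZ0
    rwa [sub_add_cancel] at this
  exact RZ_down (y := yy b τ Y) D.hC hζm hζ

/-- The integral elements with good coefficients are monomials. -/
lemma Dat.root_PMon (hfac : S_fac.{u})
    (hKx : ∀ i, ((Pi.single i 1 : Fin s → ℤ), (0 : Fin q → ℤ)) ∈ K)
    (hreg : RegP V.toSubring (PF C V (yy b τ Y)) Y) {w : F} (hw : w ∈ PF C V (yy b τ Y))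
    {n : ℕ} {a : ℕ → E}
    (ha : ∀ i < n + 1, a i ∈ lo (V.comap (algebraMap E F)).toSubring C)
    (ha0 : PMon (lo (V.comap (algebraMap E F)).toSubring C) x (a 0))
    (h : w ^ (n + 1) + ∑ i ∈ Finset.range (n + 1), algebraMap E F (a i) * w ^ i = 0) :
    PMon (PF C V (yy b τ Y)) Y w := by
  have h1 : w * (w ^ n + ∑ i ∈ Finset.range n, algebraMap E F (a (i + 1)) * w ^ i) =
      -algebraMap E F (a 0) := by
    rw [Finset.sum_range_succ'] at h
    rw [mul_add, Finset.mul_sum]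
    have h2 : ∑ i ∈ Finset.range n, w * (algebraMap E F (a (i + 1)) * w ^ i) =
        ∑ i ∈ Finset.range n, algebraMap E F (a (i + 1)) * w ^ (i + 1) :=
      Finset.sum_congr rfl fun i _ => by ring
    rw [h2]
    rw [pow_zero, mul_one] at h
    linear_combination h
  refine hfac hreg w (w ^ n + ∑ i ∈ Finset.range n, algebraMap E F (a (i + 1)) * w ^ i) hw ?_ ?_
  · refine Subring.add_mem _ (Subring.pow_mem _ hw _) (Subring.sum_mem _ fun i hi =>
      Subring.mul_mem _ (alg_mem_PF (ha _ ?_)) (Subring.pow_mem _ hw _))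
    have := Finset.mem_range.1 hi
    omega
  · rw [h1]
    exact PMon_neg (D.alg_PMon hKx ha0)

end main

end Pool.Agent.H176.DT
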