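import Pool.Agent.H176.DT.B12

/-!
# The stages of defectless extensions, continued
-/

set_option autoImplicit false
set_option linter.unusedVariables false
set_option linter.unusedSectionVars false

universe u

namespace Pool.Agent.H176.DT

open Pool.Agent.W418.LU2 IsLocalRing

section main

variable {E F : Type u} [Field E] [Field F] [Algebra E F] {V : ValuationSubring F} {q r : ℕ}
  {t : Fin q → F} {ee : Fin q → ℕ} {b : Fin r → F} {ff : Fin r → ℕ}

lemma val_unit {P : Subring E} (hP : P ≤ (V.comap (algebraMap E F)).toSubring) {u : E}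
    (u0 : u ≠ 0) (u1 : u ∈ P) (u2 : u⁻¹ ∈ P) : V.valuation (algebraMap E F u) = 1 := by
  rw [val_one_iff]
  refine ⟨(map_ne_zero _).2 u0, hP u1, ?_⟩
  rw [← map_inv₀]
  exact hP u2

lemma prod_zpow (μ : (i : Fin q) → Fin (ee i)) :
    ∏ i, t i ^ (μ i : ℕ) = mo t fun i => ((μ i : ℕ) : ℤ) := by
  unfold mo
  exact Finset.prod_congr rfl fun i _ => (zpow_natCast _ _).symm

/-- The conclusion of the construction of a stage. -/
structure Cons (V : ValuationSubring F) (t : Fin q → F) (ee : Fin q → ℕ) (b : Fin r → F)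
    (ff : Fin r → ℕ) (A : Subring E) (GE : Set E) (g : Fin q → E) (m₀ : Fin q → Fin q → ℤ)
    (T : Set E) {s : ℕ} (x : Fin s → E) (τ : Fin q → F) (u : Fin q → E) (Y : Fin s → F)
    (K : Finset ((Fin s → ℤ) × (Fin q → ℤ))) : Prop where
  st : St (V.comap (algebraMap E F)) A T x
  xu : ∀ i, (x i)⁻¹ ∉ V.comap (algebraMap E F)
  dat : Dat (E := E) V t ee b ff x (Subring.closure ((A : Set E) ∪ T)) τ Y K
  Kx : ∀ i, ((Pi.single i 1 : Fin s → ℤ), (0 : Fin q → ℤ)) ∈ K
  mon : ∀ a ∈ GE, PMon (PP (V.comap (algebraMap E F)) A T) x a ∧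
    (a ∈ V.comap (algebraMap E F) → a ∈ PP (V.comap (algebraMap E F)) A T)
  good : ∀ c : ((i : Fin q) → Fin (ee i)) × ((j : Fin r) → Fin (ff j)) → E,
    (∀ p, c p ≠ 0 → c p ∈ GE) →
    (∀ p, V.valuation (algebraMap E F (c p) * ∏ i, t i ^ (p.1 i : ℕ)) ≤ 1) →
    Good x (Subring.closure ((A : Set E) ∪ T)) V t K c
  um : ∀ i, u i ∈ PP (V.comap (algebraMap E F)) A T
  tau : ∀ i, τ i = algebraMap E F (u i) * (t i ^ ee i * (algebraMap E F (g i) * mo t (m₀ i))⁻¹)
  tM : ∀ i, ∃ l m, τ i = MM x t l m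
  YM : ∀ j, ∃ l m, Y j = MM x t l m
  gen : ∀ i, ∃ (n : Fin s → ℕ) (κ : Fin q → ℤ),
    (t i ∈ V ∧ t i = mo Y (fun j => (n j : ℤ)) * mo τ κ) ∨
    (t i ∉ V ∧ (t i)⁻¹ = mo Y (fun j => (n j : ℤ)) * mo τ κ)

theorem exists_cons (hell : S_ell.{u}) (hind : S_ind.{u}) (hS : Str (E := E) V t ee b ff)
    (A : Subring E) (hSU : SU (V.comap (algebraMap E F)) A) (GE : Set E) (hGE : GE.Finite)
    (hGE0 : ∀ a ∈ GE, a ≠ 0) {g : Fin q → E} {m₀ : Fin q → Fin q → ℤ}
    (hm₀ : ∀ i j, i ≤ j → m₀ i j = 0)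
    (hrel : ∀ i, V.valuation (t i ^ ee i) = V.valuation (algebraMap E F (g i) * mo t (m₀ i)))
    (hg : ∀ i, g i ∈ GE) :
    ∃ (T : Set E) (s : ℕ) (x : Fin s → E) (τ : Fin q → F) (u : Fin q → E) (Y : Fin s → F)
      (K : Finset ((Fin s → ℤ) × (Fin q → ℤ))),
      Cons V t ee b ff A GE g m₀ T x τ u Y K := by
  classical
  obtain ⟨T, s, x, hSt, hxu, hxi', hGG⟩ := hind (V.comap (algebraMap E F)) A hSU GE hGE hGE0
  have hx0 : ∀ i, x i ≠ 0 := hSt.reg.ne
  have ht0 := hS.t0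
  have hP : PP (V.comap (algebraMap E F)) A T ≤ (V.comap (algebraMap E F)).toSubring :=
    hSt.reg.PA
  have hxi : ∀ δ : Fin s → ℤ, V.valuation (algebraMap E F (mo x δ)) = 1 → δ = 0 :=
    fun δ h => hxi' δ ((comap_one _ V _).2 h)
  have h1 : ∀ a : E, ∃ (u : E) (l : Fin s → ℤ), a ∈ GE → (u ≠ 0 ∧
      u ∈ PP (V.comap (algebraMap E F)) A T ∧ u⁻¹ ∈ PP (V.comap (algebraMap E F)) A T ∧
      a = u * mo x l) := by
    intro a
    by_cases ha : a ∈ GE
    · obtain ⟨u, u0, u1, u2, δ, h⟩ := (hGG a ha).1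
      exact ⟨u, δ, fun _ => ⟨u0, u1, u2, h⟩⟩
    · exact ⟨1, 0, fun h => absurd h ha⟩
  choose uu ll hul using h1
  -- the monomials
  let K0 : Finset ((Fin s → ℤ) × (Fin q → ℤ)) :=
    ((Finset.univ.image fun i : Fin s => ((Pi.single i 1 : Fin s → ℤ), (0 : Fin q → ℤ))) ∪
      (Finset.univ.image fun i : Fin q => ((0 : Fin s → ℤ), (Pi.single i 1 : Fin q → ℤ)))) ∪
    ((Finset.univ.image fun i : Fin q => ((0 : Fin s → ℤ), -(Pi.single i 1 : Fin q → ℤ))) ∪
      ((hGE.toFinset ×ˢ (Finset.univ : Finset ((i : Fin q) → Fin (ee i)))).image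
        fun p => (ll p.1, fun i => ((p.2 i : ℕ) : ℤ))))
  let K := K0.filter fun k => V.valuation (MM x t k.1 k.2) < 1
  have hK1 : ∀ k ∈ K, V.valuation (MM x t k.1 k.2) < 1 := fun k hk => (Finset.mem_filter.1 hk).2
  have hK : ∀ k, k ∈ K0 → V.valuation (MM x t k.1 k.2) < 1 → k ∈ K := fun k h h' =>
    Finset.mem_filter.2 ⟨h, h'⟩
  have hMx : ∀ i, MM x t (Pi.single i 1) 0 = algebraMap E F (x i) := by
    intro i
    unfold MM
    rw [mo_zero, mul_one, mo_single]
  have hMt : ∀ i, MM x t 0 (Pi.single i 1) = t i := by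
    intro i
    unfold MM
    rw [mo_zero, map_one, one_mul, mo_single]
  have hKx : ∀ i, ((Pi.single i 1 : Fin s → ℤ), (0 : Fin q → ℤ)) ∈ K := by
    intro i
    refine hK _ (Finset.mem_union_left _ (Finset.mem_union_left _ (Finset.mem_image.2
      ⟨i, Finset.mem_univ _, rfl⟩))) ?_
    simp only
    rw [hMx, val_lt_one_iff]
    refine ⟨hP (hSt.reg.mem i), fun h => hxu i ?_⟩
    change algebraMap E F (x i)⁻¹ ∈ V
    rw [map_inv₀]
    exact h.2
  -- the torus coordinates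
  have hrel' : ∀ i, V.valuation (t i ^ ee i) = V.valuation (MM x t (ll (g i)) (m₀ i)) := by
    intro i
    obtain ⟨u0, u1, u2, h⟩ := hul (g i) (hg i)
    rw [hrel i]
    unfold MM
    nth_rewrite 1 [h]
    rw [map_mul, map_mul, map_mul, val_unit hP u0 u1 u2, one_mul, map_mul]
  let τ : Fin q → F := fun i => t i ^ ee i * (MM x t (ll (g i)) (m₀ i))⁻¹
  have hτ : ∀ i, τ i = t i ^ ee i * (MM x t (ll (g i)) (m₀ i))⁻¹ := fun i => rfl
  have hτ1 : ∀ i, V.valuation (τ i) = 1 := by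
    intro i
    rw [hτ, map_mul, map_inv₀, hrel', mul_inv_cancel₀]
    exact (map_ne_zero _).2 (MM_ne hx0 ht0 _ _)
  obtain ⟨L, M, hLM, hLK⟩ := exists_Y hell hS hx0 hxi hm₀ hrel' hτ K hK1 hKx
  have hD : Dat (E := E) V t ee b ff x (Subring.closure ((A : Set E) ∪ T)) τ
      (fun j => MM x t (L j) (M j)) K :=
    { str := hS
      hC := fun z hz => hP (le_lo _ _ hz)
      t1 := hτ1
      Y1 := hLM
      Y0 := fun j => MM_ne hx0 ht0 _ _
      K0 := hLK
      K1 := hK1 }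
  refine ⟨T, s, x, τ, fun i => uu (g i), fun j => MM x t (L j) (M j), K, hSt, hxu, hD, hKx, hGG,
    ?_, fun i => (hul _ (hg i)).2.1, ?_, ?_, fun j => ⟨_, _, rfl⟩, ?_⟩
  · intro c hc hle p hp
    obtain ⟨u0, u1, u2, h⟩ := hul _ (hc p hp)
    have h2 : V.valuation (algebraMap E F (c p) * ∏ i, t i ^ (p.1 i : ℕ)) =
        V.valuation (MM x t (ll (c p)) fun i => ((p.1 i : ℕ) : ℤ)) := by
      rw [prod_zpow]
      nth_rewrite 1 [h]
      unfold MM
      rw [map_mul, map_mul, map_mul, val_unit hP u0 u1 u2, one_mul, map_mul]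
    rcases (hle p).lt_or_eq with h3 | h3
    · right
      refine ⟨uu (c p), ll (c p), u1, h, hK _ ?_ (by rw [← h2]; exact h3)⟩
      refine Finset.mem_union_right _ (Finset.mem_union_right _ (Finset.mem_image.2
        ⟨(c p, p.1), Finset.mem_product.2 ⟨hGE.mem_toFinset.2 (hc p hp), Finset.mem_univ _⟩, rfl⟩))
    · left
      have h4 := val_one_small hx0 ht0 hS.min hxi (ll (c p)) p.1 (by rw [← h2]; exact h3)
      refine ⟨h3, ?_, h4.2⟩
      rw [h, h4.1, mo_zero, mul_one]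
      exact u1
  · intro i
    obtain ⟨u0, u1, u2, h⟩ := hul _ (hg i)
    have u0' : algebraMap E F (uu (g i)) ≠ 0 := (map_ne_zero _).2 u0
    have h2 : algebraMap E F (g i) * mo t (m₀ i) = algebraMap E F (uu (g i)) *
        MM x t (ll (g i)) (m₀ i) := by
      unfold MM
      nth_rewrite 1 [h]
      rw [map_mul, mul_assoc]
    rw [hτ, h2, mul_inv]
    field_simp
  · intro i
    refine ⟨-ll (g i), Pi.single i (ee i : ℤ) - m₀ i, ?_⟩
    have h2 : MM x t 0 (Pi.single i (ee i : ℤ)) = t i ^ ee i := by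
      unfold MM mo
      rw [Finset.prod_eq_single (s := Finset.univ) i]
      · rw [Pi.single_eq_same, zpow_natCast]
        simp
      · intro j _ hj
        rw [Pi.single_eq_of_ne hj, zpow_zero]
      · intro h; exact absurd (Finset.mem_univ _) h
    rw [hτ, ← h2, ← MM_neg, ← MM_add hx0 ht0, zero_add, ← sub_eq_add_neg]
  · intro i
    rcases lt_trichotomy (V.valuation (t i)) 1 with h | h | h
    · have hk : ((0 : Fin s → ℤ), (Pi.single i 1 : Fin q → ℤ)) ∈ K := by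
        refine hK _ (Finset.mem_union_left _ (Finset.mem_union_right _ (Finset.mem_image.2
          ⟨i, Finset.mem_univ _, rfl⟩))) ?_
        simp only
        rw [hMt]
        exact h
      obtain ⟨n, κ, hn, h2⟩ := hLK _ hk
      simp only at h2
      rw [hMt] at h2
      exact ⟨n, κ, Or.inl ⟨(V.valuation_le_one_iff _).1 h.le, h2⟩⟩
    · obtain ⟨k, hk⟩ := val_one_mo hx0 ht0 hS.min hxi hm₀ hτ hτ1 0 (Pi.single i 1) (by
        rw [hMt]
        exact h)
      rw [hMt] at hk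
      refine ⟨0, k, Or.inl ⟨(V.valuation_le_one_iff _).1 h.le, ?_⟩⟩
      have h5 : (fun j : Fin s => (((0 : Fin s → ℕ) j : ℕ) : ℤ)) = 0 := by
        funext j
        simp
      rw [h5, mo_zero, one_mul]
      exact hk
    · have hMt' : MM x t 0 (-Pi.single i 1) = (t i)⁻¹ := by
        rw [← hMt i, ← MM_neg, neg_zero]
      have hk : ((0 : Fin s → ℤ), -(Pi.single i 1 : Fin q → ℤ)) ∈ K := by
        refine hK _ (Finset.mem_union_right _ (Finset.mem_union_left _ (Finset.mem_image.2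
          ⟨i, Finset.mem_univ _, rfl⟩))) ?_
        simp only
        rw [hMt', map_inv₀]
        exact inv_lt_one_of_one_lt₀ h
      obtain ⟨n, κ, hn, h2⟩ := hLK _ hk
      simp only at h2
      rw [hMt'] at h2
      refine ⟨n, κ, Or.inr ⟨fun h3 => ?_, h2⟩⟩
      exact absurd ((V.valuation_le_one_iff _).2 h3) (not_le.2 h)

end main

end Pool.Agent.H176.DT
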