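import Pool.Agent.H176.DT.B14

/-!
# The defectless step, continued
-/

set_option autoImplicit false
set_option linter.unusedVariables false
set_option linter.unusedSectionVars false

universe u

namespace Pool.Agent.H176.DT

open Pool.Agent.W418.LU2 IsLocalRing

section main

variable {E F : Type u} [Field E] [Field F] [Algebra E F] {V : ValuationSubring F} {q r : ℕ}
  {t : Fin q → F} {ee : Fin q → ℕ} {b : Fin r → F} {ff : Fin r → ℕ}
  {s : ℕ} {x : Fin s → E} {τ : Fin q → F} {Y : Fin s → F} {u : Fin q → E}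
  {K : Finset ((Fin s → ℤ) × (Fin q → ℤ))} {A : Subring E} {GE : Set E} {g : Fin q → E}
  {m₀ : Fin q → Fin q → ℤ} {T : Set E}

/-- The stage. -/
theorem Cons.stage (hadj : S_adj.{u}) (halg : S_alg.{u}) (hmap : S_map.{u}) (hext : S_ext.{u})
    (hcut : S_cut.{u}) (H : Cons V t ee b ff A GE g m₀ T x τ u Y K)
    (hM : Mod (V.comap (algebraMap E F)) A)
    {cw : Fin q → ((i : Fin q) → Fin (ee i)) × ((j : Fin r) → Fin (ff j)) → E}
    (hcw : ∀ i p, cw i p ≠ 0 → cw i p ∈ GE)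
    (hw : ∀ i, t i ^ ee i * (algebraMap E F (g i) * mo t (m₀ i))⁻¹ = el t b (cw i))
    (hwv : ∀ i, V.valuation (el t b (cw i)) ≤ 1)
    {h : ∀ j, Fin (ff j) → MvPolynomial (Fin r) E}
    (hsupp : ∀ j l, h j l ∈ MvPolynomial.supported E {i | i < j})
    (hh : ∀ j l m, (h j l).coeff m ≠ 0 → (h j l).coeff m ∈ GE)
    (hhV : ∀ j l m, algebraMap E F ((h j l).coeff m) ∈ V)
    {cc : Fin r → ((i : Fin q) → Fin (ee i)) × ((j : Fin r) → Fin (ff j)) → E}
    (hcc : ∀ j p, cc j p ≠ 0 → cc j p ∈ GE)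
    (hbc : ∀ j, b j ^ ff j + ∑ l, MvPolynomial.aeval b (h j l) * b j ^ (l : ℕ) =
      el t b (cc j))
    (hval : ∀ j, V.valuation (b j ^ ff j +
      ∑ l, MvPolynomial.aeval b (h j l) * b j ^ (l : ℕ)) < 1) :
    St V (AF A V t b) (algebraMap E F '' T ∪ Set.range (yy b τ Y)) Y := by
  classical
  have := fin_alg H.dat.str
  have hS := H.dat.str
  have hccv : ∀ j p, V.valuation (algebraMap E F (cc j p) * ∏ i, t i ^ (p.1 i : ℕ)) < 1 := by
    intro j p
    refine lt_of_le_of_lt (el_bound hS (cc j) p) ?_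
    rw [← hbc]
    exact hval j
  have hCE : ∀ a : E, ∃ d ∈ Subring.closure ((A : Set E) ∪ T), d ≠ 0 ∧
      a * d ∈ Subring.closure ((A : Set E) ∪ T) := by
    intro a
    obtain ⟨c, hc, d, hd, hd0, rfl⟩ := hM.2 a
    refine ⟨d, Subring.subset_closure (Or.inl hd), hd0, ?_⟩
    rw [mul_assoc, inv_mul_cancel₀ hd0, mul_one]
    exact Subring.subset_closure (Or.inl hc)
  have hreg := bas_reg hadj halg hmap hext hcut H.dat H.st.reg H.xu hCE H.Kx
    (u := u) H.um (cw := cw) (fun i => H.good (cw i) (hcw i) fun p =>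
      (el_bound hS (cw i) p).trans (hwv i)) (fun i => by rw [H.tau, hw]) hsupp
    (fun j l m => by
      by_cases h0 : (h j l).coeff m = 0
      · rw [h0]
        exact Subring.zero_mem _
      · exact (H.mon _ (hh j l m h0)).2 (hhV j l m)) (cc := cc)
    (fun j => H.good (cc j) (hcc j) fun p => (hccv j p).le) hccv hbc hval H.hfr
    (_root_.trdeg_eq_zero)
  refine ⟨(H.st.fin.image _).union (Set.finite_range _), ?_, ?_⟩
  · rw [H.PP_eq]
    exact hreg
  · obtain ⟨β, hβ, hβm, hβT, hβY⟩ := H.den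
    refine ⟨β, hβ, ?_, hβT, hβY⟩
    rw [H.PP_eq]
    exact hβm

/-- The defectless step. -/
theorem bas (hfac : S_fac.{u}) (href : S_ref.{u}) (hell : S_ell.{u}) (hind : S_ind.{u})
    (hadj : S_adj.{u}) (halg : S_alg.{u}) (hmap : S_map.{u}) (hext : S_ext.{u})
    (hcut : S_cut.{u}) (V : ValuationSubring F) (A : Subring E)
    (hM : Mod (V.comap (algebraMap E F)) A) (hSU : SU (V.comap (algebraMap E F)) A)
    (hS : Str (E := E) V t ee b ff) : SU V (AF A V t b) := by
  classical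
  intro G hG hG0
  have hfin := fin_alg hS
  choose g m₀ hg0 hm₀ hrel using hS.rel
  have h1 : ∀ i, ∃ c : ((i : Fin q) → Fin (ee i)) × ((j : Fin r) → Fin (ff j)) → E,
      t i ^ ee i * (algebraMap E F (g i) * mo t (m₀ i))⁻¹ = el t b c := fun i => hS.span _
  choose cw hcw using h1
  choose h hsupp hhV hval using hS.res
  have h2 : ∀ j, ∃ c : ((i : Fin q) → Fin (ee i)) × ((j : Fin r) → Fin (ff j)) → E,
      b j ^ ff j + ∑ l, MvPolynomial.aeval b (h j l) * b j ^ (l : ℕ) = el t b c :=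
    fun j => hS.span _
  choose cc hcc using h2
  have h3 : ∀ z : F, ∃ (d : E) (n : ℕ) (a : ℕ → E), z ≠ 0 → (d ≠ 0 ∧
      (∀ i, algebraMap E F (a i) ∈ V) ∧ a 0 ≠ 0 ∧
      (algebraMap E F d * z) ^ (n + 1) +
        ∑ i ∈ Finset.range (n + 1), algebraMap E F (a i) * (algebraMap E F d * z) ^ i = 0) := by
    intro z
    by_cases hz : z = 0
    · exact ⟨0, 0, fun _ => 0, fun h => absurd hz h⟩
    · obtain ⟨d, n, a, h⟩ := exists_int V hz (Algebra.IsAlgebraic.isAlgebraic (R := E) z)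
      exact ⟨d, n, a, fun _ => h⟩
  choose d n a hdna using h3
  have h4 : ∀ z : F, ∃ c : ((i : Fin q) → Fin (ee i)) × ((j : Fin r) → Fin (ff j)) → E,
      algebraMap E F (d z) * z = el t b c := fun z => hS.span _
  choose cz hcz using h4
  -- the coefficients
  let GE : Set E := {e : E | e ≠ 0} ∩ ((Set.range g ∪ ((⋃ i, Set.range (cw i)) ∪
    (⋃ j, Set.range (cc j)))) ∪ ((⋃ j, ⋃ l, (h j l).coeff '' ((h j l).support : Set _)) ∪
      (⋃ z ∈ G, (Set.range (cz z) ∪ ({d z} ∪ a z '' Set.Iio (n z + 1))))))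
  have hGEf : GE.Finite := by
    refine Set.Finite.inter_of_right ?_ _
    refine ((Set.finite_range _).union ((Set.finite_iUnion fun i => Set.finite_range _).union
      (Set.finite_iUnion fun i => Set.finite_range _))).union
      ((Set.finite_iUnion fun j => Set.finite_iUnion fun l => (Finset.finite_toSet _).image _).union
      (hG.biUnion fun z _ => (Set.finite_range _).union ((Set.finite_singleton _).union
        ((Set.finite_Iio _).image _))))
  obtain ⟨T, s, x, τ, u, Y, K, H⟩ := exists_cons hell hind hS A hSU GE hGEf (fun e he => he.1)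
    hm₀ hrel (fun i => ⟨hg0 i, Or.inl (Or.inl ⟨i, rfl⟩)⟩)
  have hwv : ∀ i, V.valuation (el t b (cw i)) ≤ 1 := by
    intro i
    rw [← hcw, map_mul, map_inv₀, hrel i]
    exact mul_inv_le_one
  have hSt := H.stage hadj halg hmap hext hcut hM
    (fun i p hp => ⟨hp, Or.inl (Or.inr (Or.inl (Set.mem_iUnion.2 ⟨i, p, rfl⟩)))⟩) hcw hwv hsupp
    (fun j l m hm => ⟨hm, Or.inr (Or.inl (Set.mem_iUnion.2 ⟨j, Set.mem_iUnion.2 ⟨l,
      m, MvPolynomial.mem_support_iff.2 hm, rfl⟩⟩))⟩) hhV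
    (fun j p hp => ⟨hp, Or.inl (Or.inr (Or.inr (Set.mem_iUnion.2 ⟨j, p, rfl⟩)))⟩) hcc hval
  have hmon : ∀ z ∈ G, PMon (PP V (AF A V t b) (algebraMap E F '' T ∪ Set.range (yy b τ Y))) Y
      z := by
    intro z hz
    rw [H.PP_eq]
    obtain ⟨hd0, haV, ha0, hroot⟩ := hdna z (hG0 z hz)
    have hdGE : d z ∈ GE := ⟨hd0, Or.inr (Or.inr (Set.mem_biUnion hz (Or.inr (Or.inl rfl))))⟩
    have hwV : algebraMap E F (d z) * z ∈ V := mem_of_root V haV hroot
    have hwm : algebraMap E F (d z) * z ∈ PF (Subring.closure ((A : Set E) ∪ T)) V (yy b τ Y) := by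
      rw [hcz z]
      refine H.dat.el_mem (cz z) (H.good (cz z) (fun p hp => ⟨hp, Or.inr (Or.inr
        (Set.mem_biUnion hz (Or.inl ⟨p, rfl⟩)))⟩) fun p => ?_)
      refine (el_bound hS (cz z) p).trans ?_
      rw [← hcz z]
      exact (V.valuation_le_one_iff _).2 hwV
    have haGE : ∀ i < n z + 1, a z i ≠ 0 → a z i ∈ GE := fun i hi h0 =>
      ⟨h0, Or.inr (Or.inr (Set.mem_biUnion hz (Or.inr (Or.inr ⟨i, hi, rfl⟩))))⟩
    have hreg := hSt.reg
    rw [H.PP_eq] at hreg
    have h5 := H.dat.root_PMon hfac H.Kx hreg hwm (n := n z) (a := a z) (fun i hi => by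
      by_cases h0 : a z i = 0
      · rw [h0]
        exact Subring.zero_mem _
      · exact (H.mon _ (haGE i hi h0)).2 (haV i)) (H.mon _ (haGE 0 (Nat.succ_pos _) ha0)).1 hroot
    have h6 := (H.dat.alg_PMon H.Kx (H.mon _ hdGE).1).inv.mul H.dat.Y0 h5
    rwa [← mul_assoc, inv_mul_cancel₀ ((map_ne_zero _).2 hd0), one_mul] at h6
  obtain ⟨T', x', hT', hSt', -, -, hmon', hmem⟩ := href V (AF A V t b) _ Y hSt G hG hmon
  exact ⟨T', s, x', hSt', fun z hz => ⟨hmon' z (hmon z hz), hmem z hz⟩⟩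

end main

end Pool.Agent.H176.DT
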