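import Pool.Agent.H176.DT.B15
import Pool.Agent.H447.DT.Fac
import Pool.Agent.H447.DT.Ext
import Pool.Agent.H447.DT.AdjF
import Pool.Agent.H737.DT.Rf
import Pool.Agent.Y67.DT.Ind
import Pool.Agent.Y67.DT.Base
import Pool.Agent.Y67.DT.Move
import Pool.Agent.Y67.DT.Cut
import Pool.Agent.Y815.DT.Fin
import Pool.Agent.Y815.DT.Val
import Pool.Agent.Y319.DT.Tr
import Pool.Agent.Y901.DT.Et
import Pool.Agent.H624.DT.Res
import Pool.Agent.H624.DT.Unr
import Pool.Agent.Y454.DT.EllS
import Pool.Agent.Y925.DT.Str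

/-!
# Towers
-/

set_option autoImplicit false
set_option linter.unusedVariables false
set_option linter.unusedSectionVars false

universe u

namespace Pool.Agent.H176.DT

open Pool.Agent.W418.LU2 IsLocalRing Polynomial

theorem p_fac : S_fac.{u} := Pool.Agent.H447.DT.fac
theorem p_expo : S_expo.{u} := Pool.Agent.H447.DT.expo
theorem p_ext : S_ext.{u} := Pool.Agent.H447.DT.ext
theorem p_map : S_map.{u} := Pool.Agent.H447.DT.map
theorem p_adj : S_adj.{u} := Pool.Agent.H447.DT.adj
theorem p_ref : S_ref.{u} := Pool.Agent.H737.DT.ref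
theorem p_ind : S_ind.{u} := Pool.Agent.Y67.DT.ind p_ref p_expo
theorem p_base : S_base.{u} := Pool.Agent.Y67.DT.base' p_ref
theorem p_noe : S_noe.{u} := Pool.Agent.Y67.DT.noe
theorem p_move : S_move.{u} := Pool.Agent.Y67.DT.move
theorem p_cut : S_cut.{u} := Pool.Agent.Y67.DT.cut
theorem p_alg : S_alg.{u} := Pool.Agent.Y67.DT.alg
theorem p_fin : S_fin.{u} := Pool.Agent.Y815.DT.fin
theorem p_val : S_val.{u} := Pool.Agent.Y815.DT.val
theorem p_tr : S_tr.{u} := Pool.Agent.Y319.DT.tr p_ref p_fac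
theorem p_et : S_et.{u} := Pool.Agent.Y901.DT.et
theorem p_res : S_res.{u} := Pool.Agent.H624.DT.res
theorem p_unr : S_unr.{u} := Pool.Agent.H624.DT.unr p_ref p_fac p_ind p_ext p_map p_adj p_cut p_alg
theorem p_ell : S_ell.{u} := Pool.Agent.Y454.DT.ell
theorem p_str : S_str.{u} := Pool.Agent.Y925.DT.str p_val p_res

section mod

variable {E F : Type u} [Field E] [Field F] [Algebra E F] {V : ValuationSubring F}

/-- Models of extensions. -/
lemma mod_ext {A : Subring E} (hM : Mod (V.comap (algebraMap E F)) A) {U : Set F}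
    (hU : ∀ u ∈ U, u ∈ V)
    (hgen : ∀ z : F, z ∈ Subfield.closure (Set.range (algebraMap E F) ∪ U)) :
    Mod V (Subring.closure ((A.map (algebraMap E F) : Set F) ∪ U)) := by
  refine ⟨?_, fun z => ?_⟩
  · rw [Subring.closure_le]
    rintro z (⟨c, hc, rfl⟩ | hz)
    · exact hM.1 hc
    · exact hU z hz
  · have h1 : Subfield.closure (Set.range (algebraMap E F) ∪ U) ≤
        fr (Subring.closure ((A.map (algebraMap E F) : Set F) ∪ U)) := by
      rw [Subfield.closure_le]
      rintro z (⟨c, rfl⟩ | hz)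
      · obtain ⟨a, ha, d, hd, hd0, rfl⟩ := hM.2 c
        rw [map_mul, map_inv₀]
        exact mul_mem (le_fr _ (Subring.subset_closure (Or.inl ⟨a, ha, rfl⟩)))
          (inv_mem (le_fr _ (Subring.subset_closure (Or.inl ⟨d, hd, rfl⟩))))
      · exact le_fr _ (Subring.subset_closure (Or.inr hz))
    obtain ⟨d, hd, hd0, h⟩ := h1 (hgen z)
    exact ⟨z * d, h, d, hd, hd0, by rw [mul_assoc, mul_inv_cancel₀ hd0, mul_one]⟩

/-- The unramified step. -/
lemma key_unr (A : Subring E) (hM : Mod (V.comap (algebraMap E F)) A)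
    (hSU : SU (V.comap (algebraMap E F)) A) (η : F) (hη : ∀ z : F, ∃ f : E[X], aeval η f = z)
    {μ g h : E[X]} (hu : Unr V η μ g h) :
    ∃ U : Set F, U.Finite ∧
      Mod V (Subring.closure ((A.map (algebraMap E F) : Set F) ∪ U)) ∧
      SU V (Subring.closure ((A.map (algebraMap E F) : Set F) ∪ U)) := by
  obtain ⟨h1, h2⟩ := p_unr V A hM hSU η hη μ g h hu
  refine ⟨{η}, Set.finite_singleton _, mod_ext hM ?_ ?_, h2⟩
  · rintro u rfl
    exact h1
  · intro z
    obtain ⟨f, rfl⟩ := hη z
    have h3 : η ∈ Subfield.closure (Set.range (algebraMap E F) ∪ {η}) :=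
      Subfield.subset_closure (Or.inr rfl)
    rw [aeval_eq_sum_range]
    refine sum_mem fun i _ => ?_
    rw [Algebra.smul_def]
    exact mul_mem (Subfield.subset_closure (Or.inl ⟨_, rfl⟩)) (pow_mem h3 _)

/-- The trivial step. -/
lemma key_triv (A : Subring E) (hM : Mod (V.comap (algebraMap E F)) A)
    (hSU : SU (V.comap (algebraMap E F)) A) (hs : Function.Surjective (algebraMap E F)) :
    ∃ U : Set F, U.Finite ∧
      Mod V (Subring.closure ((A.map (algebraMap E F) : Set F) ∪ U)) ∧
      SU V (Subring.closure ((A.map (algebraMap E F) : Set F) ∪ U)) := by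
  obtain ⟨μ, g, h, hu⟩ := p_et (E := E) V (0 : F) X monic_X (fun i => by
    rw [coeff_X]
    split_ifs
    · rw [map_one]; exact V.one_mem
    · rw [map_zero]; exact V.zero_mem) (aeval_X _) (by
    rw [derivative_X, map_one, map_one])
  refine key_unr A hM hSU 0 (fun z => ?_) hu
  obtain ⟨a, rfl⟩ := hs z
  exact ⟨C a, aeval_C _ _⟩

/-- The transcendental step. -/
lemma key_tr (A : Subring E) (hM : Mod (V.comap (algebraMap E F)) A)
    (hSU : SU (V.comap (algebraMap E F)) A) (t : F) (ht : Transcendental E t)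
    (hgen : ∀ z : F, z ∈ Subfield.closure (Set.range (algebraMap E F) ∪ {t}))
    (hfr : ∀ z : F, ∃ f g : E[X], aeval t g ≠ 0 ∧ z * aeval t g = aeval t f)
    (hdom : ∀ f : E[X], ∃ a : E, ∀ j : ℕ, V.valuation (algebraMap E F ((taylor a f).coeff j) *
      (t - algebraMap E F a) ^ j) ≤ V.valuation (aeval t f)) :
    ∃ U : Set F, U.Finite ∧
      Mod V (Subring.closure ((A.map (algebraMap E F) : Set F) ∪ U)) ∧
      SU V (Subring.closure ((A.map (algebraMap E F) : Set F) ∪ U)) := by
  obtain ⟨w, hw, hwV, h2⟩ := p_tr V A hM hSU t ht hfr hdom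
  refine ⟨{w}, Set.finite_singleton _, mod_ext hM ?_ ?_, h2⟩
  · rintro u rfl
    exact hwV
  · have h1 : Subfield.closure (Set.range (algebraMap E F) ∪ {t}) ≤
        Subfield.closure (Set.range (algebraMap E F) ∪ {w}) := by
      rw [Subfield.closure_le]
      have h3 : w ∈ Subfield.closure (Set.range (algebraMap E F) ∪ {w}) :=
        Subfield.subset_closure (Or.inr rfl)
      rintro z (hz | rfl)
      · exact Subfield.subset_closure (Or.inl hz)
      · rcases hw with hw | hw
        · rw [← hw]; exact h3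
        · rw [hw] at h3 ⊢
          have h4 := inv_mem h3
          rwa [inv_inv] at h4
    exact fun z => h1 (hgen z)

/-- The defectless step. -/
lemma key_bas (A : Subring E) (hM : Mod (V.comap (algebraMap E F)) A)
    (hSU : SU (V.comap (algebraMap E F)) A) {n : ℕ} {β : Fin n → F} (hβ : Orth (E := E) V β) :
    ∃ U : Set F, U.Finite ∧
      Mod V (Subring.closure ((A.map (algebraMap E F) : Set F) ∪ U)) ∧
      SU V (Subring.closure ((A.map (algebraMap E F) : Set F) ∪ U)) := by
  obtain ⟨q, r, t, ee, b, ff, hS⟩ := p_str V n β hβ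
  exact ⟨Ug V t b, Ug_fin, bas_mod hM hS,
    bas p_fac p_ref p_ell p_ind p_adj p_alg p_map p_ext p_cut V A hM hSU hS⟩

end mod

section inv

variable {K : Type u} [Field K]

/-- The invariant of the tower. -/
def Inv (V : ValuationSubring K) (R : Subring K) {F : Type u} [Field F] (φ : F →+* K) : Prop :=
  (∀ z ∈ R, ∃ w, φ w = z) ∧ ∃ U : Set F, U.Finite ∧
    Mod (V.comap φ) (Subring.closure (φ ⁻¹' (R : Set K) ∪ U)) ∧
    SU (V.comap φ) (Subring.closure (φ ⁻¹' (R : Set K) ∪ U))

theorem Inv.step {V : ValuationSubring K} {R : Subring K} {F F' : Type u} [Field F] [Field F']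
    [Algebra F F'] {φ : F →+* K} {ψ : F' →+* K} (hψ : ψ.comp (algebraMap F F') = φ)
    (h : Inv V R φ)
    (key : ∀ A : Subring F, Mod ((V.comap ψ).comap (algebraMap F F')) A →
      SU ((V.comap ψ).comap (algebraMap F F')) A → ∃ U : Set F', U.Finite ∧
      Mod (V.comap ψ) (Subring.closure ((A.map (algebraMap F F') : Set F') ∪ U)) ∧
      SU (V.comap ψ) (Subring.closure ((A.map (algebraMap F F') : Set F') ∪ U))) :
    Inv V R ψ := by
  obtain ⟨hR, U, hU, hM, hSU⟩ := h
  have hV : (V.comap ψ).comap (algebraMap F F') = V.comap φ := by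
    rw [← hψ]
    rfl
  rw [← hV] at hM hSU
  obtain ⟨U', hU', hM', hSU'⟩ := key _ hM hSU
  have hpre : algebraMap F F' '' (φ ⁻¹' (R : Set K)) = ψ ⁻¹' (R : Set K) := by
    ext z
    constructor
    · rintro ⟨w, hw, rfl⟩
      rw [← hψ] at hw
      exact hw
    · intro hz
      obtain ⟨w, hw⟩ := hR _ hz
      have h1 : algebraMap F F' w = z := by
        apply ψ.injective
        rw [← hw, ← hψ]
        rfl
      exact ⟨w, by rw [Set.mem_preimage, hw]; exact hz, h1⟩
  have hcl : Subring.closure (((Subring.closure (φ ⁻¹' (R : Set K) ∪ U)).map (algebraMap F F') :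
      Set F') ∪ U') = Subring.closure (ψ ⁻¹' (R : Set K) ∪ (algebraMap F F' '' U ∪ U')) := by
    rw [RingHom.map_closure, Set.image_union, hpre, ← Set.union_assoc]
    apply le_antisymm
    · rw [Subring.closure_le]
      rintro z (hz | hz)
      · exact Subring.closure_mono Set.subset_union_left hz
      · exact Subring.subset_closure (Or.inr hz)
    · rw [Subring.closure_le]
      rintro z (hz | hz)
      · exact Subring.subset_closure (Or.inl (Subring.subset_closure hz))
      · exact Subring.subset_closure (Or.inr hz)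
  rw [hcl] at hM' hSU'
  refine ⟨fun z hz => ?_, _, (hU.image _).union hU', hM', hSU'⟩
  obtain ⟨w, hw⟩ := hR z hz
  refine ⟨algebraMap F F' w, ?_⟩
  rw [← hw, ← hψ]
  rfl

end inv

end Pool.Agent.H176.DT
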