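import Pool.Agent.H176.DT.B1

/-!
# Positive bases of the group of values
-/

set_option autoImplicit false
set_option linter.unusedVariables false
set_option linter.unusedSectionVars false

universe u

namespace Pool.Agent.H176.DT

open Pool.Agent.W418.LU2 IsLocalRing

lemma card_le_of_scaled {Γ : Type u} [AddCommGroup Γ] {ι κ : Type} [Fintype ι] [Fintype κ]
    (v : ι → Γ) (w : κ → Γ) (hv : LinearIndependent ℤ v)
    (h : ∀ i, ∃ N : ℤ, N ≠ 0 ∧ N • v i ∈ Submodule.span ℤ (Set.range w)) :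
    Fintype.card ι ≤ Fintype.card κ := by
  classical
  choose N hN0 hN using h
  have hfin : Module.Finite ℤ (Submodule.span ℤ (Set.range w)) :=
    Module.Finite.span_of_finite ℤ (Set.finite_range w)
  have h1 : LinearIndependent ℤ
      (fun i => (⟨N i • v i, hN i⟩ : Submodule.span ℤ (Set.range w))) := by
    rw [Fintype.linearIndependent_iff]
    intro g hg i
    have h2 : ∑ i, (g i * N i) • v i = 0 := by
      have h3 := congrArg Subtype.val hg
      rw [AddSubmonoidClass.coe_finsetSum] at h3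
      simpa [mul_smul] using h3
    have h3 := (Fintype.linearIndependent_iff.1 hv) (fun i => g i * N i) h2 i
    rcases mul_eq_zero.1 h3 with h4 | h4
    · exact h4
    · exact absurd h4 (hN0 i)
  have h2 := h1.fintype_card_le_finrank
  have h3 := finrank_range_le_card (R := ℤ) w
  exact h2.trans h3

section perron

variable {E F : Type u} [Field E] [Field F] [Algebra E F] {V : ValuationSubring F} {q s : ℕ}
  {t : Fin q → F} {ee : Fin q → ℕ} {x : Fin s → E} (hx0 : ∀ i, x i ≠ 0) (ht0 : ∀ i, t i ≠ 0)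

/-- The values of the monomials. -/
noncomputable def WW (V : ValuationSubring F) {x : Fin s → E} {t : Fin q → F}
    (hx0 : ∀ i, x i ≠ 0) (ht0 : ∀ i, t i ≠ 0) :
    ((Fin s → ℤ) × (Fin q → ℤ)) →+ Additive (V.ValueGroup)ˣ where
  toFun p := Additive.ofMul (Units.mk0 (V.valuation (MM x t p.1 p.2))
    ((map_ne_zero _).2 (MM_ne hx0 ht0 p.1 p.2)))⁻¹
  map_zero' := by
    have h1 : Units.mk0 (V.valuation (MM x t 0 0))
        ((map_ne_zero _).2 (MM_ne hx0 ht0 0 0)) = 1 := by
      apply Units.ext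
      rw [Units.val_mk0, MM_zero, map_one, Units.val_one]
    change Additive.ofMul (Units.mk0 (V.valuation (MM x t 0 0))
        ((map_ne_zero _).2 (MM_ne hx0 ht0 0 0)))⁻¹ = 0
    rw [h1, inv_one]
    rfl
  map_add' p p' := by
    have h1 : Units.mk0 (V.valuation (MM x t (p.1 + p'.1) (p.2 + p'.2)))
        ((map_ne_zero _).2 (MM_ne hx0 ht0 _ _)) =
        Units.mk0 (V.valuation (MM x t p.1 p.2)) ((map_ne_zero _).2 (MM_ne hx0 ht0 _ _)) *
        Units.mk0 (V.valuation (MM x t p'.1 p'.2)) ((map_ne_zero _).2 (MM_ne hx0 ht0 _ _)) := by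
      apply Units.ext
      rw [Units.val_mul, Units.val_mk0, Units.val_mk0, Units.val_mk0, MM_add hx0 ht0, map_mul]
    change Additive.ofMul (Units.mk0 (V.valuation (MM x t (p.1 + p'.1) (p.2 + p'.2)))
        ((map_ne_zero _).2 (MM_ne hx0 ht0 _ _)))⁻¹ = _
    rw [h1, mul_inv]
    rfl

lemma WW_pos (p : (Fin s → ℤ) × (Fin q → ℤ)) :
    0 < WW V hx0 ht0 p ↔ V.valuation (MM x t p.1 p.2) < 1 := by
  change (1 : (V.ValueGroup)ˣ) < (Units.mk0 (V.valuation (MM x t p.1 p.2)) _)⁻¹ ↔ _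
  rw [one_lt_inv', ← Units.val_lt_val, Units.val_mk0, Units.val_one]

lemma WW_zero (p : (Fin s → ℤ) × (Fin q → ℤ)) :
    WW V hx0 ht0 p = 0 ↔ V.valuation (MM x t p.1 p.2) = 1 := by
  change (Units.mk0 (V.valuation (MM x t p.1 p.2)) _)⁻¹ = (1 : (V.ValueGroup)ˣ) ↔ _
  rw [inv_eq_one, Units.ext_iff, Units.val_mk0, Units.val_one]

lemma WW_eq (p p' : (Fin s → ℤ) × (Fin q → ℤ)) :
    WW V hx0 ht0 p = WW V hx0 ht0 p' ↔
      V.valuation (MM x t p.1 p.2) = V.valuation (MM x t p'.1 p'.2) := by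
  change (Units.mk0 (V.valuation (MM x t p.1 p.2)) _)⁻¹ =
    ((Units.mk0 (V.valuation (MM x t p'.1 p'.2)) _)⁻¹ : (V.ValueGroup)ˣ) ↔ _
  rw [inv_inj, Units.ext_iff, Units.val_mk0, Units.val_mk0]

include hx0 ht0 in
theorem perron (hell : S_ell.{u})
    (hxi : ∀ δ : Fin s → ℤ, V.valuation (algebraMap E F (mo x δ)) = 1 → δ = 0)
    (he0 : ∀ i, 0 < ee i) {γ : Fin q → Fin s → ℤ} {m₀ : Fin q → Fin q → ℤ}
    (hm₀ : ∀ i j, i ≤ j → m₀ i j = 0)
    (hrel : ∀ i, V.valuation (t i ^ ee i) = V.valuation (MM x t (γ i) (m₀ i)))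
    (K : Finset ((Fin s → ℤ) × (Fin q → ℤ)))
    (hK : ∀ k ∈ K, V.valuation (MM x t k.1 k.2) < 1)
    (hKx : ∀ i, ((Pi.single i 1 : Fin s → ℤ), (0 : Fin q → ℤ)) ∈ K) :
    ∃ (L : Fin s → Fin s → ℤ) (M : Fin s → Fin q → ℤ),
      (∀ j, V.valuation (MM x t (L j) (M j)) < 1) ∧
      ∀ k ∈ K, ∃ n : Fin s → ℕ, V.valuation (MM x t k.1 k.2) =
        V.valuation (mo (fun j => MM x t (L j) (M j)) fun j => (n j : ℤ)) := by
  classical
  set W := WW V hx0 ht0 with hW
  obtain ⟨s', η, hη0, hηi, hηc, hηn⟩ := hell (K.image W) (by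
    intro d hd
    obtain ⟨k, hk, rfl⟩ := Finset.mem_image.1 hd
    rw [hW, WW_pos]
    exact hK k hk)
  have hηW : ∀ j, ∃ p, W p = η j := by
    intro j
    have h1 : AddSubgroup.closure ((K.image W : Finset _) : Set (Additive (V.ValueGroup)ˣ)) ≤
        W.range := by
      rw [AddSubgroup.closure_le]
      intro d hd
      obtain ⟨k, hk, rfl⟩ := Finset.mem_image.1 (Finset.mem_coe.1 hd)
      exact ⟨k, rfl⟩
    exact h1 (hηc j)
  -- the ranks
  let vx : Fin s → Additive (V.ValueGroup)ˣ := fun i => W (Pi.single i 1, 0)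
  have hsum : ∀ (g : Fin s → ℤ), ∑ i, g i • vx i = W (g, 0) := by
    intro g
    have h1 : ((g, 0) : (Fin s → ℤ) × (Fin q → ℤ)) =
        ∑ i, g i • ((Pi.single i 1, 0) : (Fin s → ℤ) × (Fin q → ℤ)) := by
      refine Prod.ext ?_ ?_
      · rw [Prod.fst_sum]
        simp only [Prod.smul_fst]
        exact pi_eq_sum_univ' g
      · rw [Prod.snd_sum]
        simp
    rw [h1, map_sum]
    exact Finset.sum_congr rfl fun i _ => (map_zsmul W _ _).symm
  have hvx : LinearIndependent ℤ vx := by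
    rw [Fintype.linearIndependent_iff]
    intro g hg i
    rw [hsum, hW, WW_zero] at hg
    have h1 : MM x t g 0 = algebraMap E F (mo x g) := by
      unfold MM
      rw [mo_zero, mul_one]
    rw [h1] at hg
    rw [hxi g hg]
    rfl
  have hle1 : s ≤ s' := by
    have := card_le_of_scaled vx η hvx (fun i => by
      obtain ⟨n, hn⟩ := hηn (vx i) (Finset.mem_image.2 ⟨_, hKx i, rfl⟩)
      refine ⟨1, one_ne_zero, ?_⟩
      rw [one_smul, hn]
      refine Submodule.sum_mem _ fun j _ => ?_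
      rw [← natCast_zsmul]
      exact Submodule.smul_mem _ _ (Submodule.subset_span ⟨j, rfl⟩))
    simpa using this
  -- the isolator
  let T : AddSubgroup (Additive (V.ValueGroup)ˣ) :=
    { carrier := {g | ∃ N : ℤ, N ≠ 0 ∧ N • g ∈ Submodule.span ℤ (Set.range vx)}
      zero_mem' := ⟨1, one_ne_zero, by rw [smul_zero]; exact Submodule.zero_mem _⟩
      add_mem' := by
        rintro g g' ⟨N, hN, h⟩ ⟨N', hN', h'⟩
        refine ⟨N * N', mul_ne_zero hN hN', ?_⟩
        have h1 : (N * N') • (g + g') = N' • (N • g) + N • (N' • g') := by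
          rw [smul_add, mul_smul, mul_smul, smul_comm N N' g]
        rw [h1]
        exact Submodule.add_mem _ (Submodule.smul_mem _ _ h) (Submodule.smul_mem _ _ h')
      neg_mem' := by
        rintro g ⟨N, hN, h⟩
        refine ⟨N, hN, ?_⟩
        rw [smul_neg]
        exact Submodule.neg_mem _ h }
  have hTdiv : ∀ (N : ℤ) (g : Additive (V.ValueGroup)ˣ), N ≠ 0 → N • g ∈ T → g ∈ T := by
    rintro N g hN ⟨N', hN', h⟩
    exact ⟨N' * N, mul_ne_zero hN' hN, by rw [mul_smul]; exact h⟩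
  have hTx : ∀ g : Fin s → ℤ, W (g, 0) ∈ T := by
    intro g
    refine ⟨1, one_ne_zero, ?_⟩
    rw [one_smul, ← hsum]
    exact Submodule.sum_mem _ fun i _ => Submodule.smul_mem _ _ (Submodule.subset_span ⟨i, rfl⟩)
  have hsumt : ∀ (m : Fin q → ℤ), W (0, m) = ∑ i, m i • W (0, Pi.single i 1) := by
    intro m
    have h1 : ((0, m) : (Fin s → ℤ) × (Fin q → ℤ)) =
        ∑ i, m i • ((0, Pi.single i 1) : (Fin s → ℤ) × (Fin q → ℤ)) := by
      refine Prod.ext ?_ ?_
      · rw [Prod.fst_sum]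
        simp
      · rw [Prod.snd_sum]
        simp only [Prod.smul_snd]
        exact pi_eq_sum_univ' m
    rw [h1, map_sum]
    exact Finset.sum_congr rfl fun i _ => map_zsmul W _ _
  have hTt : ∀ (n : ℕ) (i : Fin q), (i : ℕ) = n → W (0, Pi.single i 1) ∈ T := by
    intro n
    induction n using Nat.strong_induction_on with
    | _ n ih =>
      intro i hi
      apply hTdiv (ee i) _ (by have := he0 i; omega)
      have h1 : (ee i : ℤ) • W (0, Pi.single i 1) = W (γ i, m₀ i) := by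
        rw [← map_zsmul, hW, WW_eq]
        change V.valuation (MM x t ((ee i : ℤ) • 0) ((ee i : ℤ) • Pi.single i 1)) = _
        rw [MM_zsmul hx0 ht0, zpow_natCast]
        have h2 : MM x t 0 (Pi.single i 1) = t i := by
          unfold MM
          rw [mo_zero, map_one, one_mul, mo_single]
        rw [h2]
        exact hrel i
      have h2 : ((γ i, m₀ i) : (Fin s → ℤ) × (Fin q → ℤ)) = (γ i, 0) + (0, m₀ i) := by simp
      rw [h1, h2, map_add]
      refine T.add_mem (hTx _) ?_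
      rw [hsumt]
      refine T.sum_mem fun j _ => ?_
      by_cases hj : i ≤ j
      · rw [hm₀ i j hj, zero_smul]
        exact T.zero_mem
      · exact T.zsmul_mem (ih (j : ℕ) (by
          rw [← hi]
          exact not_le.1 hj) j rfl) _
  have hT : ∀ p, W p ∈ T := by
    intro p
    have h2 : p = (p.1, 0) + (0, p.2) := by simp
    rw [h2, map_add]
    refine T.add_mem (hTx _) ?_
    rw [hsumt]
    exact T.sum_mem fun j _ => T.zsmul_mem (hTt _ j rfl) _
  have hle2 : s' ≤ s := by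
    have := card_le_of_scaled η vx hηi (fun j => by
      obtain ⟨p, hp⟩ := hηW j
      obtain ⟨N, hN, h⟩ := hT p
      exact ⟨N, hN, by rw [← hp]; exact h⟩)
    simpa using this
  have hss : s' = s := le_antisymm hle2 hle1
  subst hss
  choose p hp using hηW
  refine ⟨fun j => (p j).1, fun j => (p j).2, ?_, ?_⟩
  · intro j
    rw [← WW_pos hx0 ht0, ← hW, hp]
    exact hη0 j
  · intro k hk
    obtain ⟨n, hn⟩ := hηn (W k) (Finset.mem_image.2 ⟨k, hk, rfl⟩)
    refine ⟨n, ?_⟩
    rw [MM_mo hx0 ht0]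
    have h1 : W k = W (∑ j, (n j : ℤ) • (p j).1, ∑ j, (n j : ℤ) • (p j).2) := by
      have h2 : ((∑ j, (n j : ℤ) • (p j).1, ∑ j, (n j : ℤ) • (p j).2) :
          (Fin s' → ℤ) × (Fin q → ℤ)) = ∑ j, (n j : ℤ) • p j := by
        refine Prod.ext ?_ ?_
        · rw [Prod.fst_sum]; rfl
        · rw [Prod.snd_sum]; rfl
      rw [h2, map_sum, hn]
      refine Finset.sum_congr rfl fun j _ => ?_
      rw [map_zsmul, hp, natCast_zsmul]
    exact (WW_eq hx0 ht0 _ _).1 h1

end perron

end Pool.Agent.H176.DT
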