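import Pool.Agent.H176.DT.B2
import Pool.Agent.H176.DT.B3

/-!
# Lifting elements of a defectless extension
-/

set_option autoImplicit false
set_option linter.unusedVariables false
set_option linter.unusedSectionVars false

universe u

namespace Pool.Agent.H176.DT

open Pool.Agent.W418.LU2 IsLocalRing

/-- The element lies in the ideal. -/
def InJ {F : Type u} [Field F] {P : Subring F} (J : Ideal P) (v : F) : Prop :=
  ∃ h : v ∈ P, (⟨v, h⟩ : P) ∈ J

section inj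

variable {F : Type u} [Field F] {P : Subring F} {J : Ideal P}

lemma InJ.mem {v : F} (h : InJ J v) : v ∈ P := h.1

lemma InJ.zero : InJ J (0 : F) := ⟨P.zero_mem, J.zero_mem⟩

lemma InJ.add {v w : F} (hv : InJ J v) (hw : InJ J w) : InJ J (v + w) :=
  ⟨P.add_mem hv.1 hw.1, J.add_mem hv.2 hw.2⟩

lemma InJ.neg {v : F} (hv : InJ J v) : InJ J (-v) :=
  ⟨P.neg_mem hv.1, (Ideal.neg_mem_iff J).2 hv.2⟩

lemma InJ.sub {v w : F} (hv : InJ J v) (hw : InJ J w) : InJ J (v - w) :=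
  ⟨P.sub_mem hv.1 hw.1, J.sub_mem hv.2 hw.2⟩

lemma InJ.mul {c v : F} (hc : c ∈ P) (hv : InJ J v) : InJ J (c * v) :=
  ⟨P.mul_mem hc hv.1, J.mul_mem_left ⟨c, hc⟩ hv.2⟩

lemma InJ.mono {J' : Ideal P} (h : J ≤ J') {v : F} (hv : InJ J v) : InJ J' v := ⟨hv.1, h hv.2⟩

lemma InJ.sum {κ : Type} (s : Finset κ) {v : κ → F} (h : ∀ i ∈ s, InJ J (v i)) :
    InJ J (∑ i ∈ s, v i) := by
  classical
  induction s using Finset.induction_on with
  | empty => exact InJ.zero
  | insert a s ha ih =>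
    rw [Finset.sum_insert ha]
    exact (h a (Finset.mem_insert_self _ _)).add (ih fun i hi => h i (Finset.mem_insert_of_mem hi))

end inj

section lift

variable {E F : Type u} [Field E] [Field F] [Algebra E F] {V : ValuationSubring F} {q r s : ℕ}
  {t : Fin q → F} {ee : Fin q → ℕ} {b : Fin r → F} {ff : Fin r → ℕ}
  {x : Fin s → E} {τ : Fin q → F} {Y : Fin s → F}

/-- The variables. -/
abbrev TT (r q s : ℕ) : Type := Fin r ⊕ (Fin q ⊕ Fin s)

/-- The values of the variables. -/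
abbrev yy (b : Fin r → F) (τ : Fin q → F) (Y : Fin s → F) : TT r q s → F :=
  Sum.elim b (Sum.elim τ Y)

/-- The values of polynomials. -/
lemma Pr_aeval {Θ : Type} [Fintype Θ] (y : Θ → F) {r : ℕ} (g : Fin r → Θ)
    (h : MvPolynomial (Fin r) E) :
    Pr (ph (E := E) y) (MvPolynomial.aeval (fun i => Zc E (g i)) h : FF E Θ)
      (MvPolynomial.aeval (fun i => y (g i)) h) := by
  induction h using MvPolynomial.induction_on with
  | C a =>
    rw [MvPolynomial.aeval_C, MvPolynomial.aeval_C, ← emb_alg]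
    exact Pr_emb y a
  | add p q hp hq => rw [map_add, map_add]; exact hp.add hq
  | mul_X p i hp =>
    rw [map_mul, map_mul, MvPolynomial.aeval_X, MvPolynomial.aeval_X]
    exact hp.mul (Pr_Z y _)

/-- The polynomials with coefficients in the local ring. -/
lemma aeval_mem {Θ : Type} [Fintype Θ] {P : Subring (FF E Θ)} {r : ℕ} (g : Fin r → Θ)
    (S : Set (Fin r)) (hg : ∀ i ∈ S, Zc E (g i) ∈ P) (h : MvPolynomial (Fin r) E)
    (hS : h ∈ MvPolynomial.supported E S) (hc : ∀ m, emb E Θ (h.coeff m) ∈ P) :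
    (MvPolynomial.aeval (fun i => Zc E (g i)) h : FF E Θ) ∈ P := by
  rw [MvPolynomial.aeval_def, MvPolynomial.eval₂_eq']
  refine P.sum_mem fun d hd => P.mul_mem ?_ (P.prod_mem fun i _ => ?_)
  · rw [← emb_alg]
    exact hc d
  · by_cases hi : d i = 0
    · rw [hi, pow_zero]
      exact P.one_mem
    · refine P.pow_mem (hg i ?_) _
      rw [MvPolynomial.mem_supported] at hS
      apply hS
      rw [Finset.mem_coe, MvPolynomial.mem_vars_iff_mem_support]
      exact ⟨d, hd, by rwa [Finsupp.mem_support_iff]⟩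

variable {C : Subring E}

lemma emb_mem_lo {Θ : Type} [Fintype Θ] {y : Θ → F} {a : E}
    (ha : a ∈ lo (V.comap (algebraMap E F)).toSubring C) (W : Set (FF E Θ)) :
    emb E Θ a ∈ lo (AT E y V) (Subring.closure ((C.map (emb E Θ) : Set (FF E Θ)) ∪ W)) := by
  have h4 : emb E Θ a ∈ lo (AT E y V) (C.map (emb E Θ)) := by
    rw [lo_map (emb E Θ) (emb_mem (y := y) V)]
    exact ⟨a, ha, rfl⟩
  exact lo_mono (fun z hz => Subring.subset_closure (Or.inl hz)) h4

variable (hτ1 : ∀ i, V.valuation (τ i) = 1) (hY1 : ∀ j, V.valuation (Y j) < 1)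
  (hY0 : ∀ j, Y j ≠ 0) (hb1 : ∀ j, V.valuation (b j) = 1)
  (hC : C ≤ (V.comap (algebraMap E F)).toSubring)

include hτ1 hY1 hb1

lemma yy_mem (θ : TT r q s) : yy b τ Y θ ∈ V := by
  rcases θ with j | i | j
  · exact (V.valuation_le_one_iff _).1 (hb1 j).le
  · exact (V.valuation_le_one_iff _).1 (hτ1 i).le
  · exact (V.valuation_le_one_iff _).1 (hY1 j).le

include hC

lemma RZ_le : Subring.closure ((C.map (emb E (TT r q s)) : Set (FF E (TT r q s))) ∪
    Set.range (Zc E)) ≤ AT E (yy b τ Y) V := by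
  rw [Subring.closure_le]
  rintro z (⟨e, he, rfl⟩ | ⟨θ, rfl⟩)
  · exact (emb_mem V e).2 (hC he)
  · exact (Pr_Z (E := E) (yy b τ Y) θ).mem_AA.2 (yy_mem hτ1 hY1 hb1 θ)

omit hτ1 hY1 hb1 hC in
lemma Z_mem (θ : TT r q s) : Zc E θ ∈ RZ C (yy b τ Y) V :=
  le_lo _ _ (Subring.subset_closure (Or.inr ⟨θ, rfl⟩))

lemma Zt_inv (i : Fin q) : (Zc E (Sum.inr (Sum.inl i) : TT r q s))⁻¹ ∈ RZ C (yy b τ Y) V := by
  have hle := RZ_le (E := E) (C := C) (V := V) (b := b) (τ := τ) (Y := Y) hτ1 hY1 hb1 hC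
  have hz : (Zc E (Sum.inr (Sum.inl i) : TT r q s)) ∈ RZ C (yy b τ Y) V := Z_mem _
  have hz0 : (Zc E (Sum.inr (Sum.inl i) : TT r q s)) ≠ 0 := Zc_ne _
  refine inv_mem_lo hle hz hz0 ?_
  have h0 : τ i ≠ 0 := fun h => by
    have := hτ1 i
    rw [h, map_zero] at this
    exact zero_ne_one this
  refine ⟨(τ i)⁻¹, ?_, (Pr_Z (E := E) (yy b τ Y) (Sum.inr (Sum.inl i))).inv h0⟩
  rw [← V.valuation_le_one_iff, map_inv₀, hτ1, inv_one]

lemma Zt_mo (κ : Fin q → ℤ) :
    mo (fun i => Zc E (Sum.inr (Sum.inl i) : TT r q s)) κ ∈ RZ C (yy b τ Y) V := by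
  refine Subring.prod_mem _ fun i _ => ?_
  rcases Int.eq_nat_or_neg (κ i) with ⟨n, h3 | h3⟩
  · rw [h3, zpow_natCast]; exact Subring.pow_mem _ (Z_mem _) n
  · rw [h3, zpow_neg, zpow_natCast, ← inv_pow]
    exact Subring.pow_mem _ (Zt_inv hτ1 hY1 hb1 hC i) n

omit hτ1 hY1 hb1 hC in
/-- The ideal generated by the coordinates. -/
noncomputable def JY (C : Subring E) (b : Fin r → F) (τ : Fin q → F) (Y : Fin s → F)
    (V : ValuationSubring F) : Ideal (RZ C (yy b τ Y) V) :=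
  Ideal.span (Set.range fun j : Fin s =>
    (⟨Zc E (Sum.inr (Sum.inr j)), Z_mem _⟩ : RZ C (yy b τ Y) V))

omit hτ1 hY1 hb1 hC in
lemma mo_JY {n : Fin s → ℕ} (hn : n ≠ 0) : InJ (JY C b τ Y V)
    (mo (fun j => Zc E (Sum.inr (Sum.inr j) : TT r q s)) fun j => (n j : ℤ)) := by
  classical
  obtain ⟨j, hj⟩ := Function.ne_iff.1 hn
  have h1 : mo (fun j => Zc E (Sum.inr (Sum.inr j) : TT r q s)) (fun j => (n j : ℤ)) =
      (Zc E (Sum.inr (Sum.inr j) : TT r q s) ^ (n j - 1) *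
        ∏ i ∈ Finset.univ.erase j, Zc E (Sum.inr (Sum.inr i) : TT r q s) ^ n i) *
      Zc E (Sum.inr (Sum.inr j)) := by
    unfold mo
    simp only [zpow_natCast]
    rw [← Finset.mul_prod_erase _ _ (Finset.mem_univ j)]
    obtain ⟨k, hk⟩ := Nat.exists_eq_succ_of_ne_zero hj
    rw [hk, Nat.succ_sub_one, pow_succ]
    ring
  rw [h1]
  refine InJ.mul ?_ ⟨Z_mem _, Ideal.subset_span ⟨j, rfl⟩⟩
  exact Subring.mul_mem _ (Subring.pow_mem _ (Z_mem _) _)
    (Subring.prod_mem _ fun i _ => Subring.pow_mem _ (Z_mem _) _)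

end lift

end Pool.Agent.H176.DT
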