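import Pool.Agent.H176.DT.B4

/-!
# Lifting elements of a defectless extension, continued
-/

set_option autoImplicit false
set_option linter.unusedVariables false
set_option linter.unusedSectionVars false

universe u

namespace Pool.Agent.H176.DT

open Pool.Agent.W418.LU2 IsLocalRing

/-- Subfamilies. -/
theorem RegP_comp {F : Type u} [Field F] {A P : Subring F} {ι κ : Type} [Fintype ι] [Fintype κ]
    {x : ι → F} (h : RegP A P x) (f : κ → ι) (hf : Function.Injective f) :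
    RegP A P (fun k => x (f k)) := by
  classical
  have hreg := h.reg
  refine ⟨h.PA, fun k => h.ne _, fun k => h.mem _, h.reg, h.inv, ?_⟩
  intro c hc hs k
  have h1 := h.ind (Function.extend f c 0) (by
    intro i hi
    by_cases h2 : ∃ k, f k = i
    · obtain ⟨k, rfl⟩ := h2
      rw [hf.extend_apply]
      exact hc k hi
    · rw [Function.extend_apply' _ _ _ h2]
      rfl) (by
    have h3 : ∑ i, Function.extend f c 0 i * (⟨x i, h.mem i⟩ : P) =
        ∑ k, c k * (⟨x (f k), h.mem (f k)⟩ : P) := by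
      rw [← Finset.sum_subset (Finset.subset_univ (Finset.univ.map ⟨f, hf⟩))]
      · rw [Finset.sum_map]
        refine Finset.sum_congr rfl fun k _ => ?_
        simp only [Function.Embedding.coeFn_mk]
        rw [hf.extend_apply]
      · intro i _ hi
        have h4 : ¬ ∃ k, f k = i := fun ⟨k, hk⟩ => hi (Finset.mem_map.2
          ⟨k, Finset.mem_univ _, hk⟩)
        rw [Function.extend_apply' _ _ _ h4]
        exact zero_mul _
    rw [h3]
    exact hs) (f k)
  rwa [hf.extend_apply] at h1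

section down

variable {E F : Type u} [Field E] [Field F] [Algebra E F] {Θ : Type} [Fintype Θ] {y : Θ → F}
  {V : ValuationSubring F} {C : Subring E}

lemma closure_down (hC : C ≤ (V.comap (algebraMap E F)).toSubring) {s : FF E Θ}
    (hs : s ∈ Subring.closure ((C.map (emb E Θ) : Set (FF E Θ)) ∪ Set.range (Zc E))) :
    ∃ w ∈ Subring.closure ((C.map (algebraMap E F) : Set F) ∪ Set.range y),
      Pr (ph (E := E) y) s w := by
  induction hs using Subring.closure_induction with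
  | mem s hs =>
    rcases hs with ⟨c, hc, rfl⟩ | ⟨θ, rfl⟩
    · exact ⟨_, Subring.subset_closure (Or.inl ⟨c, hc, rfl⟩), Pr_emb y c⟩
    · exact ⟨_, Subring.subset_closure (Or.inr ⟨θ, rfl⟩), Pr_Z y θ⟩
  | zero => exact ⟨0, Subring.zero_mem _, Pr.zero⟩
  | one => exact ⟨1, Subring.one_mem _, Pr.one⟩
  | add a b _ _ ha hb =>
    obtain ⟨s, hs, h⟩ := ha
    obtain ⟨s', hs', h'⟩ := hb
    exact ⟨_, Subring.add_mem _ hs hs', h.add h'⟩
  | neg a _ ha =>
    obtain ⟨s, hs, h⟩ := ha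
    exact ⟨_, Subring.neg_mem _ hs, h.neg⟩
  | mul a b _ _ ha hb =>
    obtain ⟨s, hs, h⟩ := ha
    obtain ⟨s', hs', h'⟩ := hb
    exact ⟨_, Subring.mul_mem _ hs hs', h.mul h'⟩

/-- The values of the elements of the local ring. -/
lemma RZ_down (hC : C ≤ (V.comap (algebraMap E F)).toSubring) {v : FF E Θ} (hv : v ∈ RZ C y V)
    {w : F} (h : Pr (ph (E := E) y) v w) :
    w ∈ lo V.toSubring (Subring.closure ((C.map (algebraMap E F) : Set F) ∪ Set.range y)) := by
  obtain ⟨a, ha, b, hb, hb0, ⟨wi, hwi, hbi⟩, rfl⟩ := hv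
  obtain ⟨wa, hwa, hpa⟩ := closure_down (y := y) hC ha
  obtain ⟨wb, hwb, hpb⟩ := closure_down (y := y) hC hb
  have h1 : wb * wi = 1 := by
    have h2 := hpb.mul hbi
    rw [mul_inv_cancel₀ hb0] at h2
    exact h2.unique Pr.one
  have hwb0 : wb ≠ 0 := left_ne_zero_of_mul_eq_one h1
  have h2 : wi = wb⁻¹ := eq_inv_of_mul_eq_one_right h1
  refine ⟨wa, hwa, wb, hwb, hwb0, ?_, ?_⟩
  · rw [← h2]; exact hwi
  · rw [← h2]
    exact h.unique (hpa.mul hbi)

/-- The field generated by the values of the variables. -/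
lemma hfr_of {L : Subfield F} (hL : L = ⊤) (hE : ∀ a : E, algebraMap E F a ∈ L)
    (hLe : L ≤ Subfield.closure (Set.range (algebraMap E F) ∪ Set.range y)) (z : F) :
    ∃ a b : MvPolynomial Θ E, ph (E := E) y b ≠ 0 ∧ z * ph (E := E) y b = ph (E := E) y a := by
  have hone : ph (E := E) y 1 ≠ 0 := by
    rw [map_one]
    exact one_ne_zero
  have h3 : ∀ z ∈ Subfield.closure (Set.range (algebraMap E F) ∪ Set.range y),
      ∃ a b : MvPolynomial Θ E, ph (E := E) y b ≠ 0 ∧
        z * ph (E := E) y b = ph (E := E) y a := by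
    intro z hz
    induction hz using Subfield.closure_induction with
    | mem z hz =>
      rcases hz with ⟨a, rfl⟩ | ⟨θ, rfl⟩
      · refine ⟨MvPolynomial.C a, 1, hone, ?_⟩
        rw [map_one, mul_one]
        exact (MvPolynomial.aeval_C _ _).symm
      · refine ⟨MvPolynomial.X θ, 1, hone, ?_⟩
        rw [map_one, mul_one]
        exact (MvPolynomial.aeval_X _ _).symm
    | one => exact ⟨1, 1, hone, by rw [one_mul]⟩
    | add y z _ _ hy hz =>
      obtain ⟨a, b, hb, h4⟩ := hy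
      obtain ⟨a', b', hb', h5⟩ := hz
      refine ⟨a * b' + a' * b, b * b', by rw [map_mul]; exact mul_ne_zero hb hb', ?_⟩
      rw [map_add, map_mul, map_mul, map_mul, ← h4, ← h5]
      ring
    | neg y _ hy =>
      obtain ⟨a, b, hb, h4⟩ := hy
      exact ⟨-a, b, hb, by rw [map_neg, ← h4]; ring⟩
    | mul y z _ _ hy hz =>
      obtain ⟨a, b, hb, h4⟩ := hy
      obtain ⟨a', b', hb', h5⟩ := hz
      refine ⟨a * a', b * b', by rw [map_mul]; exact mul_ne_zero hb hb', ?_⟩
      rw [map_mul, map_mul, ← h4, ← h5]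
      ring
    | inv y _ hy =>
      obtain ⟨a, b, hb, h4⟩ := hy
      by_cases h5 : y = 0
      · refine ⟨0, 1, hone, ?_⟩
        rw [h5, inv_zero, zero_mul, map_zero]
      · refine ⟨b, a, ?_, ?_⟩
        · rw [← h4]
          exact mul_ne_zero h5 hb
        · rw [← h4, inv_mul_cancel_left₀ h5]
  exact h3 z (hLe (by rw [hL]; trivial))

end down

section lift

variable {E F : Type u} [Field E] [Field F] [Algebra E F] {V : ValuationSubring F} {q r s : ℕ}
  {t : Fin q → F} {ee : Fin q → ℕ} {b : Fin r → F} {ff : Fin r → ℕ}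
  {x : Fin s → E} {τ : Fin q → F} {Y : Fin s → F} {C : Subring E}
  (hτ1 : ∀ i, V.valuation (τ i) = 1) (hY1 : ∀ j, V.valuation (Y j) < 1)
  (hY0 : ∀ j, Y j ≠ 0) (hb1 : ∀ j, V.valuation (b j) = 1)
  (hC : C ≤ (V.comap (algebraMap E F)).toSubring)
  {K : Finset ((Fin s → ℤ) × (Fin q → ℤ))}
  (hK : ∀ k ∈ K, ∃ (n : Fin s → ℕ) (κ : Fin q → ℤ), n ≠ 0 ∧
    MM x t k.1 k.2 = mo Y (fun j => (n j : ℤ)) * mo τ κ)
  (hK1 : ∀ k ∈ K, V.valuation (MM x t k.1 k.2) < 1)

/-- The part of a lift with residue different from zero. -/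
noncomputable def Z0 (V : ValuationSubring F) (t : Fin q → F) (s : ℕ)
    (c : ((i : Fin q) → Fin (ee i)) × ((j : Fin r) → Fin (ff j)) → E) : FF E (TT r q s) :=
  open Classical in
  ∑ p, if V.valuation (algebraMap E F (c p) * ∏ i, t i ^ (p.1 i : ℕ)) = 1 then
    emb E (TT r q s) (c p) * ∏ j, Zc E (Sum.inl j : TT r q s) ^ (p.2 j : ℕ) else 0

lemma ne_zero_of_val {V : ValuationSubring F} {z : F} (h : V.valuation z = 1) : z ≠ 0 := by
  rintro rfl
  rw [map_zero] at h
  exact zero_ne_one h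

include hτ1 hY1 hY0 hb1 hC

/-- The values of the lifts of monomials. -/
lemma Pr_mono (n : Fin s → ℤ) (κ : Fin q → ℤ) : Pr (ph (E := E) (yy b τ Y))
    (mo (fun j => Zc E (Sum.inr (Sum.inr j) : TT r q s)) n *
      mo (fun i => Zc E (Sum.inr (Sum.inl i) : TT r q s)) κ) (mo Y n * mo τ κ) := by
  refine Pr.mul (Pr.mo (fun j => ?_) hY0 _) (Pr.mo (fun i => ?_) (fun i => ne_zero_of_val (hτ1 i)) _)
  · exact Pr_Z (E := E) (yy b τ Y) (Sum.inr (Sum.inr j))
  · exact Pr_Z (E := E) (yy b τ Y) (Sum.inr (Sum.inl i))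

include hK

/-- Lifts of small monomials. -/
theorem lift_mono {c u : E} (μ : (i : Fin q) → Fin (ee i)) (l : Fin s → ℤ)
    (hu : u ∈ lo (V.comap (algebraMap E F)).toSubring C) (hc : c = u * mo x l)
    (hkK : (l, fun i => ((μ i : ℕ) : ℤ)) ∈ K) :
    ∃ ζ, Pr (ph (E := E) (yy b τ Y)) ζ (algebraMap E F c * ∏ i, t i ^ (μ i : ℕ)) ∧
      InJ (JY C b τ Y V) ζ := by
  obtain ⟨n, κ, hn, h1⟩ := hK _ hkK
  have h2 := Pr_mono (r := r) (b := b) (V := V) (τ := τ) (Y := Y) hτ1 hY1 hY0 hb1 hC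
    (fun j => (n j : ℤ)) κ
  refine ⟨emb E (TT r q s) u * (mo (fun j => Zc E (Sum.inr (Sum.inr j) : TT r q s))
    (fun j => (n j : ℤ)) * mo (fun i => Zc E (Sum.inr (Sum.inl i) : TT r q s)) κ), ?_, ?_⟩
  · have h3 := (Pr_emb (E := E) (yy b τ Y) u).mul h2
    have h4 : algebraMap E F u * (mo Y (fun j => (n j : ℤ)) * mo τ κ) =
        algebraMap E F c * ∏ i, t i ^ (μ i : ℕ) := by
      rw [← h1, hc, map_mul, mul_assoc]
      unfold MM
      congr 2
      unfold mo
      exact Finset.prod_congr rfl fun i _ => zpow_natCast _ _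
    rw [h4] at h3
    exact h3
  · refine InJ.mul (emb_mem_lo hu _) ?_
    rw [mul_comm]
    exact InJ.mul (Zt_mo hτ1 hY1 hb1 hC κ) (mo_JY hn)

include hK1

/-- Lifts of elements. -/
theorem lift_sum (c : ((i : Fin q) → Fin (ee i)) × ((j : Fin r) → Fin (ff j)) → E)
    (hc : ∀ p, c p ≠ 0 →
      (V.valuation (algebraMap E F (c p) * ∏ i, t i ^ (p.1 i : ℕ)) = 1 ∧
        c p ∈ lo (V.comap (algebraMap E F)).toSubring C ∧ ∀ i, (p.1 i : ℕ) = 0) ∨
      ∃ (u : E) (l : Fin s → ℤ), u ∈ lo (V.comap (algebraMap E F)).toSubring C ∧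
        c p = u * mo x l ∧ (l, fun i => ((p.1 i : ℕ) : ℤ)) ∈ K) :
    ∃ ζ, Pr (ph (E := E) (yy b τ Y)) ζ (∑ p, algebraMap E F (c p) *
      ((∏ i, t i ^ (p.1 i : ℕ)) * ∏ j, b j ^ (p.2 j : ℕ))) ∧
      InJ (JY C b τ Y V) (ζ - Z0 V t s c) := by
  classical
  have key : ∀ p, ∃ ζ, Pr (ph (E := E) (yy b τ Y)) ζ (algebraMap E F (c p) *
      ((∏ i, t i ^ (p.1 i : ℕ)) * ∏ j, b j ^ (p.2 j : ℕ))) ∧
      InJ (JY C b τ Y V) (ζ - if V.valuation (algebraMap E F (c p) *
        ∏ i, t i ^ (p.1 i : ℕ)) = 1 then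
        emb E (TT r q s) (c p) * ∏ j, Zc E (Sum.inl j : TT r q s) ^ (p.2 j : ℕ) else 0) := by
    intro p
    have hb : Pr (ph (E := E) (yy b τ Y)) (∏ j, Zc E (Sum.inl j : TT r q s) ^ (p.2 j : ℕ))
        (∏ j, b j ^ (p.2 j : ℕ)) :=
      Pr.prod _ fun j _ => (Pr_Z (E := E) (yy b τ Y) (Sum.inl j)).pow _
    have hbm : ∏ j, Zc E (Sum.inl j : TT r q s) ^ (p.2 j : ℕ) ∈ RZ C (yy b τ Y) V :=
      Subring.prod_mem _ fun j _ => Subring.pow_mem _ (Z_mem _) _
    by_cases h0 : c p = 0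
    · refine ⟨0, ?_, ?_⟩
      · rw [h0, map_zero, zero_mul]
        exact Pr.zero
      · rw [h0, map_zero, zero_mul, map_zero, if_neg zero_ne_one, sub_zero]
        exact InJ.zero
    · rcases hc p h0 with ⟨h1, h2, h3⟩ | ⟨u, l, hu, hcp, hk⟩
      · refine ⟨emb E (TT r q s) (c p) * ∏ j, Zc E (Sum.inl j : TT r q s) ^ (p.2 j : ℕ),
          ?_, ?_⟩
        · have h4 : ∏ i, t i ^ (p.1 i : ℕ) = 1 := Finset.prod_eq_one fun i _ => by
            rw [h3, pow_zero]
          rw [h4, one_mul]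
          exact (Pr_emb (yy b τ Y) _).mul hb
        · rw [if_pos h1, sub_self]
          exact InJ.zero
      · obtain ⟨ζ, hζ, hζJ⟩ := lift_mono (r := r) (b := b) hτ1 hY1 hY0 hb1 hC hK p.1 l hu hcp hk
        refine ⟨(∏ j, Zc E (Sum.inl j : TT r q s) ^ (p.2 j : ℕ)) * ζ, ?_, ?_⟩
        · have h4 := hb.mul hζ
          have h5 : (∏ j, b j ^ (p.2 j : ℕ)) * (algebraMap E F (c p) *
              ∏ i, t i ^ (p.1 i : ℕ)) = algebraMap E F (c p) *
              ((∏ i, t i ^ (p.1 i : ℕ)) * ∏ j, b j ^ (p.2 j : ℕ)) := by ring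
          rwa [h5] at h4
        · have h4 : V.valuation (algebraMap E F (c p) * ∏ i, t i ^ (p.1 i : ℕ)) < 1 := by
            have h5 : algebraMap E F (c p) * ∏ i, t i ^ (p.1 i : ℕ) = algebraMap E F u *
                MM x t l fun i => ((p.1 i : ℕ) : ℤ) := by
              rw [hcp, map_mul, mul_assoc]
              unfold MM
              congr 2
              unfold mo
              exact Finset.prod_congr rfl fun i _ => (zpow_natCast _ _).symm
            rw [h5, map_mul]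
            have h6 : V.valuation (algebraMap E F u) ≤ 1 :=
              (V.valuation_le_one_iff _).2 (lo_le hC hu)
            exact lt_of_le_of_lt (mul_le_of_le_one_left' h6) (hK1 _ hk)
          rw [if_neg h4.ne, sub_zero]
          exact InJ.mul hbm hζJ
  choose ζ hζ hζJ using key
  refine ⟨∑ p, ζ p, Pr.sum _ fun p _ => hζ p, ?_⟩
  unfold Z0
  rw [← Finset.sum_sub_distrib]
  exact InJ.sum _ fun p _ => hζJ p

end lift

end Pool.Agent.H176.DT
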