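import Pool.Agent.H176.DT.B6

/-!
# The equations of defectless extensions are independent
-/

set_option autoImplicit false
set_option linter.unusedVariables false
set_option linter.unusedSectionVars false

universe u

namespace Pool.Agent.H176.DT

open Pool.Agent.W418.LU2 IsLocalRing

section full

variable {F : Type u} [Field F] {A P : Subring F} {ι : Type} [Fintype ι] {x : ι → F}

lemma Full.isUnit (h : Full A P x) (y : P) : IsUnit y ↔ (y : F) ≠ 0 ∧ (y : F)⁻¹ ∈ A := by
  constructor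
  · intro hy
    obtain ⟨z, hz⟩ := isUnit_iff_exists_inv.1 hy
    have h1 : (y : F) * z = 1 := congrArg Subtype.val hz
    refine ⟨left_ne_zero_of_mul_eq_one h1, ?_⟩
    rw [← eq_inv_of_mul_eq_one_right h1]
    exact h.PA z.2
  · rintro ⟨h0, h1⟩
    refine isUnit_iff_exists_inv.2 ⟨⟨_, h.inv _ y.2 h0 h1⟩, Subtype.ext ?_⟩
    exact mul_inv_cancel₀ h0

lemma Full.mem_max (h : Full A P x) [IsLocalRing P] (y : P) :
    y ∈ maximalIdeal P ↔ NU A (y : F) := by
  rw [mem_maximalIdeal, mem_nonunits_iff, h.isUnit]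
  rfl

lemma Full.nu (h : Full A P x) (i : ι) : NU A (x i) := by
  have hreg := h.reg
  have h1 : (⟨x i, h.mem i⟩ : P) ∈ maximalIdeal P := by
    rw [← h.span]
    exact Ideal.subset_span ⟨i, rfl⟩
  exact (h.mem_max _).1 h1

end full

section downU

variable {E F : Type u} [Field E] [Field F] [Algebra E F] {Θ : Type} [Fintype Θ] {y : Θ → F}
  {V : ValuationSubring F} {C : Subring E}

lemma closure_downU (U : Set Θ) {s : FF E Θ}
    (hs : s ∈ Subring.closure ((C.map (emb E Θ) : Set (FF E Θ)) ∪ Zc E '' U)) :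
    ∃ w ∈ Subring.closure ((C.map (algebraMap E F) : Set F) ∪ y '' U),
      Pr (ph (E := E) y) s w := by
  induction hs using Subring.closure_induction with
  | mem s hs =>
    rcases hs with ⟨c, hc, rfl⟩ | ⟨θ, hθ, rfl⟩
    · exact ⟨_, Subring.subset_closure (Or.inl ⟨c, hc, rfl⟩), Pr_emb y c⟩
    · exact ⟨_, Subring.subset_closure (Or.inr ⟨θ, hθ, rfl⟩), Pr_Z y θ⟩
  | zero => exact ⟨0, Subring.zero_mem _, Pr.zero⟩
  | one => exact ⟨1, Subring.one_mem _, Pr.one⟩
  | add a b _ _ ha hb =>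
    obtain ⟨s, hs, h⟩ := ha
    obtain ⟨s', hs', h'⟩ := hb
    exact ⟨_, Subring.add_mem _ hs hs', h.add h'⟩
  | neg a _ ha =>
    obtain ⟨s, hs, h⟩ := ha
    exact ⟨_, Subring.neg_mem _ hs, h.neg⟩
  | mul a b _ _ ha hb =>
    obtain ⟨s, hs, h⟩ := ha
    obtain ⟨s', hs', h'⟩ := hb
    exact ⟨_, Subring.mul_mem _ hs hs', h.mul h'⟩

/-- The values of the elements of the local ring. -/
lemma lo_downU (U : Set Θ) {v : FF E Θ}
    (hv : v ∈ lo (AT E y V) (Subring.closure ((C.map (emb E Θ) : Set (FF E Θ)) ∪ Zc E '' U))) :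
    ∃ w ∈ lo V.toSubring (Subring.closure ((C.map (algebraMap E F) : Set F) ∪ y '' U)),
      Pr (ph (E := E) y) v w := by
  obtain ⟨a, ha, b, hb, hb0, ⟨wi, hwi, hbi⟩, rfl⟩ := hv
  obtain ⟨wa, hwa, hpa⟩ := closure_downU (y := y) U ha
  obtain ⟨wb, hwb, hpb⟩ := closure_downU (y := y) U hb
  have h1 : wb * wi = 1 := by
    have h2 := hpb.mul hbi
    rw [mul_inv_cancel₀ hb0] at h2
    exact h2.unique Pr.one
  have hwb0 : wb ≠ 0 := left_ne_zero_of_mul_eq_one h1
  have h2 : wi = wb⁻¹ := eq_inv_of_mul_eq_one_right h1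
  refine ⟨wa * wb⁻¹, ⟨wa, hwa, wb, hwb, hwb0, ?_, rfl⟩, ?_⟩
  · rw [← h2]; exact hwi
  · rw [← h2]
    exact hpa.mul hbi

end downU

section lin

open Polynomial

variable {F : Type u} [Field F] {A P : Subring F}

/-- Linear polynomials. -/
lemma lin_min (a : P) (z : F) (h : P[X]) (hd : h.degree < (X - C a : P[X]).degree)
    (hz : NU A (eval₂ P.subtype z h)) (i : ℕ) : NU A (h.coeff i : F) := by
  rw [degree_X_sub_C] at hd
  have h1 : h = C (h.coeff 0) := by
    apply eq_C_of_degree_le_zero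
    by_cases h0 : h = 0
    · rw [h0, degree_zero]
      exact bot_le
    · rw [degree_eq_natDegree h0] at hd ⊢
      have h1 : h.natDegree < 1 := by exact_mod_cast hd
      have h2 : h.natDegree = 0 := by omega
      rw [h2]
      exact le_rfl
  by_cases hi : i = 0
  · subst hi
    rw [h1, eval₂_C] at hz
    exact hz
  · rw [h1, coeff_C_of_ne_zero hi]
    intro h2
    exact h2.1 rfl

/-- Linear polynomials. -/
lemma lin_poly (A : Subring F) (a : P) (z : F) : ∃ g : P[X], g.Monic ∧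
    eval₂ P.subtype z g = z - a ∧ ∀ h : P[X], h.degree < g.degree →
      NU A (eval₂ P.subtype z h) → ∀ i, NU A (h.coeff i : F) := by
  refine ⟨X - C a, monic_X_sub_C a, ?_, ?_⟩
  · rw [eval₂_sub, eval₂_X, eval₂_C]
    rfl
  · exact lin_min a z

end lin

end Pool.Agent.H176.DT
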