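import Pool.Agent.H176.DT.C9

/-!
# The step for key polynomials
-/

set_option autoImplicit false
set_option linter.unusedVariables false
set_option linter.unusedSectionVars false

universe u

namespace Pool.Agent.H176.DT

open Pool.Agent.W418.LU2 IsLocalRing Polynomial

section fin

variable {E F : Type u} [Field E] [Field F] [Algebra E F] {V : ValuationSubring F} {q r n : ℕ}

lemma Rep.fin {t : Fin q → F} {P : Type} {z : P → F} (e : P ≃ Fin n) {Q : V.ValueGroup → Prop}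
    {w : F} (h : Rep E V t z Q w) : Rep E V t (fun i => z (e.symm i)) Q w := by
  obtain ⟨k, a, μ, p, hw, h⟩ := h
  refine ⟨k, a, μ, fun i => e (p i), ?_, h⟩
  rw [hw]
  exact Finset.sum_congr rfl fun i _ => by simp only [e.symm_apply_apply]

lemma Mono.fin {t : Fin q → F} {P : Type} {z : P → F} (e : P ≃ Fin n)
    {v : F} (h : Mono E V t z v) : Mono E V t (fun i => z (e.symm i)) v := by
  obtain ⟨a, m, w, ha, hv, hw1, hw⟩ := h
  exact ⟨a, m, w, ha, hv, hw1, hw.fin e⟩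

lemma Key.fin {t : Fin (q + 1) → F} {ee : Fin (q + 1) → ℕ} {g : Fin (q + 1) → E}
    {m₀ : Fin (q + 1) → Fin (q + 1) → ℤ} {b : Fin r → F} {ff : Fin r → ℕ} {P : Type} [Fintype P]
    {z : P → F} {θ : F} (e : P ≃ Fin n) (h : Key V θ t ee g m₀ b ff z) :
    Key V θ t ee g m₀ b ff (fun i => z (e.symm i)) := by
  refine ⟨h.nt, h.t0, h.e0, h.g0, h.b1, h.f0, fun i => h.z1 _, h.m0, h.rel, h.min, h.bm, ?_, ?_,
    ?_, h.om, h.tp, h.bp, fun i => h.zp _⟩
  · intro j
    obtain ⟨k, h1, h2, h3⟩ := h.res j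
    exact ⟨k, h1, h2, h3.fin e⟩
  · intro j
    obtain ⟨k, h1, h3⟩ := h.tw j
    exact ⟨k, h1, h3.fin e⟩
  · intro j
    obtain ⟨k, h1, h3⟩ := h.zw (e.symm j)
    exact ⟨k, h1, h3.fin e⟩

end fin

section main

variable {E F : Type u} [Field E] [Field F] [Algebra E F]

/-- The step for key polynomials. -/
theorem key_SU (hmin : S2_min.{u}) (hprod : S2_prod.{u}) (hkey : S2_key.{u})
    (V : ValuationSubring F) (A : Subring E) (hM : Mod (V.comap (algebraMap E F)) A)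
    (hSU : SU (V.comap (algebraMap E F)) A) (θ : F) (hθ : Transcendental E θ)
    (hgen : ∀ w : F, w ∈ Subfield.closure (Set.range (algebraMap E F) ∪ {θ}))
    (htor : ∀ z : F, z ≠ 0 → ∃ N : ℕ, 0 < N ∧ ∃ a : E,
      V.valuation (z ^ N) = V.valuation (algebraMap E F a))
    (hra : ∀ z : F, V.valuation z = 1 → ∃ g : E[X], g.Monic ∧
      (∀ i, algebraMap E F (g.coeff i) ∈ V) ∧ V.valuation (aeval z g) < 1)
    (hdom : ∀ f : E[X], ∃ (ϕ : E[X]) (n : ℕ) (β : Fin n → E[X]), KP V θ ϕ β ∧ Domi V θ ϕ f) :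
    ∃ w : F, (w = θ ∨ w = θ⁻¹) ∧ w ∈ V ∧ SU V (AW A w) := by
  classical
  obtain ⟨w, hw, hwV⟩ : ∃ w : F, (w = θ ∨ w = θ⁻¹) ∧ w ∈ V := by
    rcases V.mem_or_inv_mem θ with h | h
    · exact ⟨θ, Or.inl rfl, h⟩
    · exact ⟨θ⁻¹, Or.inr rfl, h⟩
  refine ⟨w, hw, hwV, ?_⟩
  intro G hG hG0
  choose f g hg hfg using fun v : F => gen_frac (hgen v)
  have hg0 : ∀ v, g v ≠ 0 := by
    intro v h
    apply hg v
    rw [h, map_zero]
  have hf0 : ∀ v ∈ G, f v ≠ 0 := by
    intro v hv h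
    have h1 := hfg v
    rw [h, map_zero] at h1
    rcases mul_eq_zero.1 h1 with h2 | h2
    · exact hG0 v hv h2
    · exact hg v h2
  -- the product
  have hprod0 : ∏ v ∈ hG.toFinset, (f v * g v) ≠ 0 :=
    Finset.prod_ne_zero_iff.2 fun v hv => mul_ne_zero (hf0 v (hG.mem_toFinset.1 hv)) (hg0 v)
  obtain ⟨ϕ, n₀, β, hKP, hDom⟩ := hdom (X * ∏ v ∈ hG.toFinset, (f v * g v))
  have hDX : Domi V θ ϕ X := hprod V θ ϕ n₀ β hθ hKP _ _ X_ne_zero hprod0 hDom
  have hDv : ∀ v ∈ G, Domi V θ ϕ (f v * g v) := by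
    intro v hv
    have hv' := hG.mem_toFinset.2 hv
    rw [← Finset.mul_prod_erase _ _ hv', mul_left_comm] at hDom
    exact hprod V θ ϕ n₀ β hθ hKP _ _ (mul_ne_zero (hf0 v hv) (hg0 v))
      (mul_ne_zero X_ne_zero (Finset.prod_ne_zero_iff.2 fun v hv =>
        mul_ne_zero (hf0 v (hG.mem_toFinset.1 (Finset.mem_erase.1 hv).2)) (hg0 v))) hDom
  have hDf : ∀ v ∈ G, Domi V θ ϕ (f v) := fun v hv =>
    hprod V θ ϕ n₀ β hθ hKP _ _ (hf0 v hv) (hg0 v) (hDv v hv)
  have hDg : ∀ v ∈ G, Domi V θ ϕ (g v) := fun v hv => by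
    have h1 := hDv v hv
    rw [mul_comm] at h1
    exact hprod V θ ϕ n₀ β hθ hKP _ _ (hg0 v) (hf0 v hv) h1
  obtain ⟨q, r, P, _, t, ee, g', m₀, b, ff, z, hK, hMono⟩ := hkey V θ ϕ n₀ β hθ hKP htor hra
  let e := Fintype.equivFin P
  have hK' := hK.fin e
  obtain ⟨T, s, Y, hSt, hPM⟩ := key_stage p_ell p_ind p_adj p_alg p_map p_ext p_cut hmin A hM hSU
    θ hθ hgen hK' w hw hwV ({X} ∪ (f '' G ∪ g '' G))
    ((Set.finite_singleton _).union ((hG.image _).union (hG.image _))) (by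
      rintro p (rfl | ⟨v, hv, rfl⟩ | ⟨v, hv, rfl⟩)
      · exact (hMono X X_ne_zero hDX).fin e
      · exact (hMono _ (hf0 v hv) (hDf v hv)).fin e
      · exact (hMono _ (hg0 v) (hDg v hv)).fin e) (Or.inl rfl)
  have hmon : ∀ v ∈ G, PMon (PP V (AW A w) T) Y v := by
    intro v hv
    have h1 := hPM (f v) (Or.inr (Or.inl ⟨v, hv, rfl⟩))
    have h2 := hPM (g v) (Or.inr (Or.inr ⟨v, hv, rfl⟩))
    have h3 := h1.mul hSt.reg.ne h2.inv
    rwa [← hfg v, mul_assoc, mul_inv_cancel₀ (hg v), mul_one] at h3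
  obtain ⟨T', Y', hT', hSt', -, -, hmon', hmem⟩ := p_ref V (AW A w) _ Y hSt G hG hmon
  exact ⟨T', s, Y', hSt', fun z hz => ⟨hmon' z (hmon z hz), hmem z hz⟩⟩

/-- The step for key polynomials. -/
lemma key_kp (hmin : S2_min.{u}) (hprod : S2_prod.{u}) (hkey : S2_key.{u})
    {V : ValuationSubring F} (A : Subring E) (hM : Mod (V.comap (algebraMap E F)) A)
    (hSU : SU (V.comap (algebraMap E F)) A) (θ : F) (hθ : Transcendental E θ)
    (hgen : ∀ w : F, w ∈ Subfield.closure (Set.range (algebraMap E F) ∪ {θ}))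
    (htor : ∀ z : F, z ≠ 0 → ∃ N : ℕ, 0 < N ∧ ∃ a : E,
      V.valuation (z ^ N) = V.valuation (algebraMap E F a))
    (hra : ∀ z : F, V.valuation z = 1 → ∃ g : E[X], g.Monic ∧
      (∀ i, algebraMap E F (g.coeff i) ∈ V) ∧ V.valuation (aeval z g) < 1)
    (hdom : ∀ f : E[X], ∃ (ϕ : E[X]) (n : ℕ) (β : Fin n → E[X]), KP V θ ϕ β ∧ Domi V θ ϕ f) :
    ∃ U : Set F, U.Finite ∧
      Mod V (Subring.closure ((A.map (algebraMap E F) : Set F) ∪ U)) ∧
      SU V (Subring.closure ((A.map (algebraMap E F) : Set F) ∪ U)) := by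
  obtain ⟨w, hw, hwV, h2⟩ := key_SU hmin hprod hkey V A hM hSU θ hθ hgen htor hra hdom
  refine ⟨{w}, Set.finite_singleton _, mod_ext hM ?_ ?_, h2⟩
  · rintro u rfl
    exact hwV
  · have h1 : Subfield.closure (Set.range (algebraMap E F) ∪ {θ}) ≤
        Subfield.closure (Set.range (algebraMap E F) ∪ {w}) := by
      rw [Subfield.closure_le]
      have h3 : w ∈ Subfield.closure (Set.range (algebraMap E F) ∪ {w}) :=
        Subfield.subset_closure (Or.inr rfl)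
      rintro z (hz | rfl)
      · exact Subfield.subset_closure (Or.inl hz)
      · rcases hw with hw | hw
        · rw [← hw]; exact h3
        · rw [hw] at h3 ⊢
          have h4 := inv_mem h3
          rwa [inv_inv] at h4
    exact fun z => h1 (hgen z)

end main

end Pool.Agent.H176.DT
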