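import Pool.Agent.H176.DT.C2

/-!
# The local rings of key polynomials are regular
-/

set_option autoImplicit false
set_option linter.unusedVariables false
set_option linter.unusedSectionVars false

universe u

namespace Pool.Agent.H176.DT

open Pool.Agent.W418.LU2 IsLocalRing

section main

variable {E F : Type u} [Field E] [Field F] [Algebra E F] {V : ValuationSubring F} {q r n s : ℕ}
  {t : Fin (q + 1) → F} {b : Fin r → F} {ff : Fin r → ℕ} {z : Fin n → F}
  {x : Fin s → E} {C : Subring E} {τ : Fin (q + 1) → F} {Y : Fin s → F}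
  {K : Finset ((Fin s → ℤ) × (Fin (q + 1) → ℤ))}

/-- The value can be lifted to the ideal of the coordinates. -/
def Lf (C : Subring E) {q r s : ℕ} (b : Fin r → F) (τ : Fin q → F) (Y : Fin s → F)
    (V : ValuationSubring F) (w : F) : Prop :=
  ∃ ζ, Pr (ph (E := E) (yy b τ Y)) ζ w ∧ InJ (JY C b τ Y V) ζ

open Polynomial in
/-- The polynomial of the last variable. -/
theorem exists_last (hmin : S2_min.{u})
    (D : Dt V t (Fin.append b z) x C τ Y K)
    (hom : ∃ (d : ℕ) (c : ℕ → E), (∀ i, c i ∈ lo (V.comap (algebraMap E F)).toSubring C) ∧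
      V.valuation (τ (Fin.last q) ^ (d + 1) +
        ∑ i ∈ Finset.range (d + 1), algebraMap E F (c i) * τ (Fin.last q) ^ i) < 1)
    (ha : ∃ a ∈ lo (V.comap (algebraMap E F)).toSubring C, a ≠ 0 ∧
      V.valuation (algebraMap E F a) < 1) :
    ∃ g : (lo (AT E (yy (Fin.append b z) τ Y) V)
      (Subring.closure ((C.map (emb E (TT (r + n) (q + 1) s)) :
      Set (FF E (TT (r + n) (q + 1) s))) ∪ Zc E '' {l | ordT (r + n) (q + 1) s l <
        ordT (r + n) (q + 1) s (Sum.inr (Sum.inl (Fin.last q)))})))[X],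
      g.Monic ∧ NU (AT E (yy (Fin.append b z) τ Y) V) (eval₂ (Subring.subtype _)
        (Zc E (Sum.inr (Sum.inl (Fin.last q)) : TT (r + n) (q + 1) s)) g) ∧
      eval₂ (Subring.subtype _)
        (Zc E (Sum.inr (Sum.inl (Fin.last q)) : TT (r + n) (q + 1) s)) g ∈
          RZ C (yy (Fin.append b z) τ Y) V ∧
      (∃ w, w ≠ 0 ∧ V.valuation w < 1 ∧ Pr (ph (E := E) (yy (Fin.append b z) τ Y))
        (eval₂ (Subring.subtype _)
          (Zc E (Sum.inr (Sum.inl (Fin.last q)) : TT (r + n) (q + 1) s)) g) w) ∧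
      ∀ h : (lo (AT E (yy (Fin.append b z) τ Y) V)
        (Subring.closure ((C.map (emb E (TT (r + n) (q + 1) s)) :
        Set (FF E (TT (r + n) (q + 1) s))) ∪ Zc E '' {l | ordT (r + n) (q + 1) s l <
          ordT (r + n) (q + 1) s (Sum.inr (Sum.inl (Fin.last q)))})))[X],
        h.degree < g.degree →
        NU (AT E (yy (Fin.append b z) τ Y) V) (eval₂ (Subring.subtype _)
          (Zc E (Sum.inr (Sum.inl (Fin.last q)) : TT (r + n) (q + 1) s)) h) →
        ∀ i, NU (AT E (yy (Fin.append b z) τ Y) V)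
          (h.coeff i : FF E (TT (r + n) (q + 1) s)) := by
  classical
  obtain ⟨d, c, hc, hd⟩ := hom
  obtain ⟨a, haC, ha0, ha1⟩ := ha
  have hSA := RZ_le (E := E) (C := C) (V := V) (b := Fin.append b z) (τ := τ) (Y := Y) D.t1 D.Y1
    D.b1 D.hC
  let S := Subring.closure ((C.map (emb E (TT (r + n) (q + 1) s)) :
      Set (FF E (TT (r + n) (q + 1) s))) ∪ Zc E '' {l | ordT (r + n) (q + 1) s l <
        ordT (r + n) (q + 1) s (Sum.inr (Sum.inl (Fin.last q)))})
  have hS1 : S ≤ Subring.closure ((C.map (emb E (TT (r + n) (q + 1) s)) :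
      Set (FF E (TT (r + n) (q + 1) s))) ∪ Set.range (Zc E)) := by
    apply Subring.closure_mono
    rintro w (hw | ⟨l, -, rfl⟩)
    · exact Or.inl hw
    · exact Or.inr ⟨l, rfl⟩
  have hPR : lo (AT E (yy (Fin.append b z) τ Y) V) S ≤ RZ C (yy (Fin.append b z) τ Y) V :=
    lo_mono hS1
  have hZ : Zc E (Sum.inr (Sum.inl (Fin.last q)) : TT (r + n) (q + 1) s) ∈
      AT E (yy (Fin.append b z) τ Y) V := D.hle (Z_mem _)
  have hPZ : Pr (ph (E := E) (yy (Fin.append b z) τ Y))
      (Zc E (Sum.inr (Sum.inl (Fin.last q)) : TT (r + n) (q + 1) s)) (τ (Fin.last q)) :=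
    Pr_Z (E := E) (yy (Fin.append b z) τ Y) (Sum.inr (Sum.inl (Fin.last q)))
  have hce : ∀ i, emb E (TT (r + n) (q + 1) s) (c i) ∈
      lo (AT E (yy (Fin.append b z) τ Y) V) S := fun i => emb_mem_lo (hc i) _
  have hae : emb E (TT (r + n) (q + 1) s) a ∈
      lo (AT E (yy (Fin.append b z) τ Y) V) S := emb_mem_lo haC _
  let g0 : (lo (AT E (yy (Fin.append b z) τ Y) V) S)[X] :=
    X ^ (d + 1) + ∑ i : Fin (d + 1), Polynomial.C (⟨_, hce i⟩ :
      lo (AT E (yy (Fin.append b z) τ Y) V) S) * X ^ (i : ℕ)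
  have hg0 : g0.Monic := by
    apply monic_X_pow_add
    refine lt_of_le_of_lt (degree_sum_le _ _) ?_
    rw [Finset.sup_lt_iff (by exact WithBot.bot_lt_coe _)]
    intro l _
    refine lt_of_le_of_lt (degree_C_mul_X_pow_le _ _) ?_
    exact_mod_cast l.2
  have hev : eval₂ (Subring.subtype _)
      (Zc E (Sum.inr (Sum.inl (Fin.last q)) : TT (r + n) (q + 1) s)) g0 =
      Zc E (Sum.inr (Sum.inl (Fin.last q)) : TT (r + n) (q + 1) s) ^ (d + 1) +
      ∑ i : Fin (d + 1), emb E (TT (r + n) (q + 1) s) (c i) *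
        Zc E (Sum.inr (Sum.inl (Fin.last q)) : TT (r + n) (q + 1) s) ^ (i : ℕ) := by
    change eval₂ (Subring.subtype _) _ (X ^ (d + 1) + ∑ i : Fin (d + 1), Polynomial.C
      (⟨_, hce i⟩ : lo (AT E (yy (Fin.append b z) τ Y) V) S) * X ^ (i : ℕ)) = _
    rw [eval₂_add, eval₂_X_pow, eval₂_finsetSum]
    congr 1
    refine Finset.sum_congr rfl fun l _ => ?_
    rw [eval₂_mul, eval₂_C, eval₂_X_pow]
    rfl
  have hNU : NU (AT E (yy (Fin.append b z) τ Y) V) (eval₂ (Subring.subtype _)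
      (Zc E (Sum.inr (Sum.inl (Fin.last q)) : TT (r + n) (q + 1) s)) g0) := by
    rw [hev]
    refine NU_of_val (y := yy (Fin.append b z) τ Y) (w := τ (Fin.last q) ^ (d + 1) +
      ∑ i : Fin (d + 1), algebraMap E F (c i) * τ (Fin.last q) ^ (i : ℕ)) ?_ ?_
    · exact (hPZ.pow _).add (Pr.sum _ fun i _ => (Pr_emb (yy (Fin.append b z) τ Y) (c i)).mul
        (hPZ.pow _))
    · rw [Finset.sum_range (fun i => algebraMap E F (c i) * τ (Fin.last q) ^ i)] at hd
      exact hd
  obtain ⟨f, hf1, hf2, hf3, hf4⟩ := hmin (AT E (yy (Fin.append b z) τ Y) V)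
    (lo (AT E (yy (Fin.append b z) τ Y) V) S) loc_AA (lo_le (hS1.trans hSA))
    (fun y hy h0 h1 => inv_mem_lo (hS1.trans hSA) hy h0 h1) _ hZ g0 hg0 hNU
  have hmemf : ∀ p : (lo (AT E (yy (Fin.append b z) τ Y) V) S)[X],
      eval₂ (Subring.subtype _)
        (Zc E (Sum.inr (Sum.inl (Fin.last q)) : TT (r + n) (q + 1) s)) p ∈
          RZ C (yy (Fin.append b z) τ Y) V := by
    intro p
    rw [eval₂_eq_sum_range]
    exact Subring.sum_mem _ fun i _ => Subring.mul_mem _ (hPR (p.coeff i).2)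
      (Subring.pow_mem _ (Z_mem _) _)
  obtain ⟨w, hwV, hw⟩ := D.hle (hmemf f)
  have hw1 : V.valuation w < 1 := val_of_NU hw hwV hf3
  by_cases hw0 : w = 0
  · refine ⟨f + Polynomial.C ⟨_, hae⟩, ?_, ?_, hmemf _, ⟨algebraMap E F a, ?_, ha1, ?_⟩, ?_⟩
    · refine hf1.add_of_left ?_
      refine lt_of_le_of_lt degree_C_le ?_
      exact natDegree_pos_iff_degree_pos.1 hf2
    · have h1 : Pr (ph (E := E) (yy (Fin.append b z) τ Y)) (eval₂ (Subring.subtype _)
          (Zc E (Sum.inr (Sum.inl (Fin.last q)) : TT (r + n) (q + 1) s))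
          (f + Polynomial.C ⟨_, hae⟩)) (algebraMap E F a) := by
        rw [eval₂_add, eval₂_C]
        have h2 := hw.add (Pr_emb (yy (Fin.append b z) τ Y) a)
        rw [hw0, zero_add] at h2
        exact h2
      exact NU_of_val h1 ha1
    · exact (_root_.map_ne_zero _).2 ha0
    · rw [eval₂_add, eval₂_C]
      have h2 := hw.add (Pr_emb (yy (Fin.append b z) τ Y) a)
      rw [hw0, zero_add] at h2
      exact h2
    · have hdeg : (f + Polynomial.C (⟨_, hae⟩ :
          lo (AT E (yy (Fin.append b z) τ Y) V) S)).degree = f.degree := by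
        apply degree_add_eq_left_of_degree_lt
        refine lt_of_le_of_lt degree_C_le ?_
        exact natDegree_pos_iff_degree_pos.1 hf2
      intro h hh
      rw [hdeg] at hh
      exact hf4 h hh
  · exact ⟨f, hf1, hf3, hmemf f, ⟨w, hw0, hw1, hw⟩, hf4⟩

end main

end Pool.Agent.H176.DT
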