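import Pool.Agent.H176.DT.C5

/-!
# The stages of key polynomials
-/

set_option autoImplicit false
set_option linter.unusedVariables false
set_option linter.unusedSectionVars false

universe u

namespace Pool.Agent.H176.DT

open Pool.Agent.W418.LU2 IsLocalRing

section main

variable {E F : Type u} [Field E] [Field F] [Algebra E F] {V : ValuationSubring F} {q r : ℕ}
  {t : Fin q → F} {ee : Fin q → ℕ} {b : Fin r → F}

/-- The small monomials are monomials in a positive basis. -/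
theorem exists_YK (hell : S_ell.{u}) {s : ℕ} {x : Fin s → E} (hx0 : ∀ i, x i ≠ 0)
    (ht0 : ∀ i, t i ≠ 0) (he0 : ∀ i, 0 < ee i)
    (hxi : ∀ δ : Fin s → ℤ, V.valuation (algebraMap E F (mo x δ)) = 1 → δ = 0)
    (hmin : ∀ (i : Fin q) (k : ℤ) (a : E) (m : Fin q → ℤ), a ≠ 0 → (∀ j, i ≤ j → m j = 0) →
      V.valuation (t i ^ k) = V.valuation (algebraMap E F a * mo t m) → (ee i : ℤ) ∣ k)
    {γ : Fin q → Fin s → ℤ} {m₀ : Fin q → Fin q → ℤ} (hm₀ : ∀ i j, i ≤ j → m₀ i j = 0)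
    (hrel : ∀ i, V.valuation (t i ^ ee i) = V.valuation (MM x t (γ i) (m₀ i)))
    {τ : Fin q → F} (hτ : ∀ i, τ i = t i ^ ee i * (MM x t (γ i) (m₀ i))⁻¹)
    (K : Finset ((Fin s → ℤ) × (Fin q → ℤ)))
    (hK : ∀ k ∈ K, V.valuation (MM x t k.1 k.2) < 1)
    (hKx : ∀ i, ((Pi.single i 1 : Fin s → ℤ), (0 : Fin q → ℤ)) ∈ K) :
    ∃ (L : Fin s → Fin s → ℤ) (M : Fin s → Fin q → ℤ),
      (∀ j, V.valuation (MM x t (L j) (M j)) < 1) ∧
      ∀ k ∈ K, ∃ (n : Fin s → ℕ) (κ : Fin q → ℤ), n ≠ 0 ∧ MM x t k.1 k.2 =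
        mo (fun j => MM x t (L j) (M j)) (fun j => (n j : ℤ)) * mo τ κ := by
  classical
  obtain ⟨L, M, h1, h2⟩ := perron hx0 ht0 hell hxi he0 hm₀ hrel K hK hKx
  refine ⟨L, M, h1, fun k hk => ?_⟩
  obtain ⟨n, hn⟩ := h2 k hk
  have hτ1 : ∀ i, V.valuation (τ i) = 1 := by
    intro i
    rw [hτ, map_mul, map_inv₀, hrel, mul_inv_cancel₀]
    exact (map_ne_zero _).2 (MM_ne hx0 ht0 _ _)
  have h3 : MM x t (k.1 + -(∑ j, (n j : ℤ) • L j)) (k.2 + -(∑ j, (n j : ℤ) • M j)) =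
      MM x t k.1 k.2 * (mo (fun j => MM x t (L j) (M j)) (fun j => (n j : ℤ)))⁻¹ := by
    rw [MM_add hx0 ht0, MM_neg, MM_mo hx0 ht0]
  have hne : mo (fun j => MM x t (L j) (M j)) (fun j => (n j : ℤ)) ≠ 0 :=
    mo_ne_zero (fun j => MM_ne hx0 ht0 _ _) _
  obtain ⟨κ, hκ⟩ := val_one_mo hx0 ht0 hmin hxi hm₀ hτ hτ1 _ _ (by
    rw [h3, map_mul, map_inv₀, hn, mul_inv_cancel₀]
    exact (map_ne_zero _).2 hne)
  refine ⟨n, κ, ?_, ?_⟩
  · rintro rfl
    have h4 := hK k hk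
    rw [hn] at h4
    have h5 : (fun j : Fin s => (((0 : Fin s → ℕ) j : ℕ) : ℤ)) = 0 := by
      funext j
      simp
    rw [h5, mo_zero, map_one] at h4
    exact lt_irrefl _ h4
  · rw [← hκ, h3, mul_comm (MM x t k.1 k.2), mul_inv_cancel_left₀ hne]

/-- The conclusion of the construction of a stage. -/
structure ConsK (V : ValuationSubring F) (t : Fin q → F) (ee : Fin q → ℕ) (b : Fin r → F)
    (A : Subring E) (GE : Set E) (ME : Set (Fin q → ℤ)) (g : Fin q → E) (m₀ : Fin q → Fin q → ℤ)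
    (T : Set E) {s : ℕ} (x : Fin s → E) (τ : Fin q → F) (u : Fin q → E) (Y : Fin s → F)
    (K : Finset ((Fin s → ℤ) × (Fin q → ℤ))) : Prop where
  st : St (V.comap (algebraMap E F)) A T x
  xu : ∀ i, (x i)⁻¹ ∉ V.comap (algebraMap E F)
  dat : Dt V t b x (Subring.closure ((A : Set E) ∪ T)) τ Y K
  Kx : ∀ i, ((Pi.single i 1 : Fin s → ℤ), (0 : Fin q → ℤ)) ∈ K
  mon : ∀ a ∈ GE, PMon (PP (V.comap (algebraMap E F)) A T) x a ∧
    (a ∈ V.comap (algebraMap E F) → a ∈ PP (V.comap (algebraMap E F)) A T)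
  small : ∀ a ∈ GE, ∀ m ∈ ME, V.valuation (algebraMap E F a * mo t m) < 1 →
    ∃ (u : E) (l : Fin s → ℤ), u ∈ PP (V.comap (algebraMap E F)) A T ∧ a = u * mo x l ∧
      (l, m) ∈ K
  one : ∀ a ∈ GE, ∀ m ∈ ME, V.valuation (algebraMap E F a * mo t m) = 1 →
    ∃ (u : E) (κ : Fin q → ℤ), u ∈ PP (V.comap (algebraMap E F)) A T ∧
      algebraMap E F a * mo t m = algebraMap E F u * mo τ κ
  um : ∀ i, u i ∈ PP (V.comap (algebraMap E F)) A T
  uV : ∀ i, V.valuation (algebraMap E F (u i)) = 1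
  tau : ∀ i, τ i = algebraMap E F (u i) * (t i ^ ee i * (algebraMap E F (g i) * mo t (m₀ i))⁻¹)
  tM : ∀ i, ∃ l m, τ i = MM x t l m
  YM : ∀ j, ∃ l m, Y j = MM x t l m
  gen : ∀ i, ∃ (n : Fin s → ℕ) (κ : Fin q → ℤ),
    (t i ∈ V ∧ t i = mo Y (fun j => (n j : ℤ)) * mo τ κ) ∨
    (t i ∉ V ∧ (t i)⁻¹ = mo Y (fun j => (n j : ℤ)) * mo τ κ)

theorem exists_consK (hell : S_ell.{u}) (hind : S_ind.{u}) (ht0 : ∀ i, t i ≠ 0)
    (he0 : ∀ i, 0 < ee i) (hb1 : ∀ j, V.valuation (b j) = 1)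
    (hmin : ∀ (i : Fin q) (k : ℤ) (a : E) (m : Fin q → ℤ), a ≠ 0 → (∀ j, i ≤ j → m j = 0) →
      V.valuation (t i ^ k) = V.valuation (algebraMap E F a * mo t m) → (ee i : ℤ) ∣ k)
    (A : Subring E) (hSU : SU (V.comap (algebraMap E F)) A) (GE : Set E) (hGE : GE.Finite)
    (hGE0 : ∀ a ∈ GE, a ≠ 0) (ME : Set (Fin q → ℤ)) (hME : ME.Finite)
    {g : Fin q → E} {m₀ : Fin q → Fin q → ℤ}
    (hm₀ : ∀ i j, i ≤ j → m₀ i j = 0)
    (hrel : ∀ i, V.valuation (t i ^ ee i) = V.valuation (algebraMap E F (g i) * mo t (m₀ i)))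
    (hg : ∀ i, g i ∈ GE) :
    ∃ (T : Set E) (s : ℕ) (x : Fin s → E) (τ : Fin q → F) (u : Fin q → E) (Y : Fin s → F)
      (K : Finset ((Fin s → ℤ) × (Fin q → ℤ))),
      ConsK V t ee b A GE ME g m₀ T x τ u Y K := by
  classical
  obtain ⟨T, s, x, hSt, hxu, hxi', hGG⟩ := hind (V.comap (algebraMap E F)) A hSU GE hGE hGE0
  have hx0 : ∀ i, x i ≠ 0 := hSt.reg.ne
  have hP : PP (V.comap (algebraMap E F)) A T ≤ (V.comap (algebraMap E F)).toSubring :=
    hSt.reg.PA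
  have hxi : ∀ δ : Fin s → ℤ, V.valuation (algebraMap E F (mo x δ)) = 1 → δ = 0 :=
    fun δ h => hxi' δ ((comap_one _ V _).2 h)
  have h1 : ∀ a : E, ∃ (u : E) (l : Fin s → ℤ), a ∈ GE → (u ≠ 0 ∧
      u ∈ PP (V.comap (algebraMap E F)) A T ∧ u⁻¹ ∈ PP (V.comap (algebraMap E F)) A T ∧
      a = u * mo x l) := by
    intro a
    by_cases ha : a ∈ GE
    · obtain ⟨u, u0, u1, u2, δ, h⟩ := (hGG a ha).1
      exact ⟨u, δ, fun _ => ⟨u0, u1, u2, h⟩⟩
    · exact ⟨1, 0, fun h => absurd h ha⟩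
  choose uu ll hul using h1
  -- the monomials
  let K0 : Finset ((Fin s → ℤ) × (Fin q → ℤ)) :=
    ((Finset.univ.image fun i : Fin s => ((Pi.single i 1 : Fin s → ℤ), (0 : Fin q → ℤ))) ∪
      (Finset.univ.image fun i : Fin q => ((0 : Fin s → ℤ), (Pi.single i 1 : Fin q → ℤ)))) ∪
    ((Finset.univ.image fun i : Fin q => ((0 : Fin s → ℤ), -(Pi.single i 1 : Fin q → ℤ))) ∪
      ((hGE.toFinset ×ˢ hME.toFinset).image fun p => (ll p.1, p.2)))
  let K := K0.filter fun k => V.valuation (MM x t k.1 k.2) < 1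
  have hK1 : ∀ k ∈ K, V.valuation (MM x t k.1 k.2) < 1 := fun k hk => (Finset.mem_filter.1 hk).2
  have hK : ∀ k, k ∈ K0 → V.valuation (MM x t k.1 k.2) < 1 → k ∈ K := fun k h h' =>
    Finset.mem_filter.2 ⟨h, h'⟩
  have hMx : ∀ i, MM x t (Pi.single i 1) 0 = algebraMap E F (x i) := by
    intro i
    unfold MM
    rw [mo_zero, mul_one, mo_single]
  have hMt : ∀ i, MM x t 0 (Pi.single i 1) = t i := by
    intro i
    unfold MM
    rw [mo_zero, map_one, one_mul, mo_single]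
  have hKx : ∀ i, ((Pi.single i 1 : Fin s → ℤ), (0 : Fin q → ℤ)) ∈ K := by
    intro i
    refine hK _ (Finset.mem_union_left _ (Finset.mem_union_left _ (Finset.mem_image.2
      ⟨i, Finset.mem_univ _, rfl⟩))) ?_
    simp only
    rw [hMx, val_lt_one_iff]
    refine ⟨hP (hSt.reg.mem i), fun h => hxu i ?_⟩
    change algebraMap E F (x i)⁻¹ ∈ V
    rw [map_inv₀]
    exact h.2
  -- the torus coordinates
  have hrel' : ∀ i, V.valuation (t i ^ ee i) = V.valuation (MM x t (ll (g i)) (m₀ i)) := by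
    intro i
    obtain ⟨u0, u1, u2, h⟩ := hul (g i) (hg i)
    rw [hrel i]
    unfold MM
    nth_rewrite 1 [h]
    rw [map_mul, map_mul, map_mul, val_unit hP u0 u1 u2, one_mul, map_mul]
  let τ : Fin q → F := fun i => t i ^ ee i * (MM x t (ll (g i)) (m₀ i))⁻¹
  have hτ : ∀ i, τ i = t i ^ ee i * (MM x t (ll (g i)) (m₀ i))⁻¹ := fun i => rfl
  have hτ1 : ∀ i, V.valuation (τ i) = 1 := by
    intro i
    rw [hτ, map_mul, map_inv₀, hrel', mul_inv_cancel₀]
    exact (map_ne_zero _).2 (MM_ne hx0 ht0 _ _)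
  obtain ⟨L, M, hLM, hLK⟩ := exists_YK hell hx0 ht0 he0 hxi hmin hm₀ hrel' hτ K hK1 hKx
  have hD : Dt V t b x (Subring.closure ((A : Set E) ∪ T)) τ
      (fun j => MM x t (L j) (M j)) K :=
    { b1 := hb1
      hC := fun z hz => hP (le_lo _ _ hz)
      t1 := hτ1
      Y1 := hLM
      Y0 := fun j => MM_ne hx0 ht0 _ _
      K0 := hLK
      K1 := hK1 }
  have hval : ∀ a ∈ GE, ∀ m : Fin q → ℤ, V.valuation (algebraMap E F a * mo t m) =
      V.valuation (MM x t (ll a) m) := by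
    intro a ha m
    obtain ⟨u0, u1, u2, h⟩ := hul a ha
    nth_rewrite 1 [h]
    unfold MM
    rw [map_mul, map_mul, map_mul, val_unit hP u0 u1 u2, one_mul, map_mul]
  refine ⟨T, s, x, τ, fun i => uu (g i), fun j => MM x t (L j) (M j), K, hSt, hxu, hD, hKx, hGG,
    ?_, ?_, fun i => (hul _ (hg i)).2.1, ?_, ?_, ?_, fun j => ⟨_, _, rfl⟩, ?_⟩
  · intro a ha m hm h
    obtain ⟨u0, u1, u2, h'⟩ := hul a ha
    refine ⟨uu a, ll a, u1, h', hK _ ?_ (by rw [← hval a ha]; exact h)⟩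
    exact Finset.mem_union_right _ (Finset.mem_union_right _ (Finset.mem_image.2
      ⟨(a, m), Finset.mem_product.2 ⟨hGE.mem_toFinset.2 ha, hME.mem_toFinset.2 hm⟩, rfl⟩))
  · intro a ha m hm h
    obtain ⟨u0, u1, u2, h'⟩ := hul a ha
    obtain ⟨κ, hκ⟩ := val_one_mo hx0 ht0 hmin hxi hm₀ hτ hτ1 (ll a) m (by
      rw [← hval a ha]; exact h)
    refine ⟨uu a, κ, u1, ?_⟩
    rw [← hκ]
    nth_rewrite 1 [h']
    unfold MM
    rw [map_mul, mul_assoc]
  · intro i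
    obtain ⟨u0, u1, u2, h⟩ := hul _ (hg i)
    exact val_unit hP u0 u1 u2
  · intro i
    obtain ⟨u0, u1, u2, h⟩ := hul _ (hg i)
    have u0' : algebraMap E F (uu (g i)) ≠ 0 := (map_ne_zero _).2 u0
    have h2 : algebraMap E F (g i) * mo t (m₀ i) = algebraMap E F (uu (g i)) *
        MM x t (ll (g i)) (m₀ i) := by
      unfold MM
      nth_rewrite 1 [h]
      rw [map_mul, mul_assoc]
    rw [hτ, h2, mul_inv]
    field_simp
  · intro i
    refine ⟨-ll (g i), Pi.single i (ee i : ℤ) - m₀ i, ?_⟩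
    have h2 : MM x t 0 (Pi.single i (ee i : ℤ)) = t i ^ ee i := by
      unfold MM mo
      rw [Finset.prod_eq_single (s := Finset.univ) i]
      · rw [Pi.single_eq_same, zpow_natCast]
        simp
      · intro j _ hj
        rw [Pi.single_eq_of_ne hj, zpow_zero]
      · intro h; exact absurd (Finset.mem_univ _) h
    rw [hτ, ← h2, ← MM_neg, ← MM_add hx0 ht0, zero_add, ← sub_eq_add_neg]
  · intro i
    rcases lt_trichotomy (V.valuation (t i)) 1 with h | h | h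
    · have hk : ((0 : Fin s → ℤ), (Pi.single i 1 : Fin q → ℤ)) ∈ K := by
        refine hK _ (Finset.mem_union_left _ (Finset.mem_union_right _ (Finset.mem_image.2
          ⟨i, Finset.mem_univ _, rfl⟩))) ?_
        simp only
        rw [hMt]
        exact h
      obtain ⟨n, κ, hn, h2⟩ := hLK _ hk
      simp only at h2
      rw [hMt] at h2
      exact ⟨n, κ, Or.inl ⟨(V.valuation_le_one_iff _).1 h.le, h2⟩⟩
    · obtain ⟨k, hk⟩ := val_one_mo hx0 ht0 hmin hxi hm₀ hτ hτ1 0 (Pi.single i 1) (by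
        rw [hMt]
        exact h)
      rw [hMt] at hk
      refine ⟨0, k, Or.inl ⟨(V.valuation_le_one_iff _).1 h.le, ?_⟩⟩
      have h5 : (fun j : Fin s => (((0 : Fin s → ℕ) j : ℕ) : ℤ)) = 0 := by
        funext j
        simp
      rw [h5, mo_zero, one_mul]
      exact hk
    · have hMt' : MM x t 0 (-Pi.single i 1) = (t i)⁻¹ := by
        rw [← hMt i, ← MM_neg, neg_zero]
      have hk : ((0 : Fin s → ℤ), -(Pi.single i 1 : Fin q → ℤ)) ∈ K := by
        refine hK _ (Finset.mem_union_right _ (Finset.mem_union_left _ (Finset.mem_image.2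
          ⟨i, Finset.mem_univ _, rfl⟩))) ?_
        simp only
        rw [hMt', map_inv₀]
        exact inv_lt_one_of_one_lt₀ h
      obtain ⟨n, κ, hn, h2⟩ := hLK _ hk
      simp only at h2
      rw [hMt'] at h2
      refine ⟨n, κ, Or.inr ⟨fun h3 => ?_, h2⟩⟩
      exact absurd ((V.valuation_le_one_iff _).2 h3) (not_le.2 h)

end main

end Pool.Agent.H176.DT
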