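import Pool.Agent.H176.DT.C7

/-!
# The stages of key polynomials, continued
-/

set_option autoImplicit false
set_option linter.unusedVariables false
set_option linter.unusedSectionVars false

universe u

namespace Pool.Agent.H176.DT

open Pool.Agent.W418.LU2 IsLocalRing

section den

variable {E F : Type u} [Field E] [Field F] [Algebra E F] {V : ValuationSubring F}

lemma exists_dn {A : Subring E} (hM : ∀ z : E, ∃ a ∈ A, ∃ b ∈ A, b ≠ 0 ∧ z = a * b⁻¹)
    (f : Polynomial E) : ∃ d ∈ A, d ≠ 0 ∧ ∀ i, d * f.coeff i ∈ A := by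
  classical
  have key : ∀ S : Finset ℕ, ∃ d ∈ A, d ≠ 0 ∧ ∀ i ∈ S, d * f.coeff i ∈ A := by
    intro S
    induction S using Finset.induction_on with
    | empty => exact ⟨1, A.one_mem, one_ne_zero, fun i hi => absurd hi (Finset.notMem_empty _)⟩
    | insert i S hi ih =>
      obtain ⟨d, hd, hd0, h⟩ := ih
      obtain ⟨a, ha, b, hb, hb0, hab⟩ := hM (f.coeff i)
      refine ⟨d * b, A.mul_mem hd hb, mul_ne_zero hd0 hb0, fun j hj => ?_⟩
      rcases Finset.mem_insert.1 hj with rfl | hj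
      · rw [hab, mul_assoc, mul_comm a, mul_inv_cancel_left₀ hb0]
        exact A.mul_mem hd ha
      · rw [mul_right_comm]
        exact A.mul_mem (h j hj) hb
  obtain ⟨d, hd, hd0, h⟩ := key f.support
  refine ⟨d, hd, hd0, fun i => ?_⟩
  by_cases hi : i ∈ f.support
  · exact h i hi
  · rw [Polynomial.notMem_support_iff.1 hi, mul_zero]
    exact A.zero_mem

/-- The model. -/
abbrev AW (A : Subring E) (w : F) : Subring F :=
  Subring.closure ((A.map (algebraMap E F) : Set F) ∪ {w})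

lemma poly_den {A : Subring E} {P : Subring F} {s : ℕ} {Y : Fin s → F} (hY0 : ∀ j, Y j ≠ 0)
    {θ w : F} (hθ0 : θ ≠ 0) (hw : w = θ ∨ w = θ⁻¹) (hwm : PMon P Y w) {f : Polynomial E} {d : E}
    (hd : d ∈ A) (hdf : ∀ i, d * f.coeff i ∈ A) (hdm : PMon P Y (algebraMap E F d)) :
    ∃ c ∈ AW A w, PMon P Y c ∧ c * Polynomial.aeval θ f ∈ AW A w := by
  have hA : ∀ a ∈ A, algebraMap E F a ∈ AW A w := fun a ha =>
    Subring.subset_closure (Or.inl ⟨a, ha, rfl⟩)
  have hwA : w ∈ AW A w := Subring.subset_closure (Or.inr rfl)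
  rw [Polynomial.aeval_eq_sum_range]
  rcases hw with hw | hw
  · refine ⟨algebraMap E F d, hA d hd, hdm, ?_⟩
    rw [Finset.mul_sum]
    refine Subring.sum_mem _ fun i _ => ?_
    rw [Algebra.smul_def, ← mul_assoc, ← map_mul, ← hw]
    exact Subring.mul_mem _ (hA _ (hdf i)) (Subring.pow_mem _ hwA _)
  · refine ⟨algebraMap E F d * w ^ f.natDegree, Subring.mul_mem _ (hA d hd)
      (Subring.pow_mem _ hwA _), hdm.mul hY0 (hwm.pow hY0 _), ?_⟩
    rw [Finset.mul_sum]
    refine Subring.sum_mem _ fun i hi => ?_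
    have hi' : i ≤ f.natDegree := Nat.lt_succ_iff.1 (Finset.mem_range.1 hi)
    have h1 : algebraMap E F d * w ^ f.natDegree * (f.coeff i • θ ^ i) =
        algebraMap E F (d * f.coeff i) * w ^ (f.natDegree - i) := by
      have h2 : w ^ f.natDegree * θ ^ i = w ^ (f.natDegree - i) := by
        have h3 : w ^ f.natDegree = w ^ (f.natDegree - i) * w ^ i := by
          rw [← pow_add]
          congr 1
          omega
        rw [h3, mul_assoc, ← mul_pow, hw, inv_mul_cancel₀ hθ0, one_pow, mul_one]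
      rw [Algebra.smul_def, map_mul, ← h2]
      ring
    rw [h1]
    exact Subring.mul_mem _ (hA _ (hdf i)) (Subring.pow_mem _ hwA _)

end den

section main

variable {E F : Type u} [Field E] [Field F] [Algebra E F] {V : ValuationSubring F} {q r n : ℕ}
  {t : Fin q → F} {ee : Fin q → ℕ} {b : Fin r → F} {z : Fin n → F}
  {s : ℕ} {x : Fin s → E} {τ : Fin q → F} {Y : Fin s → F} {u : Fin q → E}
  {K : Finset ((Fin s → ℤ) × (Fin q → ℤ))} {A : Subring E} {GE : Set E}
  {ME : Set (Fin q → ℤ)} {g : Fin q → E} {m₀ : Fin q → Fin q → ℤ} {T : Set E}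

/-- The field generated by the coordinates. -/
lemma ConsK.hfr (H : ConsK V t ee (Fin.append b z) A GE ME g m₀ T x τ u Y K) {θ : F}
    (hgen : ∀ w : F, w ∈ Subfield.closure (Set.range (algebraMap E F) ∪ {θ}))
    (hθ : MonoIn V t z GE ME θ) (w : F) :
    ∃ a c : MvPolynomial (TT (r + n) q s) E, ph (E := E) (yy (Fin.append b z) τ Y) c ≠ 0 ∧
      w * ph (E := E) (yy (Fin.append b z) τ Y) c = ph (E := E) (yy (Fin.append b z) τ Y) a := by
  classical
  refine hfr_of (L := ⊤) (y := yy (Fin.append b z) τ Y) rfl (fun a => trivial) ?_ w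
  intro w _
  have hY : ∀ j, Y j ∈ Subfield.closure (Set.range (algebraMap E F) ∪
      Set.range (yy (Fin.append b z) τ Y)) :=
    fun j => Subfield.subset_closure (Or.inr ⟨Sum.inr (Sum.inr j), rfl⟩)
  have hτ : ∀ j, τ j ∈ Subfield.closure (Set.range (algebraMap E F) ∪
      Set.range (yy (Fin.append b z) τ Y)) :=
    fun j => Subfield.subset_closure (Or.inr ⟨Sum.inr (Sum.inl j), rfl⟩)
  have hz : ∀ j, z j ∈ Subfield.closure (Set.range (algebraMap E F) ∪
      Set.range (yy (Fin.append b z) τ Y)) :=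
    fun j => Subfield.subset_closure (Or.inr ⟨Sum.inl (Fin.natAdd r j), Fin.append_right _ _ _⟩)
  have ht : ∀ i, t i ∈ Subfield.closure (Set.range (algebraMap E F) ∪
      Set.range (yy (Fin.append b z) τ Y)) := by
    intro i
    obtain ⟨k, κ, h⟩ := H.gen i
    have h1 : mo Y (fun j => (k j : ℤ)) * mo τ κ ∈
        Subfield.closure (Set.range (algebraMap E F) ∪
          Set.range (yy (Fin.append b z) τ Y)) := by
      unfold mo
      exact mul_mem (prod_mem fun j _ => zpow_mem (hY j) _) (prod_mem fun j _ =>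
        zpow_mem (hτ j) _)
    rcases h with ⟨-, h⟩ | ⟨-, h⟩
    · rw [h]; exact h1
    · rw [← inv_inv (t i), h]; exact inv_mem h1
  have hmo : ∀ m, mo t m ∈ Subfield.closure (Set.range (algebraMap E F) ∪
      Set.range (yy (Fin.append b z) τ Y)) := by
    intro m
    unfold mo
    exact prod_mem fun i _ => zpow_mem (ht i) _
  have hE : ∀ a : E, algebraMap E F a ∈ Subfield.closure (Set.range (algebraMap E F) ∪
      Set.range (yy (Fin.append b z) τ Y)) := fun a => Subfield.subset_closure (Or.inl ⟨a, rfl⟩)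
  have hθ' : θ ∈ Subfield.closure (Set.range (algebraMap E F) ∪
      Set.range (yy (Fin.append b z) τ Y)) := by
    obtain ⟨a, m, v, ha0, hv, hv1, ha, ha', hm, hm', hr⟩ := hθ
    obtain ⟨k, a', μ, p, hw, -⟩ := hr
    rw [hv, hw]
    exact mul_mem (mul_mem (hE _) (hmo _)) (sum_mem fun i _ =>
      mul_mem (mul_mem (hE _) (hmo _)) (hz _))
  have h1 : Subfield.closure (Set.range (algebraMap E F) ∪ {θ}) ≤
      Subfield.closure (Set.range (algebraMap E F) ∪ Set.range (yy (Fin.append b z) τ Y)) := by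
    rw [Subfield.closure_le]
    rintro v (⟨a, rfl⟩ | rfl)
    · exact hE a
    · exact hθ'
  exact h1 (hgen w)

/-- The local rings agree. -/
lemma ConsK.PP_eq (H : ConsK V t ee (Fin.append b z) A GE ME g m₀ T x τ u Y K) {θ w : F}
    (hθ : MonoIn V t z GE ME θ) (hw : w = θ ∨ w = θ⁻¹) (hwV : w ∈ V) :
    PP V (AW A w) (algebraMap E F '' T ∪ Set.range (yy (Fin.append b z) τ Y)) =
      PF (Subring.closure ((A : Set E) ∪ T)) V (yy (Fin.append b z) τ Y) := by
  have hwm : w ∈ PF (Subring.closure ((A : Set E) ∪ T)) V (yy (Fin.append b z) τ Y) := by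
    rcases hw with rfl | rfl
    · exact H.mono_mem hθ hwV
    · exact H.mono_inv_mem hθ hwV
  refine lo_eq H.dat.le ?_ ?_
  · rw [Subring.closure_le]
    rintro v (⟨c, hc, rfl⟩ | hz)
    · have h1 : (Subring.closure ((A : Set E) ∪ T)).map (algebraMap E F) ≤
          Subring.closure ((AW A w : Set F) ∪ (algebraMap E F '' T ∪
            Set.range (yy (Fin.append b z) τ Y))) := by
        rw [RingHom.map_closure, Subring.closure_le]
        rintro v ⟨a, (ha | ha), rfl⟩
        · exact Subring.subset_closure (Or.inl (Subring.subset_closure (Or.inl ⟨a, ha, rfl⟩)))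
        · exact Subring.subset_closure (Or.inr (Or.inl ⟨a, ha, rfl⟩))
      exact h1 ⟨c, hc, rfl⟩
    · exact Subring.subset_closure (Or.inr (Or.inr hz))
  · rw [Subring.closure_le]
    rintro v (hz | hz | hz)
    · have h1 : AW A w ≤
          PF (Subring.closure ((A : Set E) ∪ T)) V (yy (Fin.append b z) τ Y) := by
        rw [Subring.closure_le]
        rintro v (⟨a, ha, rfl⟩ | hz)
        · exact le_lo _ _ (Subring.subset_closure (Or.inl ⟨a,
            Subring.subset_closure (Or.inl ha), rfl⟩))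
        · rw [Set.mem_singleton_iff.1 hz]
          exact hwm
      exact h1 hz
    · obtain ⟨a, ha, rfl⟩ := hz
      exact le_lo _ _ (Subring.subset_closure (Or.inl ⟨a, Subring.subset_closure (Or.inr ha),
        rfl⟩))
    · exact le_lo _ _ (Subring.subset_closure (Or.inr hz))

/-- The denominators. -/
lemma ConsK.den (H : ConsK V t ee (Fin.append b z) A GE ME g m₀ T x τ u Y K) {θ w : F}
    (hθ0 : θ ≠ 0) (hθ : MonoIn V t z GE ME θ) (hw : w = θ ∨ w = θ⁻¹)
    (ht0 : ∀ i, t i ≠ 0) (hb1 : ∀ j, V.valuation (b j) = 1) (hz1 : ∀ j, V.valuation (z j) = 1)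
    {ft : Fin q → Polynomial E} (hft : ∀ i, Polynomial.aeval θ (ft i) = t i)
    {fb : Fin r → Polynomial E} (hfb : ∀ i, Polynomial.aeval θ (fb i) = b i)
    {mz : Fin n → Fin q → ℤ} {fz : Fin n → Polynomial E}
    (hfz : ∀ i, Polynomial.aeval θ (fz i) = z i * mo t (mz i))
    {dn : Polynomial E → E} (hdn : ∀ f, dn f ∈ A ∧ dn f ≠ 0 ∧ ∀ i, dn f * f.coeff i ∈ A)
    (hdt : ∀ i, dn (ft i) ∈ GE) (hdb : ∀ i, dn (fb i) ∈ GE) (hdz : ∀ i, dn (fz i) ∈ GE) :
    ∃ β ∈ AW A w,
      PMon (PF (Subring.closure ((A : Set E) ∪ T)) V (yy (Fin.append b z) τ Y)) Y β ∧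
      (∀ v ∈ algebraMap E F '' T ∪ Set.range (yy (Fin.append b z) τ Y), β * v ∈ AW A w) ∧
      ∀ j, β * Y j ∈ AW A w := by
  classical
  obtain ⟨β, hβ, hβm, hβT, hβx⟩ := H.st.den
  have hβF : algebraMap E F β ∈ AW A w := Subring.subset_closure (Or.inl ⟨β, hβ, rfl⟩)
  have hβFm := H.dat.alg_PMon H.Kx hβm
  have hθm := H.mono_PMon hθ
  have hwm : PMon (PF (Subring.closure ((A : Set E) ∪ T)) V (yy (Fin.append b z) τ Y)) Y w := by
    rcases hw with rfl | rfl
    · exact hθm
    · exact hθm.inv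
  have hpd : ∀ f : Polynomial E, dn f ∈ GE → ∃ c ∈ AW A w,
      PMon (PF (Subring.closure ((A : Set E) ∪ T)) V (yy (Fin.append b z) τ Y)) Y c ∧
      c * Polynomial.aeval θ f ∈ AW A w := fun f hf =>
    poly_den H.dat.Y0 hθ0 hw hwm (hdn f).1 (hdn f).2.2 (H.dat.alg_PMon H.Kx (H.mon _ hf).1)
  have hx : ∀ i, Fra (AW A w)
      (PF (Subring.closure ((A : Set E) ∪ T)) V (yy (Fin.append b z) τ Y)) Y
      (algebraMap E F (x i)) := by
    intro i
    refine ⟨H.dat.alg_PMon H.Kx ?_, algebraMap E F β, hβF, hβFm, ?_⟩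
    · have h1 := PMon.of_mo (P := lo (V.comap (algebraMap E F)).toSubring
        (Subring.closure ((A : Set E) ∪ T))) (x := x) (Pi.single i 1)
      rwa [mo_single] at h1
    · rw [← map_mul]
      exact Subring.subset_closure (Or.inl ⟨_, hβx i, rfl⟩)
  have ht : ∀ i, Fra (AW A w)
      (PF (Subring.closure ((A : Set E) ∪ T)) V (yy (Fin.append b z) τ Y)) Y (t i) := by
    intro i
    have h1 := hpd (ft i) (hdt i)
    rw [hft] at h1
    exact ⟨H.t_PMon i, h1⟩
  have hb : ∀ i, Fra (AW A w)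
      (PF (Subring.closure ((A : Set E) ∪ T)) V (yy (Fin.append b z) τ Y)) Y (b i) := by
    intro i
    have h1 := hpd (fb i) (hdb i)
    rw [hfb] at h1
    have h2 := H.dat.b_mem (Fin.castAdd n i)
    rw [Fin.append_left] at h2
    exact ⟨H.unit_PMon h2 (hb1 i), h1⟩
  have hz : ∀ i, Fra (AW A w)
      (PF (Subring.closure ((A : Set E) ∪ T)) V (yy (Fin.append b z) τ Y)) Y (z i) := by
    intro i
    have h2 := H.dat.b_mem (Fin.natAdd r i)
    rw [Fin.append_right] at h2
    have h3 := H.unit_PMon h2 (hz1 i)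
    have h1 := hpd (fz i) (hdz i)
    rw [hfz] at h1
    have h4 : Fra (AW A w)
        (PF (Subring.closure ((A : Set E) ∪ T)) V (yy (Fin.append b z) τ Y)) Y
        (z i * mo t (mz i)) := ⟨h3.mul H.dat.Y0 (PMon.mo H.dat.Y0 H.t_PMon _), h1⟩
    have h5 := h4.mul H.dat.Y0 (Fra.inv H.dat.Y0 (mo_ne_zero ht0 _)
      (Fra.mo H.dat.Y0 ht0 ht (mz i)))
    rwa [mul_assoc, mul_inv_cancel₀ (mo_ne_zero ht0 _), mul_one] at h5
  have hMM : ∀ l m, Fra (AW A w)
      (PF (Subring.closure ((A : Set E) ∪ T)) V (yy (Fin.append b z) τ Y)) Y (MM x t l m) := by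
    intro l m
    unfold MM
    rw [map_mo]
    exact (Fra.mo H.dat.Y0 (fun i => (map_ne_zero _).2 (H.st.reg.ne i)) hx l).mul H.dat.Y0
      (Fra.mo H.dat.Y0 ht0 ht m)
  have hy : ∀ θ', ∃ d ∈ AW A w,
      PMon (PF (Subring.closure ((A : Set E) ∪ T)) V (yy (Fin.append b z) τ Y)) Y d ∧
      d * yy (Fin.append b z) τ Y θ' ∈ AW A w := by
    rintro (j | i | j)
    · change ∃ d ∈ AW A w,
        PMon (PF (Subring.closure ((A : Set E) ∪ T)) V (yy (Fin.append b z) τ Y)) Y d ∧
        d * Fin.append b z j ∈ AW A w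
      refine Fin.addCases (fun i => ?_) (fun i => ?_) j
      · rw [Fin.append_left]
        exact (hb i).2
      · rw [Fin.append_right]
        exact (hz i).2
    · obtain ⟨l, m, h⟩ := H.tM i
      have h1 := (hMM l m).2
      rw [← h] at h1
      exact h1
    · obtain ⟨l, m, h⟩ := H.YM j
      have h1 := (hMM l m).2
      rw [← h] at h1
      exact h1
  obtain ⟨δ, hδ, hδm, hδT⟩ := exists_den (A := AW A w) H.dat.Y0
    (T := algebraMap E F '' T ∪ Set.range (yy (Fin.append b z) τ Y))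
    ((H.st.fin.image _).union (Set.finite_range _)) (by
      rintro v (⟨a, ha, rfl⟩ | ⟨θ', rfl⟩)
      · refine ⟨algebraMap E F β, hβF, hβFm, ?_⟩
        rw [← map_mul]
        exact Subring.subset_closure (Or.inl ⟨_, hβT a ha, rfl⟩)
      · exact hy θ')
  exact ⟨δ, hδ, hδm, hδT, fun j => hδT _ (Or.inr ⟨Sum.inr (Sum.inr j), rfl⟩)⟩

end main

end Pool.Agent.H176.DT
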