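import Pool.Agent.H176.DT.C8

/-!
# The stages of key polynomials, continued
-/

set_option autoImplicit false
set_option linter.unusedVariables false
set_option linter.unusedSectionVars false

universe u

namespace Pool.Agent.H176.DT

open Pool.Agent.W418.LU2 IsLocalRing

open Polynomial in
/-- The transcendence degree of a simple transcendental extension. -/
theorem trdeg_one {E F : Type u} [Field E] [Field F] [Algebra E F] {θ : F}
    (hθ : Transcendental E θ)
    (hgen : ∀ w : F, w ∈ Subfield.closure (Set.range (algebraMap E F) ∪ {θ})) :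
    Algebra.trdeg E F = 1 := by
  have halg : Algebra.IsAlgebraic (Algebra.adjoin E ({θ} : Set F)) F := by
    refine ⟨fun w => ?_⟩
    obtain ⟨f, g, hg, h⟩ := gen_frac (hgen w)
    have hmem : ∀ p : E[X], aeval θ p ∈ Algebra.adjoin E ({θ} : Set F) := fun p =>
      aeval_mem_adjoin_singleton E θ
    refine ⟨Polynomial.C ⟨aeval θ g, hmem g⟩ * X - Polynomial.C ⟨aeval θ f, hmem f⟩, ?_, ?_⟩
    · intro h0
      have h1 := congrArg (fun p => Polynomial.coeff p 1) h0
      simp only [coeff_sub, coeff_C_mul, coeff_X_one, mul_one, coeff_zero] at h1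
      rw [coeff_C_of_ne_zero one_ne_zero, sub_zero] at h1
      exact hg (congrArg Subtype.val h1)
    · rw [map_sub, map_mul, aeval_X, aeval_C, aeval_C]
      change aeval θ g * w - aeval θ f = 0
      rw [← h]
      ring
  apply le_antisymm
  · have h1 := Algebra.IsAlgebraic.trdeg_le_cardinalMk E ({θ} : Set F)
    rwa [Cardinal.mk_singleton] at h1
  · rw [Cardinal.one_le_iff_ne_zero, trdeg_ne_zero_iff]
    exact ⟨θ, hθ⟩

section main

variable {E F : Type u} [Field E] [Field F] [Algebra E F] {V : ValuationSubring F} {q r n : ℕ}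
  {t : Fin (q + 1) → F} {ee : Fin (q + 1) → ℕ} {g : Fin (q + 1) → E}
  {m₀ : Fin (q + 1) → Fin (q + 1) → ℤ} {b : Fin r → F} {ff : Fin r → ℕ} {z : Fin n → F}

/-- The stages of a key polynomial. -/
theorem key_stage (hell : S_ell.{u}) (hind : S_ind.{u}) (hadj : S_adj.{u}) (halg : S_alg.{u})
    (hmap : S_map.{u}) (hext : S_ext.{u}) (hcut : S_cut.{u}) (hmin : S2_min.{u})
    (A : Subring E) (hM : Mod (V.comap (algebraMap E F)) A)
    (hSU : SU (V.comap (algebraMap E F)) A) (θ : F) (hθ : Transcendental E θ)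
    (hgen : ∀ w : F, w ∈ Subfield.closure (Set.range (algebraMap E F) ∪ {θ}))
    (hK : Key V θ t ee g m₀ b ff z) (w : F) (hw : w = θ ∨ w = θ⁻¹) (hwV : w ∈ V)
    (S : Set (Polynomial E)) (hS : S.Finite)
    (hSm : ∀ f ∈ S, Mono E V t z (Polynomial.aeval θ f)) (hX : Polynomial.X ∈ S) :
    ∃ (T : Set F) (s : ℕ) (Y : Fin s → F), St V (AW A w) T Y ∧
      ∀ f ∈ S, PMon (PP V (AW A w) T) Y (Polynomial.aeval θ f) := by
  classical
  have hθ0 : θ ≠ 0 := by
    rintro rfl
    exact hθ (isAlgebraic_zero)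
  -- the data
  choose h hsupp hhV hRb using hK.res
  choose pt hptV hRt using hK.tw
  choose pz hpzV hRz using hK.zw
  obtain ⟨d, c, hcV, hd⟩ := hK.om
  obtain ⟨a₀, ha₀0, ha₀1⟩ := hK.nt
  choose ft hft using hK.tp
  choose fb hfb using hK.bp
  choose mz fz hfz using hK.zp
  choose dn hdn using exists_dn (A := A) hM.2
  choose Gb Mb hGbf hMbf hGb0 hGb using fun j => (hRb j).exists_in
  choose Gt Mt hGtf hMtf hGt0 hGt using fun j => (hRt j).exists_in
  choose Gz Mz hGzf hMzf hGz0 hGz using fun j => (hRz j).exists_in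
  have hSm' : ∀ f : Polynomial E, ∃ (GE : Set E) (ME : Set (Fin (q + 1) → ℤ)), GE.Finite ∧
      ME.Finite ∧ (∀ a ∈ GE, a ≠ 0) ∧ (f ∈ S → MonoIn V t z GE ME (Polynomial.aeval θ f)) := by
    intro f
    by_cases hf : f ∈ S
    · obtain ⟨GE, ME, h1, h2, h3, h4⟩ := (hSm f hf).exists_in
      exact ⟨GE, ME, h1, h2, h3, fun _ => h4⟩
    · exact ⟨∅, ∅, Set.finite_empty, Set.finite_empty, fun a ha => ha.elim, fun h => absurd h hf⟩
  choose Gs Ms hGsf hMsf hGs0 hGs using hSm'
  let GE : Set E := {e : E | e ≠ 0} ∩ (((Set.range g ∪ {a₀}) ∪ (c '' Set.Iio (d + 1) ∪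
    ((⋃ i, {dn (ft i)}) ∪ ((⋃ i, {dn (fb i)}) ∪ (⋃ i, {dn (fz i)}))))) ∪
    (((⋃ j, ⋃ l, (h j l).coeff '' ((h j l).support : Set _)) ∪
      ((⋃ j, (pt j).coeff '' ((pt j).support : Set _)) ∪
        (⋃ j, (pz j).coeff '' ((pz j).support : Set _)))) ∪
      (((⋃ j, Gb j) ∪ ((⋃ j, Gt j) ∪ (⋃ j, Gz j))) ∪ (⋃ f ∈ S, Gs f))))
  let ME : Set (Fin (q + 1) → ℤ) := ((⋃ j, Mb j) ∪ ((⋃ j, Mt j) ∪ (⋃ j, Mz j))) ∪ (⋃ f ∈ S, Ms f)
  have hGE : GE.Finite := by
    refine Set.Finite.inter_of_right ?_ _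
    refine Set.Finite.union (Set.Finite.union ((Set.finite_range _).union
      (Set.finite_singleton _)) (Set.Finite.union ((Set.finite_Iio _).image _)
      (Set.Finite.union (Set.finite_iUnion fun _ => Set.finite_singleton _)
      (Set.Finite.union (Set.finite_iUnion fun _ => Set.finite_singleton _)
      (Set.finite_iUnion fun _ => Set.finite_singleton _)))))
      (Set.Finite.union (Set.Finite.union ?_ (Set.Finite.union ?_ ?_))
      (Set.Finite.union (Set.Finite.union ?_ (Set.Finite.union ?_ ?_)) ?_))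
    · exact Set.finite_iUnion fun j => Set.finite_iUnion fun l =>
        (Finset.finite_toSet _).image _
    · exact Set.finite_iUnion fun j => (Finset.finite_toSet _).image _
    · exact Set.finite_iUnion fun j => (Finset.finite_toSet _).image _
    · exact Set.finite_iUnion fun j => hGbf j
    · exact Set.finite_iUnion fun j => hGtf j
    · exact Set.finite_iUnion fun j => hGzf j
    · exact hS.biUnion fun f _ => hGsf f
  have hME : ME.Finite :=
    Set.Finite.union (Set.Finite.union (Set.finite_iUnion fun j => hMbf j)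
      (Set.Finite.union (Set.finite_iUnion fun j => hMtf j)
      (Set.finite_iUnion fun j => hMzf j))) (hS.biUnion fun f _ => hMsf f)
  obtain ⟨T, s, x, τ, u, Y, K, H⟩ := exists_consK (b := Fin.append b z) hell hind hK.t0 hK.e0
    (by
      intro j
      refine Fin.addCases (fun i => ?_) (fun i => ?_) j
      · rw [Fin.append_left]
        exact hK.b1 i
      · rw [Fin.append_right]
        exact hK.z1 i) hK.min A hSU GE hGE (fun a ha => ha.1) ME hME hK.m0 hK.rel
    (fun i => ⟨hK.g0 i, Or.inl (Or.inl (Or.inl ⟨i, rfl⟩))⟩)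
  have hC : ∀ e : E, (e ≠ 0 → e ∈ GE) → algebraMap E F e ∈ V →
      e ∈ PP (V.comap (algebraMap E F)) A T := by
    intro e he heV
    by_cases h0 : e = 0
    · rw [h0]
      exact Subring.zero_mem _
    · exact (H.mon e (he h0)).2 heV
  have hθm : MonoIn V t z GE ME θ := by
    have h1 := hGs _ hX
    rw [Polynomial.aeval_X] at h1
    exact h1.mono (GE' := GE) (ME' := ME) (fun a ha => ⟨hGs0 _ a ha, Or.inr (Or.inr (Or.inr
      (Set.mem_biUnion hX ha)))⟩) (fun m hm => Or.inr (Set.mem_biUnion hX hm))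
  have hSm2 : ∀ f ∈ S, MonoIn V t z GE ME (Polynomial.aeval θ f) := fun f hf =>
    (hGs _ hf).mono (GE' := GE) (ME' := ME) (fun a ha => ⟨hGs0 _ a ha, Or.inr (Or.inr (Or.inr
      (Set.mem_biUnion hf ha)))⟩) (fun m hm => Or.inr (Set.mem_biUnion hf hm))
  have hLb : ∀ j, Lf (Subring.closure ((A : Set E) ∪ T)) (Fin.append b z) τ Y V
      (b j ^ ff j + ∑ l, MvPolynomial.aeval b (h j l) * b j ^ (l : ℕ)) := fun j =>
    H.lf ((hGb j).mono (GE' := GE) (ME' := ME)
      (fun a ha => ⟨hGb0 j a ha, Or.inr (Or.inr (Or.inl (Or.inl (Set.mem_iUnion.2 ⟨j, ha⟩))))⟩)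
      (fun m hm => Or.inl (Or.inl (Set.mem_iUnion.2 ⟨j, hm⟩))))
  have hLt : ∀ j : Fin q, Lf (Subring.closure ((A : Set E) ∪ T)) (Fin.append b z) τ Y V
      (t j.castSucc ^ ee j.castSucc * (algebraMap E F (g j.castSucc) *
        mo t (m₀ j.castSucc))⁻¹ - MvPolynomial.aeval b (pt j)) := fun j =>
    H.lf ((hGt j).mono (GE' := GE) (ME' := ME)
      (fun a ha => ⟨hGt0 j a ha, Or.inr (Or.inr (Or.inl
        (Or.inr (Or.inl (Set.mem_iUnion.2 ⟨j, ha⟩)))))⟩)
      (fun m hm => Or.inl (Or.inr (Or.inl (Set.mem_iUnion.2 ⟨j, hm⟩)))))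
  have hLz : ∀ j : Fin n, Lf (Subring.closure ((A : Set E) ∪ T)) (Fin.append b z) τ Y V
      (z j - MvPolynomial.aeval b (pz j)) := fun j =>
    H.lf ((hGz j).mono (GE' := GE) (ME' := ME)
      (fun a ha => ⟨hGz0 j a ha, Or.inr (Or.inr (Or.inl
        (Or.inr (Or.inr (Set.mem_iUnion.2 ⟨j, ha⟩)))))⟩)
      (fun m hm => Or.inl (Or.inr (Or.inr (Set.mem_iUnion.2 ⟨j, hm⟩)))))
  have hreg := key_reg hadj halg hmap hext hcut hmin H.dat H.st.reg H.xu (fun a => by
      obtain ⟨c, hc, d, hd, hd0, rfl⟩ := hM.2 a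
      refine ⟨d, Subring.subset_closure (Or.inl hd), hd0, ?_⟩
      rw [mul_assoc, inv_mul_cancel₀ hd0, mul_one]
      exact Subring.subset_closure (Or.inl hc)) H.Kx hK.f0 hK.bm hsupp
    (fun j l m => hC _ (fun h0 => ⟨h0, Or.inr (Or.inl (Or.inl (Set.mem_iUnion.2 ⟨j,
      Set.mem_iUnion.2 ⟨l, m, MvPolynomial.mem_support_iff.2 h0, rfl⟩⟩)))⟩) (hhV j l m))
    hLb (u := fun i => u i.castSucc) (fun i => H.um _)
    (fun j m => hC _ (fun h0 => ⟨h0, Or.inr (Or.inl (Or.inr (Or.inl (Set.mem_iUnion.2 ⟨j,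
      m, MvPolynomial.mem_support_iff.2 h0, rfl⟩))))⟩) (hptV j m))
    (fun i => by
      have h1 := (hLt i).mul (H.um i.castSucc)
      rw [mul_sub, ← H.tau] at h1
      exact h1)
    (fun j m => hC _ (fun h0 => ⟨h0, Or.inr (Or.inl (Or.inr (Or.inr (Set.mem_iUnion.2 ⟨j,
      m, MvPolynomial.mem_support_iff.2 h0, rfl⟩))))⟩) (hpzV j m))
    hLz
    ⟨d, fun i => if i < d + 1 then c i * u (Fin.last q) ^ (d + 1 - i) else 0, fun i => by
      by_cases hi : i < d + 1
      · simp only [if_pos hi]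
        exact Subring.mul_mem _ (hC _ (fun h0 => ⟨h0, Or.inl (Or.inr (Or.inl ⟨i, hi, rfl⟩))⟩)
          (hcV i)) (Subring.pow_mem _ (H.um _) _)
      · simp only [if_neg hi]
        exact Subring.zero_mem _, by
      have h1 : τ (Fin.last q) ^ (d + 1) + ∑ i ∈ Finset.range (d + 1), algebraMap E F
          (if i < d + 1 then c i * u (Fin.last q) ^ (d + 1 - i) else 0) *
            τ (Fin.last q) ^ i = algebraMap E F (u (Fin.last q)) ^ (d + 1) *
          ((t (Fin.last q) ^ ee (Fin.last q) *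
          (algebraMap E F (g (Fin.last q)) * mo t (m₀ (Fin.last q)))⁻¹) ^ (d + 1) +
          ∑ i ∈ Finset.range (d + 1), algebraMap E F (c i) *
            (t (Fin.last q) ^ ee (Fin.last q) *
              (algebraMap E F (g (Fin.last q)) * mo t (m₀ (Fin.last q)))⁻¹) ^ i) := by
        rw [H.tau (Fin.last q), mul_pow, mul_add, Finset.mul_sum]
        congr 1
        refine Finset.sum_congr rfl fun i hi => ?_
        have hi' := Finset.mem_range.1 hi
        rw [if_pos hi', map_mul, map_pow, mul_pow]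
        have h2 : algebraMap E F (u (Fin.last q)) ^ (d + 1) =
            algebraMap E F (u (Fin.last q)) ^ (d + 1 - i) *
              algebraMap E F (u (Fin.last q)) ^ i := by
          rw [← pow_add]
          congr 1
          omega
        rw [h2]
        ring
      rw [h1, map_mul, map_pow, H.uV, one_pow, one_mul]
      exact hd⟩
    ⟨a₀, hC _ (fun h0 => ⟨h0, Or.inl (Or.inl (Or.inr rfl))⟩)
      ((V.valuation_le_one_iff _).1 ha₀1.le), ha₀0, ha₀1⟩
    (H.hfr hgen hθm) (trdeg_one hθ hgen)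
  have hPP := H.PP_eq hθm hw hwV
  refine ⟨algebraMap E F '' T ∪ Set.range (yy (Fin.append b z) τ Y), s, Y,
    ⟨(H.st.fin.image _).union (Set.finite_range _), ?_, ?_⟩, ?_⟩
  · rw [hPP]
    exact hreg
  · obtain ⟨β, hβ, hβm, hβT, hβY⟩ := H.den hθ0 hθm hw hK.t0 hK.b1 hK.z1 hft hfb hfz hdn
      (fun i => ⟨(hdn _).2.1, Or.inl (Or.inr (Or.inr (Or.inl (Set.mem_iUnion.2 ⟨i, rfl⟩))))⟩)
      (fun i => ⟨(hdn _).2.1, Or.inl (Or.inr (Or.inr (Or.inr (Or.inl
        (Set.mem_iUnion.2 ⟨i, rfl⟩)))))⟩)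
      (fun i => ⟨(hdn _).2.1, Or.inl (Or.inr (Or.inr (Or.inr (Or.inr
        (Set.mem_iUnion.2 ⟨i, rfl⟩)))))⟩)
    refine ⟨β, hβ, ?_, hβT, hβY⟩
    rw [hPP]
    exact hβm
  · intro f hf
    rw [hPP]
    exact H.mono_PMon (hSm2 f hf)

end main

end Pool.Agent.H176.DT
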