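import Pool.Agent.H176.DT.Stm4

/-!
# The calculus of digits (after Pool.Agent.Y761.DT2.Dig)
-/

set_option autoImplicit false

universe u

namespace Pool.Agent.H176.DT.Q1

open Pool.Agent.H176.DT Polynomial

section

variable {E F : Type u} [Field E] [Field F] [Algebra E F] {V : ValuationSubring F} {θ : F}
  {ϕ : E[X]}

theorem v_add (f g : E[X]) : V.valuation (aeval θ (f + g)) ≤
    max (V.valuation (aeval θ f)) (V.valuation (aeval θ g)) := by
  rw [map_add]
  exact V.valuation.map_add _ _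

theorem v_mul (f g : E[X]) : V.valuation (aeval θ (f * g)) =
    V.valuation (aeval θ f) * V.valuation (aeval θ g) := by
  rw [map_mul, map_mul]

theorem v_zero : V.valuation (aeval θ (0 : E[X])) = 0 := by
  rw [map_zero, map_zero]

theorem v_ne (hθ : aeval θ ϕ ≠ 0) (l : ℕ) :
    V.valuation (aeval θ (ϕ ^ l)) ≠ 0 := by
  rw [Ne, Valuation.zero_iff, map_pow]
  exact pow_ne_zero _ hθ

theorem dig_zero (ϕ : E[X]) (hϕ : ϕ ≠ 0) (ρ : V.ValueGroup) : Dig V θ ϕ ρ 0 := by
  refine ⟨0, fun _ => 0, ⟨fun k => ?_, by simp⟩, ?_, fun k h1 h2 => ?_⟩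
  · rw [degree_zero]
    exact bot_lt_iff_ne_bot.2 (degree_ne_bot.2 hϕ)
  · rw [v_zero]
    exact zero_le
  · omega

theorem dig_add {ρ : V.ValueGroup} {f g : E[X]} (hϕ : ϕ ≠ 0) (hf : Dig V θ ϕ ρ f)
    (hg : Dig V θ ϕ ρ g) : Dig V θ ϕ ρ (f + g) := by
  obtain ⟨N, d, hd, hd0, hd1⟩ := hf
  obtain ⟨M, e, he, he0, he1⟩ := hg
  have hbot : (0 : E[X]).degree < ϕ.degree := by
    rw [degree_zero]
    exact bot_lt_iff_ne_bot.2 (degree_ne_bot.2 hϕ)
  have hsum : ∀ (N : ℕ) (d : ℕ → E[X]) (K : ℕ), N ≤ K →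
      ∑ k ∈ Finset.range (K + 1), (if k ≤ N then d k else 0) * ϕ ^ k =
        ∑ k ∈ Finset.range (N + 1), d k * ϕ ^ k := by
    intro N d K hNK
    have h1 : Finset.range (N + 1) ⊆ Finset.range (K + 1) := by
      intro k hk
      rw [Finset.mem_range] at hk ⊢
      omega
    rw [← Finset.sum_subset h1]
    · refine Finset.sum_congr rfl fun k hk => ?_
      rw [Finset.mem_range] at hk
      rw [if_pos (by omega)]
    · intro k _ hk
      rw [Finset.mem_range] at hk
      rw [if_neg (by omega), zero_mul]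
  refine ⟨max N M, fun k => (if k ≤ N then d k else 0) + (if k ≤ M then e k else 0),
    ⟨fun k => ?_, ?_⟩, ?_, fun k h1 h2 => ?_⟩
  · refine (degree_add_le _ _).trans_lt (max_lt ?_ ?_)
    · split_ifs
      · exact hd.deg k
      · exact hbot
    · split_ifs
      · exact he.deg k
      · exact hbot
  · simp only [add_mul, Finset.sum_add_distrib]
    rw [hsum N d _ (le_max_left _ _), hsum M e _ (le_max_right _ _), ← hd.sum, ← he.sum]
  · refine (v_add _ _).trans (max_le ?_ ?_)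
    · rw [if_pos (Nat.zero_le _)]
      exact hd0
    · rw [if_pos (Nat.zero_le _)]
      exact he0
  · have hpos : 0 < ρ := by
      rcases le_max_iff.1 h2 with h | h
      · exact zero_le.trans_lt (hd1 k h1 h)
      · exact zero_le.trans_lt (he1 k h1 h)
    rw [add_mul]
    refine (v_add _ _).trans_lt (max_lt ?_ ?_)
    · split_ifs with h
      · exact hd1 k h1 h
      · rw [zero_mul, v_zero]
        exact hpos
    · split_ifs with h
      · exact he1 k h1 h
      · rw [zero_mul, v_zero]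
        exact hpos

theorem dig_sum {α : Type*} {ρ : V.ValueGroup} (hϕ : ϕ ≠ 0) (s : Finset α) (f : α → E[X])
    (hf : ∀ a ∈ s, Dig V θ ϕ ρ (f a)) : Dig V θ ϕ ρ (∑ a ∈ s, f a) := by
  classical
  induction s using Finset.induction_on with
  | empty =>
    rw [Finset.sum_empty]
    exact dig_zero ϕ hϕ ρ
  | insert a s ha ih =>
    rw [Finset.sum_insert ha]
    exact dig_add hϕ (hf a (Finset.mem_insert_self _ _))
      (ih fun b hb => hf b (Finset.mem_insert_of_mem hb))

theorem dig_term {n : ℕ} {β : Fin n → E[X]} (hθ : aeval θ ϕ ≠ 0) (hK : KP V θ ϕ β)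
    {τ : V.ValueGroup} (hτ : 0 < τ) {a b : E[X]} (ha : a.degree < ϕ.degree)
    (hb : b.degree < ϕ.degree) (l : ℕ) (h1 : V.valuation (aeval θ (a * b * ϕ ^ l)) ≤ τ)
    (h2 : 1 ≤ l → V.valuation (aeval θ (a * b * ϕ ^ l)) < τ) :
    Dig V θ ϕ τ (a * b * ϕ ^ l) := by
  have hϕ : ϕ ≠ 0 := hK.monic.ne_zero
  by_cases ha0 : a = 0
  · rw [ha0, zero_mul, zero_mul]
    exact dig_zero ϕ hϕ τ
  by_cases hb0 : b = 0
  · rw [hb0, mul_zero, zero_mul]
    exact dig_zero ϕ hϕ τ
  have hkey := hK.key a b ha hb ha0 hb0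
  set s := a * b /ₘ ϕ with hs
  set r := a * b %ₘ ϕ with hr
  have hab : r + ϕ * s = a * b := modByMonic_add_div (a * b) ϕ
  have hrd : r.degree < ϕ.degree := degree_modByMonic_lt _ hK.monic
  have hsd : s.degree < ϕ.degree := by
    have hm := hK.deg
    have h3 : s.natDegree = (a * b).natDegree - ϕ.natDegree := natDegree_divByMonic _ hK.monic
    have h4 : a.natDegree < ϕ.natDegree := natDegree_lt_natDegree ha0 ha
    have h5 : b.natDegree < ϕ.natDegree := natDegree_lt_natDegree hb0 hb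
    have h6 : (a * b).natDegree ≤ a.natDegree + b.natDegree := natDegree_mul_le
    by_cases hs0 : s = 0
    · rw [hs0, degree_zero]
      exact bot_lt_iff_ne_bot.2 (degree_ne_bot.2 hϕ)
    · rw [degree_eq_natDegree hs0, degree_eq_natDegree hϕ, Nat.cast_lt]
      omega
  have hvr : V.valuation (aeval θ r) ≤ V.valuation (aeval θ (a * b)) := by
    have h3 : r = a * b - s * ϕ := by rw [← hab]; ring
    rw [h3, map_sub]
    exact (V.valuation.map_sub _ _).trans (max_le le_rfl hkey.le)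
  have hvϕ : V.valuation (aeval θ (ϕ ^ l)) ≠ 0 := v_ne hθ l
  have hvϕ' : 0 < V.valuation (aeval θ (ϕ ^ l)) := zero_lt_iff.2 hvϕ
  have hvr' : V.valuation (aeval θ (r * ϕ ^ l)) ≤ V.valuation (aeval θ (a * b * ϕ ^ l)) := by
    rw [v_mul, v_mul (a * b)]
    exact mul_le_mul_left hvr _
  have hvs' : V.valuation (aeval θ (s * ϕ ^ (l + 1))) < τ := by
    have h3 : s * ϕ ^ (l + 1) = s * ϕ * ϕ ^ l := by ring
    refine lt_of_lt_of_le ?_ h1
    rw [h3, v_mul (s * ϕ), v_mul (a * b)]
    exact (mul_lt_mul_iff_left₀ hvϕ').2 hkey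
  refine ⟨l + 1, fun j => if j = l then r else if j = l + 1 then s else 0,
    ⟨fun j => ?_, ?_⟩, ?_, fun j hj1 hj2 => ?_⟩
  · split_ifs
    · exact hrd
    · exact hsd
    · rw [degree_zero]
      exact bot_lt_iff_ne_bot.2 (degree_ne_bot.2 hϕ)
  · rw [Finset.sum_range_succ, Finset.sum_range_succ, Finset.sum_eq_zero]
    · rw [if_pos rfl, if_neg (by omega), if_pos rfl, ← hab]
      ring
    · intro j hj
      rw [Finset.mem_range] at hj
      rw [if_neg (by omega), if_neg (by omega), zero_mul]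
  · dsimp only
    by_cases hl : 0 = l
    · subst hl
      rw [if_pos rfl]
      rw [pow_zero, mul_one] at h1
      exact hvr.trans h1
    · rw [if_neg hl, if_neg (by omega), v_zero]
      exact zero_le
  · dsimp only
    split_ifs with h3 h4
    · rw [h3]
      exact hvr'.trans_lt (h2 (by omega))
    · rw [h4]
      exact hvs'
    · rw [zero_mul, v_zero]
      exact hτ

end

/-- DT2-DIG -/
theorem dig : S4_dig.{u} := by
  intro E F _ _ _ V θ ϕ n β hθ hK
  have hϕ : ϕ ≠ 0 := hK.monic.ne_zero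
  have hbot : (0 : E[X]).degree < ϕ.degree := by
    rw [degree_zero]
    exact bot_lt_iff_ne_bot.2 (degree_ne_bot.2 hϕ)
  refine ⟨?_, ?_, ?_, ?_, ?_⟩
  · intro ρ f hf hv _
    refine ⟨0, fun k => if k = 0 then f else 0, ⟨fun k => ?_, by simp⟩, ?_, fun k h1 h2 => ?_⟩
    · split_ifs
      · exact hf
      · exact hbot
    · exact hv
    · omega
  · intro ρ f g hf hg
    exact dig_add hϕ hf hg
  · rintro ρ f ⟨N, d, hd, hd0, hd1⟩
    refine ⟨N, fun k => -d k, ⟨fun k => ?_, ?_⟩, ?_, fun k h1 h2 => ?_⟩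
    · rw [degree_neg]
      exact hd.deg k
    · rw [hd.sum]
      simp only [neg_mul, Finset.sum_neg_distrib]
    · rw [map_neg, Valuation.map_neg]
      exact hd0
    · rw [neg_mul, map_neg, Valuation.map_neg]
      exact hd1 k h1 h2
  · rintro ρ σ f g hρ hσ ⟨N, d, hd, hd0, hd1⟩ ⟨M, e, he, he0, he1⟩
    have hτ : 0 < ρ * σ := zero_lt_iff.2 (mul_ne_zero hρ hσ)
    have hprod : f * g = ∑ p ∈ Finset.range (N + 1) ×ˢ Finset.range (M + 1),
        d p.1 * e p.2 * ϕ ^ (p.1 + p.2) := by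
      rw [hd.sum, he.sum, Finset.sum_mul_sum, ← Finset.sum_product']
      refine Finset.sum_congr rfl fun p _ => ?_
      rw [pow_add]
      ring
    rw [hprod]
    refine dig_sum hϕ _ _ fun p hp => ?_
    rw [Finset.mem_product, Finset.mem_range, Finset.mem_range] at hp
    have hdle : V.valuation (aeval θ (d p.1 * ϕ ^ p.1)) ≤ ρ := by
      rcases Nat.eq_zero_or_pos p.1 with h | h
      · rw [h, pow_zero, mul_one]
        exact hd0
      · exact (hd1 _ h (by omega)).le
    have hele : V.valuation (aeval θ (e p.2 * ϕ ^ p.2)) ≤ σ := by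
      rcases Nat.eq_zero_or_pos p.2 with h | h
      · rw [h, pow_zero, mul_one]
        exact he0
      · exact (he1 _ h (by omega)).le
    have heq : V.valuation (aeval θ (d p.1 * e p.2 * ϕ ^ (p.1 + p.2))) =
        V.valuation (aeval θ (d p.1 * ϕ ^ p.1)) * V.valuation (aeval θ (e p.2 * ϕ ^ p.2)) := by
      rw [← v_mul]
      congr 2
      rw [pow_add]
      ring
    refine dig_term hθ hK hτ (hd.deg _) (he.deg _) _ ?_ ?_
    · rw [heq]
      exact mul_le_mul' hdle hele
    · intro hl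
      rw [heq]
      rcases Nat.eq_zero_or_pos p.1 with h | h
      · have h3 : 1 ≤ p.2 := by omega
        have h4 := he1 _ h3 (by omega)
        calc V.valuation (aeval θ (d p.1 * ϕ ^ p.1)) * V.valuation (aeval θ (e p.2 * ϕ ^ p.2))
            ≤ ρ * V.valuation (aeval θ (e p.2 * ϕ ^ p.2)) := mul_le_mul_left hdle _
          _ < ρ * σ := (mul_lt_mul_iff_right₀ (zero_lt_iff.2 hρ)).2 h4
      · have h4 := hd1 _ h (by omega)
        calc V.valuation (aeval θ (d p.1 * ϕ ^ p.1)) * V.valuation (aeval θ (e p.2 * ϕ ^ p.2))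
            ≤ V.valuation (aeval θ (d p.1 * ϕ ^ p.1)) * σ := mul_le_mul_right hele _
          _ < ρ * σ := (mul_lt_mul_iff_left₀ (zero_lt_iff.2 hσ)).2 h4
  · rintro ρ f ⟨N, d, hd, hd0, hd1⟩ hdvd
    refine ⟨N, d, hd, ?_, hd1⟩
    have h1 : ϕ ∣ d 0 := by
      have h2 : d 0 = f - ∑ k ∈ Finset.range N, d (k + 1) * ϕ ^ (k + 1) := by
        rw [hd.sum, Finset.sum_range_succ']
        simp
      rw [h2]
      refine dvd_sub hdvd (Finset.dvd_sum fun k _ => ?_)
      exact Dvd.dvd.mul_left (dvd_pow_self _ (Nat.succ_ne_zero k)) _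
    exact eq_zero_of_dvd_of_degree_lt h1 (hd.deg 0)

end Pool.Agent.H176.DT.Q1
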