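import Pool.Agent.H176.DT.D9

/-!
# The stages of algebraic elements, continued
-/

set_option autoImplicit false
set_option linter.unusedVariables false
set_option linter.unusedSectionVars false

universe u

namespace Pool.Agent.H176.DT

open Pool.Agent.W418.LU2 IsLocalRing

section small

variable {E F : Type u} [Field E] [Field F] [Algebra E F] (V : ValuationSubring F)

lemma exists_small (y : F) (halg : IsAlgebraic E y) :
    ∃ e : E, e ≠ 0 ∧ V.valuation (algebraMap E F e) ≤ 1 ∧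
      V.valuation (algebraMap E F e * y) ≤ 1 := by
  by_cases hy : y = 0
  · exact ⟨1, one_ne_zero, by rw [map_one, map_one], by rw [hy, mul_zero, map_zero]; exact zero_le⟩
  obtain ⟨d, n, a, hd, haV, ha0, h⟩ := exists_int V hy halg
  have h1 : V.valuation (algebraMap E F d * y) ≤ 1 :=
    (V.valuation_le_one_iff _).2 (mem_of_root V haV h)
  by_cases hd1 : V.valuation (algebraMap E F d) ≤ 1
  · exact ⟨d, hd, hd1, h1⟩
  · refine ⟨1, one_ne_zero, by rw [map_one, map_one], ?_⟩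
    rw [map_one, one_mul]
    push Not at hd1
    rw [map_mul] at h1
    by_contra hcon
    push Not at hcon
    have h2 : 1 < V.valuation (algebraMap E F d) * V.valuation y := by
      calc (1 : V.ValueGroup) = 1 * 1 := (one_mul 1).symm
        _ < V.valuation (algebraMap E F d) * V.valuation y :=
          mul_lt_mul'' hd1 hcon zero_le zero_le
    exact absurd h1 (not_le.2 h2)

lemma exists_small_fin [Algebra.IsAlgebraic E F] {k : ℕ} (y : Fin k → F) :
    ∃ e : E, e ≠ 0 ∧ ∀ i, V.valuation (algebraMap E F e * y i) ≤ 1 := by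
  classical
  choose e he0 he1 hey using fun i => exists_small (E := E) V (y i)
    (Algebra.IsAlgebraic.isAlgebraic (R := E) (y i))
  refine ⟨∏ i, e i, Finset.prod_ne_zero_iff.2 fun i _ => he0 i, fun i => ?_⟩
  rw [← Finset.mul_prod_erase _ _ (Finset.mem_univ i), map_mul (algebraMap E F), mul_right_comm,
    map_mul V.valuation]
  refine mul_le_one' (hey i) ?_
  rw [map_prod, map_prod]
  exact Finset.prod_le_one' fun j _ => he1 j

end small

section main

variable {E F : Type u} [Field E] [Field F] [Algebra E F] {V : ValuationSubring F} {q r n : ℕ}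
  {t : Fin q → F} {ee : Fin q → ℕ} {g : Fin q → E}
  {m₀ : Fin q → Fin q → ℤ} {b : Fin r → F} {ff : Fin r → ℕ} {z : Fin n → F}

lemma Rep.scale [Algebra.IsAlgebraic E F] {v : F} (h : Rep E V t z (fun _ => True) v) :
    ∃ d : E, d ≠ 0 ∧ Rep E V t z (· ≤ 1) (algebraMap E F d * v) := by
  obtain ⟨k, a, μ, p, hv, h⟩ := h
  obtain ⟨d, hd, hdy⟩ := exists_small_fin (E := E) V fun i => algebraMap E F (a i) * mo t (μ i)
  refine ⟨d, hd, k, fun i => d * a i, μ, p, ?_, fun i => ⟨mul_ne_zero hd (h i).1, ?_⟩⟩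
  · rw [hv, Finset.mul_sum]
    refine Finset.sum_congr rfl fun i _ => ?_
    rw [map_mul]
    ring
  · have h1 := hdy i
    rw [← mul_assoc, ← map_mul] at h1
    exact h1

lemma KeyF.fin {P : Type} [Fintype P] {z : P → F} (e : P ≃ Fin n)
    (h : KeyF V t ee g m₀ b ff z) : KeyF V t ee g m₀ b ff (fun i => z (e.symm i)) := by
  have hf : ∀ {Q : V.ValueGroup → Prop} {w : F}, Rep E V t z Q w →
      Rep E V t (fun i => z (e.symm i)) Q w := by
    rintro Q w ⟨k, a, μ, p, hw, h⟩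
    refine ⟨k, a, μ, fun i => e (p i), ?_, h⟩
    rw [hw]
    exact Finset.sum_congr rfl fun i _ => by simp only [e.symm_apply_apply]
  refine ⟨h.t0, h.e0, h.g0, h.b1, h.f0, fun i => h.z1 _, h.m0, h.rel, h.min, h.bm, ?_, ?_,
    ?_, fun v => hf (h.all v)⟩
  · intro j
    obtain ⟨k, h1, h2, h3⟩ := h.res j
    exact ⟨k, h1, h2, hf h3⟩
  · intro j
    obtain ⟨k, h1, h3⟩ := h.tw j
    exact ⟨k, h1, hf h3⟩
  · intro j
    obtain ⟨k, h1, h3⟩ := h.zw (e.symm j)
    exact ⟨k, h1, hf h3⟩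

/-- The step for algebraic elements. -/
theorem F_SU (hfac : S_fac.{u}) (href : S_ref.{u}) (hell : S_ell.{u}) (hind : S_ind.{u})
    (hadj : S_adj.{u}) (halg : S_alg.{u}) (hmap : S_map.{u}) (hext : S_ext.{u})
    (hcut : S_cut.{u}) [Algebra.IsAlgebraic E F]
    (A : Subring E) (hM : Mod (V.comap (algebraMap E F)) A)
    (hSU : SU (V.comap (algebraMap E F)) A) (hK : KeyF V t ee g m₀ b ff z) :
    SU V (AF A V t (Fin.append b z)) := by
  classical
  intro G hG hG0
  -- the data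
  choose h hsupp hhV hRb using hK.res
  choose pt hptV hRt using hK.tw
  choose pz hpzV hRz using hK.zw
  choose dd hdd0 hRd using fun v : F => (hK.all v).scale
  choose Gb Mb hGbf hMbf hGb0 hGb using fun j => (hRb j).exists_in
  choose Gt Mt hGtf hMtf hGt0 hGt using fun j => (hRt j).exists_in
  choose Gz Mz hGzf hMzf hGz0 hGz using fun j => (hRz j).exists_in
  choose Gs Ms hGsf hMsf hGs0 hGs using fun v => (hRd v).exists_in
  let GG : Set F := G ∪ (fun v => v⁻¹) '' G
  have hGG : GG.Finite := hG.union (hG.image _)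
  let GE : Set E := {e : E | e ≠ 0} ∩ ((Set.range g ∪ dd '' GG) ∪
    (((⋃ j, ⋃ l, (h j l).coeff '' ((h j l).support : Set _)) ∪
      ((⋃ j, (pt j).coeff '' ((pt j).support : Set _)) ∪
        (⋃ j, (pz j).coeff '' ((pz j).support : Set _)))) ∪
      (((⋃ j, Gb j) ∪ ((⋃ j, Gt j) ∪ (⋃ j, Gz j))) ∪ (⋃ f ∈ GG, Gs f))))
  let ME : Set (Fin q → ℤ) := ((⋃ j, Mb j) ∪ ((⋃ j, Mt j) ∪ (⋃ j, Mz j))) ∪ (⋃ f ∈ GG, Ms f)
  have hGE : GE.Finite := by
    refine Set.Finite.inter_of_right ?_ _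
    refine Set.Finite.union ((Set.finite_range _).union (hGG.image _))
      (Set.Finite.union (Set.Finite.union ?_ (Set.Finite.union ?_ ?_))
      (Set.Finite.union (Set.Finite.union ?_ (Set.Finite.union ?_ ?_)) ?_))
    · exact Set.finite_iUnion fun j => Set.finite_iUnion fun l =>
        (Finset.finite_toSet _).image _
    · exact Set.finite_iUnion fun j => (Finset.finite_toSet _).image _
    · exact Set.finite_iUnion fun j => (Finset.finite_toSet _).image _
    · exact Set.finite_iUnion fun j => hGbf j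
    · exact Set.finite_iUnion fun j => hGtf j
    · exact Set.finite_iUnion fun j => hGzf j
    · exact hGG.biUnion fun f _ => hGsf f
  have hME : ME.Finite :=
    Set.Finite.union (Set.Finite.union (Set.finite_iUnion fun j => hMbf j)
      (Set.Finite.union (Set.finite_iUnion fun j => hMtf j)
      (Set.finite_iUnion fun j => hMzf j))) (hGG.biUnion fun f _ => hMsf f)
  obtain ⟨T, s, x, τ, u, Y, K, H⟩ := exists_consK (b := Fin.append b z) hell hind hK.t0 hK.e0
    (by
      intro j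
      refine Fin.addCases (fun i => ?_) (fun i => ?_) j
      · rw [Fin.append_left]
        exact hK.b1 i
      · rw [Fin.append_right]
        exact hK.z1 i) hK.min A hSU GE hGE (fun a ha => ha.1) ME hME hK.m0 hK.rel
    (fun i => ⟨hK.g0 i, Or.inl (Or.inl ⟨i, rfl⟩)⟩)
  have hC : ∀ e : E, (e ≠ 0 → e ∈ GE) → algebraMap E F e ∈ V →
      e ∈ PP (V.comap (algebraMap E F)) A T := by
    intro e he heV
    by_cases h0 : e = 0
    · rw [h0]
      exact Subring.zero_mem _
    · exact (H.mon e (he h0)).2 heV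
  have hLs : ∀ v ∈ GG, RepIn V t z (· ≤ 1) GE ME (algebraMap E F (dd v) * v) := fun v hv =>
    (hGs v).mono (GE' := GE) (ME' := ME) (fun a ha => ⟨hGs0 _ a ha, Or.inr (Or.inr (Or.inr
      (Set.mem_biUnion hv ha)))⟩) (fun m hm => Or.inr (Set.mem_biUnion hv hm))
  have hLb : ∀ j, Lf (Subring.closure ((A : Set E) ∪ T)) (Fin.append b z) τ Y V
      (b j ^ ff j + ∑ l, MvPolynomial.aeval b (h j l) * b j ^ (l : ℕ)) := fun j =>
    H.lf ((hGb j).mono (GE' := GE) (ME' := ME)
      (fun a ha => ⟨hGb0 j a ha, Or.inr (Or.inr (Or.inl (Or.inl (Set.mem_iUnion.2 ⟨j, ha⟩))))⟩)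
      (fun m hm => Or.inl (Or.inl (Set.mem_iUnion.2 ⟨j, hm⟩))))
  have hLt : ∀ j : Fin q, Lf (Subring.closure ((A : Set E) ∪ T)) (Fin.append b z) τ Y V
      (t j ^ ee j * (algebraMap E F (g j) * mo t (m₀ j))⁻¹ - MvPolynomial.aeval b (pt j)) :=
    fun j => H.lf ((hGt j).mono (GE' := GE) (ME' := ME)
      (fun a ha => ⟨hGt0 j a ha, Or.inr (Or.inr (Or.inl
        (Or.inr (Or.inl (Set.mem_iUnion.2 ⟨j, ha⟩)))))⟩)
      (fun m hm => Or.inl (Or.inr (Or.inl (Set.mem_iUnion.2 ⟨j, hm⟩)))))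
  have hLz : ∀ j : Fin n, Lf (Subring.closure ((A : Set E) ∪ T)) (Fin.append b z) τ Y V
      (z j - MvPolynomial.aeval b (pz j)) := fun j =>
    H.lf ((hGz j).mono (GE' := GE) (ME' := ME)
      (fun a ha => ⟨hGz0 j a ha, Or.inr (Or.inr (Or.inl
        (Or.inr (Or.inr (Set.mem_iUnion.2 ⟨j, ha⟩)))))⟩)
      (fun m hm => Or.inl (Or.inr (Or.inr (Set.mem_iUnion.2 ⟨j, hm⟩)))))
  have hreg := reg_F hadj halg hmap hext hcut H.dat H.st.reg H.xu (fun a => by
      obtain ⟨c, hc, d, hd, hd0, rfl⟩ := hM.2 a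
      refine ⟨d, Subring.subset_closure (Or.inl hd), hd0, ?_⟩
      rw [mul_assoc, inv_mul_cancel₀ hd0, mul_one]
      exact Subring.subset_closure (Or.inl hc)) H.Kx hK.f0 hK.bm hsupp
    (fun j l m => hC _ (fun h0 => ⟨h0, Or.inr (Or.inl (Or.inl (Set.mem_iUnion.2 ⟨j,
      Set.mem_iUnion.2 ⟨l, m, MvPolynomial.mem_support_iff.2 h0, rfl⟩⟩)))⟩) (hhV j l m))
    hLb (u := u) (fun i => H.um _)
    (fun j m => hC _ (fun h0 => ⟨h0, Or.inr (Or.inl (Or.inr (Or.inl (Set.mem_iUnion.2 ⟨j,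
      m, MvPolynomial.mem_support_iff.2 h0, rfl⟩))))⟩) (hptV j m))
    (fun i => by
      have h1 := (hLt i).mul (H.um i)
      rw [mul_sub, ← H.tau] at h1
      exact h1)
    (fun j m => hC _ (fun h0 => ⟨h0, Or.inr (Or.inl (Or.inr (Or.inr (Set.mem_iUnion.2 ⟨j,
      m, MvPolynomial.mem_support_iff.2 h0, rfl⟩))))⟩) (hpzV j m))
    hLz (H.hfrF hK.all) (_root_.trdeg_eq_zero)
  have hPP := H.PP_eqF
  have hSt : St V (AF A V t (Fin.append b z)) (algebraMap E F '' T ∪
      Set.range (yy (Fin.append b z) τ Y)) Y := by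
    refine ⟨(H.st.fin.image _).union (Set.finite_range _), ?_, ?_⟩
    · rw [hPP]
      exact hreg
    · obtain ⟨β, hβ, hβm, hβT, hβY⟩ := H.denF hK.t0
      refine ⟨β, hβ, ?_, hβT, hβY⟩
      rw [hPP]
      exact hβm
  have hddm : ∀ v ∈ GG, PMon (PF (Subring.closure ((A : Set E) ∪ T)) V
      (yy (Fin.append b z) τ Y)) Y (algebraMap E F (dd v)) := fun v hv =>
    H.dat.alg_PMon H.Kx (H.mon _ ⟨hdd0 v, Or.inl (Or.inr ⟨v, hv, rfl⟩)⟩).1
  have hmon : ∀ v ∈ G, PMon (PP V (AF A V t (Fin.append b z)) (algebraMap E F '' T ∪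
      Set.range (yy (Fin.append b z) τ Y))) Y v := by
    intro v hv
    rw [hPP]
    have hv0 := hG0 v hv
    have hv1 : v ∈ GG := Or.inl hv
    have hv2 : v⁻¹ ∈ GG := Or.inr ⟨v, hv, rfl⟩
    have h1 := hfac hreg _ _ (H.rep_mem (hLs v hv1)) (H.rep_mem (hLs v⁻¹ hv2)) (by
      rw [mul_mul_mul_comm, mul_inv_cancel₀ hv0, mul_one]
      exact (hddm v hv1).mul H.dat.Y0 (hddm v⁻¹ hv2))
    have h2 := (hddm v hv1).inv.mul H.dat.Y0 h1
    rwa [← mul_assoc, inv_mul_cancel₀ ((map_ne_zero _).2 (hdd0 v)), one_mul] at h2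
  obtain ⟨T', x', hT', hSt', -, -, hmon', hmem⟩ := href V _ _ Y hSt G hG hmon
  exact ⟨T', s, x', hSt', fun z hz => ⟨hmon' z (hmon z hz), hmem z hz⟩⟩

end main

end Pool.Agent.H176.DT
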