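import Pool.Agent.H176.DT.D1
import Pool.Agent.H176.DT.D2
import Pool.Agent.H176.DT.D3
import Pool.Agent.H176.DT.D4

/-!
# The relation of the key polynomial of an algebraic element
-/

set_option autoImplicit false
set_option linter.unusedVariables false
set_option linter.unusedSectionVars false

universe u

namespace Pool.Agent.H176.DT

open Pool.Agent.W418.LU2 IsLocalRing Polynomial

section

variable {E F : Type u} [Field E] [Field F] [Algebra E F] {V : ValuationSubring F} {θ : F}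
  {ϕ : E[X]} {n : ℕ} {β : Fin n → E[X]} {M : Type u} [Field M] [Algebra E M]
  {W : ValuationSubring M} {π : E[X] →ₐ[E] M}

lemma KP.deg0 (hK : KP V θ ϕ β) : (0 : E[X]).degree < ϕ.degree := by
  rw [degree_zero]
  exact bot_lt_iff_ne_bot.2 (degree_ne_bot.2 hK.monic.ne_zero)

lemma KP.ne (hK : KP V θ ϕ β) {f : E[X]} (hf : f.degree < ϕ.degree) (hf0 : f ≠ 0) :
    aeval θ f ≠ 0 := by
  intro h
  have h1 := hK.key f f hf hf hf0 hf0
  have h2 : V.valuation (aeval θ (f * f)) = 0 := by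
    rw [map_mul (aeval θ), h, mul_zero, map_zero]
  rw [h2] at h1
  exact not_lt_zero h1

lemma dig_one_term (hK : KP V θ ϕ β) {ρ : V.ValueGroup} {a : E[X]} (ha : a.degree < ϕ.degree)
    {k : ℕ} (hk : 1 ≤ k) (h : V.valuation (aeval θ (a * ϕ ^ k)) < ρ) :
    Dig V θ ϕ ρ (a * ϕ ^ k) := by
  have hρ : 0 < ρ := zero_le.trans_lt h
  refine ⟨k, fun j => if j = k then a else 0, ⟨fun j => ?_, ?_⟩, ?_, fun j h1 h2 => ?_⟩
  · split_ifs
    · exact ha
    · exact hK.deg0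
  · rw [Finset.sum_range_succ, if_pos rfl, Finset.sum_eq_zero, zero_add]
    intro j hj
    rw [Finset.mem_range] at hj
    rw [if_neg (by omega), zero_mul]
  · dsimp only
    rw [if_neg (by omega), map_zero, map_zero]
    exact zero_le
  · dsimp only
    split_ifs with h3
    · rw [h3]
      exact h
    · rw [zero_mul, map_zero, map_zero]
      exact hρ

/-- The relation of the key polynomial. -/
theorem last_rel (hθ : aeval θ ϕ ≠ 0) (hK : KP V θ ϕ β) (hR : Rsd V θ ϕ W π)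
    {N : ℕ} {d : ℕ → E[X]} (hd : ∀ k, (d k).degree < ϕ.degree) (hd1 : d 1 ≠ 0)
    (hsum : aeval θ (∑ k ∈ Finset.range (N + 2), d k * ϕ ^ k) = 0)
    (hlt : ∀ k, 2 ≤ k → k < N + 2 →
      V.valuation (aeval θ (d k * ϕ ^ k)) < V.valuation (aeval θ (d 1 * ϕ))) :
    ∃ c : E[X], c.degree < ϕ.degree ∧ c ≠ 0 ∧
      V.valuation (aeval θ c) = V.valuation (aeval θ ϕ) ∧
      ∃ (N' : ℕ) (e : ℕ → E[X]) (f : E[X]), Exn ϕ N' e f ∧ aeval θ f = aeval θ c - aeval θ ϕ ∧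
        ∀ k < N', V.valuation (aeval θ (e k * ϕ ^ k)) < V.valuation (aeval θ ϕ) := by
  classical
  obtain ⟨Dsmall, Dadd, Dneg, Dmul, Ddvd⟩ := Q1.dig V θ ϕ n β hθ hK
  have hϕ0 : ϕ ≠ 0 := hK.monic.ne_zero
  set S : E[X] := ∑ k ∈ Finset.range N, d (k + 2) * ϕ ^ (k + 2) with hS
  have hsplit : ∑ k ∈ Finset.range (N + 2), d k * ϕ ^ k = S + d 1 * ϕ + d 0 := by
    rw [Finset.sum_range_succ', Finset.sum_range_succ', pow_zero, mul_one, zero_add, pow_one]
  rw [hsplit] at hsum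
  -- the values
  have hv1 : V.valuation (aeval θ (d 1)) ≠ 0 := (Valuation.ne_zero_iff _).2 (hK.ne (hd 1) hd1)
  have hvϕ : V.valuation (aeval θ ϕ) ≠ 0 := (Valuation.ne_zero_iff _).2 hθ
  have hv1ϕ : V.valuation (aeval θ (d 1 * ϕ)) =
      V.valuation (aeval θ (d 1)) * V.valuation (aeval θ ϕ) := by
    rw [map_mul (aeval θ), map_mul]
  have hv1ϕ0 : V.valuation (aeval θ (d 1 * ϕ)) ≠ 0 := by
    rw [hv1ϕ]
    exact mul_ne_zero hv1 hvϕ
  have hvS : V.valuation (aeval θ S) < V.valuation (aeval θ (d 1 * ϕ)) := by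
    rw [hS, map_sum]
    refine Valuation.map_sum_lt _ hv1ϕ0 fun k hk => ?_
    have := Finset.mem_range.1 hk
    exact hlt (k + 2) (by omega) (by omega)
  have hv0 : V.valuation (aeval θ (d 0)) = V.valuation (aeval θ (d 1 * ϕ)) := by
    have h1 : aeval θ (d 0) = -(aeval θ S + aeval θ (d 1 * ϕ)) := by
      rw [map_add, map_add] at hsum
      linear_combination hsum
    rw [h1, Valuation.map_neg, add_comm]
    exact Valuation.map_add_eq_of_lt_left _ hvS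
  have hd0 : d 0 ≠ 0 := by
    intro h
    rw [h, map_zero, map_zero] at hv0
    exact hv1ϕ0 hv0.symm
  have hπ : ∀ {f : E[X]}, f.degree < ϕ.degree → f ≠ 0 → π f ≠ 0 := fun hf hf0 h =>
    hK.monic.not_dvd_of_degree_lt hf0 hf ((hR.ker _).1 h)
  obtain ⟨c', hc'd, hc'π⟩ := hR.sur ((π (d 1))⁻¹)
  obtain ⟨c, hcd, hcπ⟩ := hR.sur (-(π (d 0) * (π (d 1))⁻¹))
  have hπ1 := hπ (hd 1) hd1
  have hπ0 := hπ (hd 0) hd0
  have hval : ∀ {f g h : E[X]}, f.degree < ϕ.degree → g.degree < ϕ.degree → h.degree < ϕ.degree →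
      π f * π g = π h → V.valuation (aeval θ f) * V.valuation (aeval θ g) =
        V.valuation (aeval θ h) := by
    intro f g h hf hg hh hfg
    have h1 := Q3.u_mul_eq hR hK (π f) (π g)
    rw [hfg, Q3.u_of hR hh rfl, Q3.u_of hR hf rfl, Q3.u_of hR hg rfl] at h1
    exact h1.symm
  have h1d : (1 : E[X]).degree < ϕ.degree := by
    rw [degree_one]
    exact natDegree_pos_iff_degree_pos.1 hK.deg
  have hv' : V.valuation (aeval θ c') * V.valuation (aeval θ (d 1)) = 1 := by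
    have h1 := hval hc'd (hd 1) h1d (by rw [hc'π, inv_mul_cancel₀ hπ1, map_one])
    rw [h1, map_one, map_one]
  have hvc : V.valuation (aeval θ c) * V.valuation (aeval θ (d 1)) =
      V.valuation (aeval θ (d 0)) := by
    have h1 := hval hcd (hd 1) (h := -d 0) (by rw [degree_neg]; exact hd 0) (by
      rw [hcπ, neg_mul, mul_assoc, inv_mul_cancel₀ hπ1, mul_one, map_neg])
    rw [h1, map_neg, Valuation.map_neg]
  have hvcϕ : V.valuation (aeval θ c) = V.valuation (aeval θ ϕ) := by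
    rw [hv0, hv1ϕ, mul_comm] at hvc
    exact mul_left_cancel₀ hv1 hvc
  have hc0 : c ≠ 0 := by
    rintro rfl
    rw [map_zero, map_zero] at hvcϕ
    exact hvϕ hvcϕ.symm
  have hc'0 : V.valuation (aeval θ c') ≠ 0 := by
    intro h
    rw [h, zero_mul] at hv'
    exact zero_ne_one hv'
  -- the two relations
  obtain ⟨s', hs'⟩ : ϕ ∣ c' * d 1 - 1 := by
    rw [← hR.ker, map_sub, map_mul, hc'π, inv_mul_cancel₀ hπ1, map_one, sub_self]
  obtain ⟨s, hs⟩ : ϕ ∣ c * d 1 + d 0 := by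
    rw [← hR.ker, map_add, map_mul, hcπ, neg_mul, mul_assoc, inv_mul_cancel₀ hπ1, mul_one,
      neg_add_cancel]
  have D1 : Dig V θ ϕ (V.valuation (aeval θ (d 1))) (d 1) := Dsmall _ _ (hd 1) le_rfl hv1
  have Dc' : Dig V θ ϕ (V.valuation (aeval θ c')) c' := Dsmall _ _ hc'd le_rfl hc'0
  have Dc : Dig V θ ϕ (V.valuation (aeval θ ϕ)) c := Dsmall _ _ hcd hvcϕ.le hvϕ
  have D0 : Dig V θ ϕ (V.valuation (aeval θ (d 1 * ϕ))) (d 0) :=
    Dsmall _ _ (hd 0) hv0.le hv1ϕ0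
  have Ds' : Dig V θ ϕ 1 (ϕ * s') := by
    rw [← hs', sub_eq_add_neg]
    refine Dadd _ _ _ ?_ (Dneg _ _ (Dsmall _ _ h1d (by rw [map_one, map_one]) one_ne_zero))
    rw [← hv']
    exact Dmul _ _ _ _ hc'0 hv1 Dc' D1
  have Ds : Dig V θ ϕ (V.valuation (aeval θ (d 1 * ϕ))) (ϕ * s) := by
    rw [← hs]
    refine Dadd _ _ _ ?_ D0
    rw [hv1ϕ, mul_comm (V.valuation (aeval θ (d 1)))]
    exact Dmul _ _ _ _ hvϕ hv1 Dc D1
  have Ds'ϕ : Dig V θ ϕ (V.valuation (aeval θ ϕ)) (ϕ * s' * ϕ) := by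
    obtain ⟨N', e, he, he0, hek⟩ := Ddvd _ _ Ds' (dvd_mul_right _ _)
    rw [he.sum, Finset.sum_mul]
    refine Q1.dig_sum hϕ0 _ _ fun k hk => ?_
    have h1 : e k * ϕ ^ k * ϕ = e k * ϕ ^ (k + 1) := by rw [pow_succ, mul_assoc]
    rw [h1]
    refine dig_one_term hK (he.deg k) (by omega) ?_
    rcases Nat.eq_zero_or_pos k with rfl | hk0
    · rw [he0, zero_mul, map_zero, map_zero]
      exact zero_lt_iff.2 hvϕ
    · have h2 := hek k hk0 (Nat.lt_succ_iff.1 (Finset.mem_range.1 hk))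
      rw [← h1, map_mul (aeval θ), map_mul]
      calc V.valuation (aeval θ (e k * ϕ ^ k)) * V.valuation (aeval θ ϕ)
          < 1 * V.valuation (aeval θ ϕ) := (mul_lt_mul_iff_left₀ (zero_lt_iff.2 hvϕ)).2 h2
        _ = V.valuation (aeval θ ϕ) := one_mul _
  have DS : Dig V θ ϕ (V.valuation (aeval θ (d 1 * ϕ))) S := by
    rw [hS]
    refine Q1.dig_sum hϕ0 _ _ fun k hk => ?_
    have := Finset.mem_range.1 hk
    exact dig_one_term hK (hd _) (by omega) (hlt (k + 2) (by omega) (by omega))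
  have hρ : V.valuation (aeval θ c') * V.valuation (aeval θ (d 1 * ϕ)) =
      V.valuation (aeval θ ϕ) := by
    rw [hv1ϕ, ← mul_assoc, hv', one_mul]
  have DR : Dig V θ ϕ (V.valuation (aeval θ ϕ))
      (c' * S + c' * (ϕ * s) + (ϕ * s' * ϕ + -(ϕ * s' * c))) := by
    refine Dadd _ _ _ (Dadd _ _ _ ?_ ?_) (Dadd _ _ _ Ds'ϕ (Dneg _ _ ?_))
    · rw [← hρ]
      exact Dmul _ _ _ _ hc'0 hv1ϕ0 Dc' DS
    · rw [← hρ]
      exact Dmul _ _ _ _ hc'0 hv1ϕ0 Dc' Ds
    · have h1 := Dmul _ _ _ _ one_ne_zero hvϕ Ds' Dc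
      rwa [one_mul] at h1
  have hdvd : ϕ ∣ c' * S + c' * (ϕ * s) + (ϕ * s' * ϕ + -(ϕ * s' * c)) := by
    refine dvd_add (dvd_add (Dvd.dvd.mul_left ?_ _) (Dvd.dvd.mul_left (dvd_mul_right _ _) _))
      (dvd_add (dvd_mul_left _ _) ((dvd_neg).2 (Dvd.dvd.mul_right (dvd_mul_right _ _) _)))
    rw [hS]
    exact Finset.dvd_sum fun k _ => Dvd.dvd.mul_left (dvd_pow_self _ (Nat.succ_ne_zero _)) _
  obtain ⟨N', e, he, he0, hek⟩ := Ddvd _ _ DR hdvd
  refine ⟨c, hcd, hc0, hvcϕ, N' + 1, e, _, he, ?_, fun k hk => ?_⟩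
  · have h1 : c' * S + c' * (ϕ * s) + (ϕ * s' * ϕ + -(ϕ * s' * c)) =
        c' * (S + d 1 * ϕ + d 0) + (c - ϕ) := by
      rw [← hs, ← hs']
      ring
    rw [h1, map_add, map_mul, hsum, mul_zero, zero_add, map_sub]
  · rcases Nat.eq_zero_or_pos k with rfl | hk0
    · rw [he0, zero_mul, map_zero, map_zero]
      exact zero_lt_iff.2 hvϕ
    · exact hek k hk0 (Nat.lt_succ_iff.1 hk)

end

end Pool.Agent.H176.DT
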