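import Pool.Agent.H176.DT.C3
import Pool.Agent.H176.DT.Stm4

/-!
# The local rings of algebraic elements are regular
-/

set_option autoImplicit false
set_option linter.unusedVariables false
set_option linter.unusedSectionVars false

universe u

namespace Pool.Agent.H176.DT

open Pool.Agent.W418.LU2 IsLocalRing

section main

variable {E F : Type u} [Field E] [Field F] [Algebra E F] {V : ValuationSubring F} {q r n s : ℕ}
  {t : Fin q → F} {b : Fin r → F} {ff : Fin r → ℕ} {z : Fin n → F}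
  {x : Fin s → E} {C : Subring E} {τ : Fin q → F} {Y : Fin s → F}
  {K : Finset ((Fin s → ℤ) × (Fin q → ℤ))}

/-- The equations. -/
theorem exists_eqsF (D : Dt V t (Fin.append b z) x C τ Y K)
    (hxm : ∀ i, x i ∈ lo (V.comap (algebraMap E F)).toSubring C)
    (hKx : ∀ i, ((Pi.single i 1 : Fin s → ℤ), (0 : Fin q → ℤ)) ∈ K)
    {h : ∀ j, Fin (ff j) → MvPolynomial (Fin r) E}
    (hh : ∀ j l m, (h j l).coeff m ∈ lo (V.comap (algebraMap E F)).toSubring C)
    (hb : ∀ j, Lf C (Fin.append b z) τ Y V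
      (b j ^ ff j + ∑ l, MvPolynomial.aeval b (h j l) * b j ^ (l : ℕ)))
    {u : Fin q → E} (hu : ∀ i, u i ∈ lo (V.comap (algebraMap E F)).toSubring C)
    {pt : Fin q → MvPolynomial (Fin r) E}
    (hpt : ∀ i m, (pt i).coeff m ∈ lo (V.comap (algebraMap E F)).toSubring C)
    (hτ : ∀ i : Fin q, Lf C (Fin.append b z) τ Y V
      (τ i - algebraMap E F (u i) * MvPolynomial.aeval b (pt i)))
    {pz : Fin n → MvPolynomial (Fin r) E}
    (hpz : ∀ i m, (pz i).coeff m ∈ lo (V.comap (algebraMap E F)).toSubring C)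
    (hz : ∀ i : Fin n, Lf C (Fin.append b z) τ Y V (z i - MvPolynomial.aeval b (pz i))) :
    ∃ e : Fin r ⊕ (Fin q ⊕ (Fin n ⊕ Fin s)) → RZ C (yy (Fin.append b z) τ Y) V,
    (∀ k, Pr (ph (E := E) (yy (Fin.append b z) τ Y)) (e k : FF E (TT (r + n) q s)) 0) ∧
    (∀ j, InJ (JY C (Fin.append b z) τ Y V) (GK (E := E) n q s j (h j) - e (Sum.inl j))) ∧
    (∀ i, InJ (JY C (Fin.append b z) τ Y V)
      (Zc E (Sum.inr (Sum.inl i) : TT (r + n) q s) -
        emb E (TT (r + n) q s) (u i) * MvPolynomial.aeval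
          (fun i => Zc E (Sum.inl (Fin.castAdd n i) : TT (r + n) q s)) (pt i) -
        e (Sum.inr (Sum.inl i)))) ∧
    (∀ i, InJ (JY C (Fin.append b z) τ Y V)
      (Zc E (Sum.inl (Fin.natAdd r i) : TT (r + n) q s) - MvPolynomial.aeval
          (fun i => Zc E (Sum.inl (Fin.castAdd n i) : TT (r + n) q s)) (pz i) -
        e (Sum.inr (Sum.inr (Sum.inl i))))) ∧
    (∀ i, InJ (JY C (Fin.append b z) τ Y V)
      (emb E (TT (r + n) q s) (x i) - e (Sum.inr (Sum.inr (Sum.inr i))))) := by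
  classical
  have hRZ : ∀ p : MvPolynomial (Fin r) E,
      (∀ m, p.coeff m ∈ lo (V.comap (algebraMap E F)).toSubring C) →
      (MvPolynomial.aeval (fun i => Zc E (Sum.inl (Fin.castAdd n i) : TT (r + n) q s)) p :
        FF E (TT (r + n) q s)) ∈ RZ C (yy (Fin.append b z) τ Y) V := by
    intro p hp
    refine ab_mem (W := Set.range (Zc E)) Set.univ (fun i _ => ⟨_, rfl⟩) p ?_ hp
    rw [MvPolynomial.supported_univ]
    trivial
  have gen : ∀ (Z : FF E (TT (r + n) q s)) (v w : F),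
      Z ∈ RZ C (yy (Fin.append b z) τ Y) V →
      Pr (ph (E := E) (yy (Fin.append b z) τ Y)) Z v → Lf C (Fin.append b z) τ Y V w → v = w →
      ∃ e : RZ C (yy (Fin.append b z) τ Y) V,
        Pr (ph (E := E) (yy (Fin.append b z) τ Y)) (e : FF E (TT (r + n) q s)) 0 ∧
        InJ (JY C (Fin.append b z) τ Y V) (Z - e) := by
    rintro Z v w hZ hZv ⟨ζ, hζ, hζJ⟩ rfl
    refine ⟨⟨Z - ζ, Subring.sub_mem _ hZ hζJ.mem⟩, ?_, ?_⟩
    · have h2 := hZv.add hζ.neg
      rw [add_neg_cancel, ← sub_eq_add_neg] at h2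
      exact h2
    · change InJ _ (_ - (Z - ζ))
      rw [sub_sub_cancel]
      exact hζJ
  have h1 : ∀ j, ∃ e : RZ C (yy (Fin.append b z) τ Y) V,
      Pr (ph (E := E) (yy (Fin.append b z) τ Y)) (e : FF E (TT (r + n) q s)) 0 ∧
      InJ (JY C (Fin.append b z) τ Y V) (GK (E := E) n q s j (h j) - e) := fun j =>
    gen _ _ _ (GK_mem D.hC j (h j) (hh j)) (Pr_GK j (h j)) (hb j) rfl
  have h2 : ∀ i : Fin q, ∃ e : RZ C (yy (Fin.append b z) τ Y) V,
      Pr (ph (E := E) (yy (Fin.append b z) τ Y)) (e : FF E (TT (r + n) q s)) 0 ∧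
      InJ (JY C (Fin.append b z) τ Y V)
        (Zc E (Sum.inr (Sum.inl i) : TT (r + n) q s) -
        emb E (TT (r + n) q s) (u i) * MvPolynomial.aeval
          (fun i => Zc E (Sum.inl (Fin.castAdd n i) : TT (r + n) q s)) (pt i) - e) := by
    intro i
    refine gen _ (τ i - algebraMap E F (u i) * MvPolynomial.aeval b (pt i)) _ ?_ ?_
      (hτ i) rfl
    · exact Subring.sub_mem _ (Z_mem _) (Subring.mul_mem _ (emb_mem_lo (hu i) _)
        (hRZ _ (hpt i)))
    · have h3 : Pr (ph (E := E) (yy (Fin.append b z) τ Y))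
          (Zc E (Sum.inr (Sum.inl i) : TT (r + n) q s)) (τ i) :=
        Pr_Z (E := E) (yy (Fin.append b z) τ Y) (Sum.inr (Sum.inl i))
      have h4 := h3.add ((Pr_emb (E := E) (yy (Fin.append b z) τ Y) (u i)).mul
        (Pr_ab (pt i))).neg
      rw [← sub_eq_add_neg, ← sub_eq_add_neg] at h4
      exact h4
  have h3 : ∀ i : Fin n, ∃ e : RZ C (yy (Fin.append b z) τ Y) V,
      Pr (ph (E := E) (yy (Fin.append b z) τ Y)) (e : FF E (TT (r + n) q s)) 0 ∧
      InJ (JY C (Fin.append b z) τ Y V)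
        (Zc E (Sum.inl (Fin.natAdd r i) : TT (r + n) q s) - MvPolynomial.aeval
          (fun i => Zc E (Sum.inl (Fin.castAdd n i) : TT (r + n) q s)) (pz i) - e) := by
    intro i
    refine gen _ (z i - MvPolynomial.aeval b (pz i)) _ ?_ ?_ (hz i) rfl
    · exact Subring.sub_mem _ (Z_mem _) (hRZ _ (hpz i))
    · have h4 := (Pr_zz (E := E) (q := q) (s := s) (b := b) (z := z) (τ := τ) (Y := Y) i).add
        (Pr_ab (E := E) (q := q) (s := s) (b := b) (z := z) (τ := τ) (Y := Y) (pz i)).neg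
      rw [← sub_eq_add_neg, ← sub_eq_add_neg] at h4
      exact h4
  have h4 : ∀ i : Fin s, ∃ e : RZ C (yy (Fin.append b z) τ Y) V,
      Pr (ph (E := E) (yy (Fin.append b z) τ Y)) (e : FF E (TT (r + n) q s)) 0 ∧
      InJ (JY C (Fin.append b z) τ Y V) (emb E (TT (r + n) q s) (x i) - e) := by
    intro i
    obtain ⟨ζ, hζ, hζJ⟩ := D.lift_m (a := x i) (u := 1) (Subring.one_mem _)
      (by rw [one_mul, mo_single]) (hKx i)
    rw [mo_zero, mul_one] at hζ
    exact gen _ (algebraMap E F (x i)) _ (emb_mem_lo (hxm i) _)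
      (Pr_emb (E := E) (yy (Fin.append b z) τ Y) (x i)) ⟨ζ, hζ, hζJ⟩ rfl
  choose e1 he1 he1' using h1
  choose e2 he2 he2' using h2
  choose e3 he3 he3' using h3
  choose e4 he4 he4' using h4
  refine ⟨Sum.elim e1 (Sum.elim e2 (Sum.elim e3 e4)), ?_, he1', he2', he3', he4'⟩
  rintro (j | i | i | i)
  · exact he1 j
  · exact he2 i
  · exact he3 i
  · exact he4 i

end main

end Pool.Agent.H176.DT
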