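import Pool.Agent.H176.DT.D8
import Pool.Agent.H176.DT.C8

/-!
# The stages of algebraic elements
-/

set_option autoImplicit false
set_option linter.unusedVariables false
set_option linter.unusedSectionVars false

universe u

namespace Pool.Agent.H176.DT

open Pool.Agent.W418.LU2 IsLocalRing

section main

variable {E F : Type u} [Field E] [Field F] [Algebra E F] {V : ValuationSubring F} {q r n : ℕ}
  {t : Fin q → F} {ee : Fin q → ℕ} {b : Fin r → F} {z : Fin n → F}
  {s : ℕ} {x : Fin s → E} {τ : Fin q → F} {Y : Fin s → F} {u : Fin q → E}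
  {K : Finset ((Fin s → ℤ) × (Fin q → ℤ))} {A : Subring E} {GE : Set E}
  {ME : Set (Fin q → ℤ)} {g : Fin q → E} {m₀ : Fin q → Fin q → ℤ} {T : Set E}

/-- The local rings agree. -/
lemma ConsK.PP_eqF (H : ConsK V t ee b A GE ME g m₀ T x τ u Y K) :
    PP V (AF A V t b) (algebraMap E F '' T ∪ Set.range (yy b τ Y)) =
      PF (Subring.closure ((A : Set E) ∪ T)) V (yy b τ Y) := by
  refine lo_eq H.dat.le ?_ ?_
  · rw [Subring.closure_le]
    rintro z (⟨c, hc, rfl⟩ | hz)
    · have h1 : (Subring.closure ((A : Set E) ∪ T)).map (algebraMap E F) ≤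
          Subring.closure ((AF A V t b : Set F) ∪ (algebraMap E F '' T ∪
            Set.range (yy b τ Y))) := by
        rw [RingHom.map_closure, Subring.closure_le]
        rintro z ⟨a, (ha | ha), rfl⟩
        · exact Subring.subset_closure (Or.inl (Subring.subset_closure (Or.inl ⟨a, ha, rfl⟩)))
        · exact Subring.subset_closure (Or.inr (Or.inl ⟨a, ha, rfl⟩))
      exact h1 ⟨c, hc, rfl⟩
    · exact Subring.subset_closure (Or.inr (Or.inr hz))
  · rw [Subring.closure_le]
    rintro z (hz | hz | hz)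
    · have h1 : AF A V t b ≤ PF (Subring.closure ((A : Set E) ∪ T)) V (yy b τ Y) := by
        rw [Subring.closure_le]
        rintro z (⟨a, ha, rfl⟩ | hz)
        · exact le_lo _ _ (Subring.subset_closure (Or.inl ⟨a,
            Subring.subset_closure (Or.inl ha), rfl⟩))
        · have h2 : ∀ (n : Fin s → ℕ) (κ : Fin q → ℤ), mo Y (fun j => (n j : ℤ)) * mo τ κ ∈
              PF (Subring.closure ((A : Set E) ∪ T)) V (yy b τ Y) := by
            intro n κ
            refine Subring.mul_mem _ ?_ (H.dat.mo_tau κ)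
            unfold mo
            refine Subring.prod_mem _ fun i _ => ?_
            rw [zpow_natCast]
            exact Subring.pow_mem _ (H.dat.Y_mem i) _
          rcases Ug_cases hz with ⟨j, rfl⟩ | ⟨i, h, rfl⟩ | ⟨i, h, rfl⟩
          · exact H.dat.b_mem j
          · obtain ⟨n, κ, h3⟩ := H.gen i
            rcases h3 with ⟨-, h3⟩ | ⟨h4, -⟩
            · have h5 := h2 n κ
              rw [← h3] at h5
              exact h5
            · exact absurd h h4
          · obtain ⟨n, κ, h3⟩ := H.gen i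
            rcases h3 with ⟨h4, -⟩ | ⟨-, h3⟩
            · exact absurd h4 h
            · have h5 := h2 n κ
              rw [← h3] at h5
              exact h5
      exact h1 hz
    · obtain ⟨a, ha, rfl⟩ := hz
      exact le_lo _ _ (Subring.subset_closure (Or.inl ⟨a, Subring.subset_closure (Or.inr ha),
        rfl⟩))
    · exact le_lo _ _ (Subring.subset_closure (Or.inr hz))

/-- The denominators. -/
lemma ConsK.denF (H : ConsK V t ee b A GE ME g m₀ T x τ u Y K) (ht0 : ∀ i, t i ≠ 0) :
    ∃ β ∈ AF A V t b, PMon (PF (Subring.closure ((A : Set E) ∪ T)) V (yy b τ Y)) Y β ∧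
      (∀ z ∈ algebraMap E F '' T ∪ Set.range (yy b τ Y), β * z ∈ AF A V t b) ∧
      ∀ j, β * Y j ∈ AF A V t b := by
  classical
  obtain ⟨β, hβ, hβm, hβT, hβx⟩ := H.st.den
  have hβF : algebraMap E F β ∈ AF A V t b := Subring.subset_closure (Or.inl ⟨β, hβ, rfl⟩)
  have hβFm := H.dat.alg_PMon H.Kx hβm
  have hx : ∀ i, Fra (AF A V t b) (PF (Subring.closure ((A : Set E) ∪ T)) V (yy b τ Y)) Y
      (algebraMap E F (x i)) := by
    intro i
    refine ⟨H.dat.alg_PMon H.Kx ?_, algebraMap E F β, hβF, hβFm, ?_⟩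
    · have h1 := PMon.of_mo (P := lo (V.comap (algebraMap E F)).toSubring
        (Subring.closure ((A : Set E) ∪ T))) (x := x) (Pi.single i 1)
      rwa [mo_single] at h1
    · rw [← map_mul]
      exact Subring.subset_closure (Or.inl ⟨_, hβx i, rfl⟩)
  have ht : ∀ i, Fra (AF A V t b) (PF (Subring.closure ((A : Set E) ∪ T)) V (yy b τ Y)) Y
      (t i) := by
    intro i
    by_cases h : t i ∈ V
    · exact ⟨H.t_PMon i, 1, Subring.one_mem _, PMon.one, by
        rw [one_mul]; exact Subring.subset_closure (Or.inr (Ug_t i h))⟩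
    · exact ⟨H.t_PMon i, (t i)⁻¹, Subring.subset_closure (Or.inr (Ug_t' i h)),
        (H.t_PMon i).inv, by
          rw [inv_mul_cancel₀ (ht0 i)]; exact Subring.one_mem _⟩
  have hMM : ∀ l m, Fra (AF A V t b) (PF (Subring.closure ((A : Set E) ∪ T)) V (yy b τ Y)) Y
      (MM x t l m) := by
    intro l m
    unfold MM
    rw [map_mo]
    exact (Fra.mo H.dat.Y0 (fun i => (map_ne_zero _).2 (H.st.reg.ne i)) hx l).mul H.dat.Y0
      (Fra.mo H.dat.Y0 ht0 ht m)
  have hy : ∀ θ, ∃ d ∈ AF A V t b, PMon (PF (Subring.closure ((A : Set E) ∪ T)) V (yy b τ Y)) Y d ∧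
      d * yy b τ Y θ ∈ AF A V t b := by
    rintro (j | i | j)
    · exact ⟨1, Subring.one_mem _, PMon.one, by
        rw [one_mul]; exact Subring.subset_closure (Or.inr (Ug_b j))⟩
    · obtain ⟨l, m, h⟩ := H.tM i
      have h1 := (hMM l m).2
      rw [← h] at h1
      exact h1
    · obtain ⟨l, m, h⟩ := H.YM j
      have h1 := (hMM l m).2
      rw [← h] at h1
      exact h1
  obtain ⟨δ, hδ, hδm, hδT⟩ := exists_den (A := AF A V t b) H.dat.Y0
    (T := algebraMap E F '' T ∪ Set.range (yy b τ Y))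
    ((H.st.fin.image _).union (Set.finite_range _)) (by
      rintro z (⟨a, ha, rfl⟩ | ⟨θ, rfl⟩)
      · refine ⟨algebraMap E F β, hβF, hβFm, ?_⟩
        rw [← map_mul]
        exact Subring.subset_closure (Or.inl ⟨_, hβT a ha, rfl⟩)
      · exact hy θ)
  exact ⟨δ, hδ, hδm, hδT, fun j => hδT _ (Or.inr ⟨Sum.inr (Sum.inr j), rfl⟩)⟩

/-- The field generated by the coordinates. -/
lemma ConsK.hfrF (H : ConsK V t ee (Fin.append b z) A GE ME g m₀ T x τ u Y K)
    (hall : ∀ v : F, Rep E V t z (fun _ => True) v) (w : F) :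
    ∃ a c : MvPolynomial (TT (r + n) q s) E, ph (E := E) (yy (Fin.append b z) τ Y) c ≠ 0 ∧
      w * ph (E := E) (yy (Fin.append b z) τ Y) c = ph (E := E) (yy (Fin.append b z) τ Y) a := by
  classical
  refine hfr_of (L := ⊤) (y := yy (Fin.append b z) τ Y) rfl (fun a => trivial) ?_ w
  intro w _
  have hY : ∀ j, Y j ∈ Subfield.closure (Set.range (algebraMap E F) ∪
      Set.range (yy (Fin.append b z) τ Y)) :=
    fun j => Subfield.subset_closure (Or.inr ⟨Sum.inr (Sum.inr j), rfl⟩)
  have hτ : ∀ j, τ j ∈ Subfield.closure (Set.range (algebraMap E F) ∪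
      Set.range (yy (Fin.append b z) τ Y)) :=
    fun j => Subfield.subset_closure (Or.inr ⟨Sum.inr (Sum.inl j), rfl⟩)
  have hz : ∀ j, z j ∈ Subfield.closure (Set.range (algebraMap E F) ∪
      Set.range (yy (Fin.append b z) τ Y)) :=
    fun j => Subfield.subset_closure (Or.inr ⟨Sum.inl (Fin.natAdd r j), Fin.append_right _ _ _⟩)
  have ht : ∀ i, t i ∈ Subfield.closure (Set.range (algebraMap E F) ∪
      Set.range (yy (Fin.append b z) τ Y)) := by
    intro i
    obtain ⟨k, κ, h⟩ := H.gen i
    have h1 : mo Y (fun j => (k j : ℤ)) * mo τ κ ∈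
        Subfield.closure (Set.range (algebraMap E F) ∪
          Set.range (yy (Fin.append b z) τ Y)) := by
      unfold mo
      exact mul_mem (prod_mem fun j _ => zpow_mem (hY j) _) (prod_mem fun j _ =>
        zpow_mem (hτ j) _)
    rcases h with ⟨-, h⟩ | ⟨-, h⟩
    · rw [h]; exact h1
    · rw [← inv_inv (t i), h]; exact inv_mem h1
  have hmo : ∀ m, mo t m ∈ Subfield.closure (Set.range (algebraMap E F) ∪
      Set.range (yy (Fin.append b z) τ Y)) := by
    intro m
    unfold mo
    exact prod_mem fun i _ => zpow_mem (ht i) _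
  obtain ⟨k, a', μ, p, hw, -⟩ := hall w
  rw [hw]
  exact sum_mem fun i _ => mul_mem (mul_mem (Subfield.subset_closure (Or.inl ⟨_, rfl⟩))
    (hmo _)) (hz _)

end main

end Pool.Agent.H176.DT
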