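import Pool.Agent.H176.DT.C13

/-!
# Embedded local uniformization
-/

set_option autoImplicit false
set_option linter.unusedVariables false
set_option linter.unusedSectionVars false

universe u

namespace Pool.Agent.H176.DT

open Pool.Agent.W418.LU2 IsLocalRing Polynomial

section emb

variable {K : Type u} [Field K] (V : ValuationSubring K)

/-- Strong uniformization of the models. -/
theorem inv_SU {R : Subring K} (h : Inv V R (⊤ : Subfield K).subtype) (A : Subring K)
    (G : Set K) (hG : G.Finite) (hA : A = Subring.closure ((R : Set K) ∪ G))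
    (hAM : Mod V A) : SU V A := by
  have h1 : Inv V R (RingHom.id K) := by
    refine Inv.step (F := (⊤ : Subfield K)) (F' := K) (φ := (⊤ : Subfield K).subtype) rfl h ?_
    intro A hM hSU
    exact key_triv A hM hSU fun z => ⟨⟨z, trivial⟩, rfl⟩
  obtain ⟨-, U, hU, hM, hSU⟩ := h1
  have hV : V.comap (RingHom.id K) = V := by
    ext z
    rfl
  rw [hV] at hM hSU
  have hpre : (RingHom.id K) ⁻¹' (R : Set K) = (R : Set K) := rfl
  rw [hpre] at hM hSU
  have hGA : ∀ g ∈ G, g ∈ V := fun g hg => hAM.1 (by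
    rw [hA]
    exact Subring.subset_closure (Or.inr hg))
  have hUA : ∀ g ∈ U, g ∈ V := fun g hg => hM.1 (Subring.subset_closure (Or.inr hg))
  have h2 := (p_move V _ hM G hG hGA).1 hSU
  have h3 : Subring.closure ((Subring.closure ((R : Set K) ∪ U) : Set K) ∪ G) =
      Subring.closure ((A : Set K) ∪ U) := by
    rw [hA]
    apply le_antisymm
    · rw [Subring.closure_le]
      rintro z (hz | hz)
      · refine (?_ : Subring.closure ((R : Set K) ∪ U) ≤ _) hz
        rw [Subring.closure_le]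
        rintro z (hz | hz)
        · exact Subring.subset_closure (Or.inl (Subring.subset_closure (Or.inl hz)))
        · exact Subring.subset_closure (Or.inr hz)
      · exact Subring.subset_closure (Or.inl (Subring.subset_closure (Or.inr hz)))
    · rw [Subring.closure_le]
      rintro z (hz | hz)
      · refine (?_ : Subring.closure ((R : Set K) ∪ G) ≤ _) hz
        rw [Subring.closure_le]
        rintro z (hz | hz)
        · exact Subring.subset_closure (Or.inl (Subring.subset_closure (Or.inl hz)))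
        · exact Subring.subset_closure (Or.inr hz)
      · exact Subring.subset_closure (Or.inl (Subring.subset_closure (Or.inr hz)))
  rw [h3] at h2
  exact (p_move V A hAM U hU hUA).2 h2

/-- Embedded local uniformization. -/
theorem emb_LU (A : Subring K) (hA : A ≤ V.toSubring) (h : SU V A) (Z : Set K) (hZ : Z.Finite)
    (hZ0 : ∀ z ∈ Z, z ≠ 0) :
    ∃ H : Set K, H.Finite ∧ Subring.closure ((A : Set K) ∪ H) ≤ V.toSubring ∧
      ∃ (_ : IsRegularLocalRing (PP V A H)) (n : ℕ) (x : Fin n → PP V A H),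
        Ideal.span (Set.range x) = maximalIdeal (PP V A H) ∧ ringKrullDim (PP V A H) = n ∧
        ∀ z ∈ Z, ∃ (u : (PP V A H)ˣ) (γ : Fin n → ℤ),
          z = ((u : PP V A H) : K) * ∏ i, (x i : K) ^ γ i ∧ (z ∈ V → ∀ i, 0 ≤ γ i) := by
  obtain ⟨T, s, x, hSt, hxV, -, hmon⟩ := p_ind V A h Z hZ hZ0
  obtain ⟨m, z, hF⟩ := p_ext hSt.reg hxV
  have hreg := hSt.reg
  have hPV : PP V A T ≤ V.toSubring := hreg.PA
  have hcl : Subring.closure ((A : Set K) ∪ T) ≤ V.toSubring := (le_lo _ _).trans hPV
  obtain ⟨hPA, hmem, hR, hinv, hspan, hdim⟩ := hF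
  refine ⟨T, hSt.fin, hcl, hR, Fintype.card (Fin s ⊕ Fin m),
    fun i => ⟨_, hmem ((Fintype.equivFin (Fin s ⊕ Fin m)).symm i)⟩, ?_, hdim, ?_⟩
  · rw [← hspan]
    congr 1
    ext w
    constructor
    · rintro ⟨i, rfl⟩
      exact ⟨_, rfl⟩
    · rintro ⟨i, rfl⟩
      exact ⟨Fintype.equivFin _ i, by simp⟩
  · intro w hw
    obtain ⟨⟨u, hu0, hu1, hu2, δ, hδ⟩, hwV⟩ := hmon w hw
    refine ⟨⟨⟨u, hu1⟩, ⟨u⁻¹, hu2⟩, Subtype.ext (mul_inv_cancel₀ hu0),
      Subtype.ext (inv_mul_cancel₀ hu0)⟩,
      fun i => Sum.elim δ (fun _ => 0) ((Fintype.equivFin (Fin s ⊕ Fin m)).symm i), ?_, ?_⟩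
    · have h1 : ∏ i, (Sum.elim x z ((Fintype.equivFin (Fin s ⊕ Fin m)).symm i)) ^
          (Sum.elim δ (fun _ => 0) ((Fintype.equivFin (Fin s ⊕ Fin m)).symm i) : ℤ) = mo x δ := by
        rw [(Fintype.equivFin (Fin s ⊕ Fin m)).symm.prod_comp
          (fun j => (Sum.elim x z j) ^ (Sum.elim δ (fun _ => 0) j : ℤ)), Fintype.prod_sum_type]
        simp only [Sum.elim_inl, Sum.elim_inr, zpow_zero, Finset.prod_const_one, mul_one]
        rfl
      rw [hδ]
      change u * mo x δ = u * ∏ i, (Sum.elim x z ((Fintype.equivFin (Fin s ⊕ Fin m)).symm i)) ^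
          (Sum.elim δ (fun _ => 0) ((Fintype.equivFin (Fin s ⊕ Fin m)).symm i) : ℤ)
      rw [h1]
    · intro hwv i
      have h1 : mo x δ ∈ PP V A T := by
        have h2 : mo x δ = u⁻¹ * w := by
          rw [hδ, ← mul_assoc, inv_mul_cancel₀ hu0, one_mul]
        rw [h2]
        exact (PP V A T).mul_mem hu2 (hwV hwv)
      change 0 ≤ Sum.elim δ (fun _ => 0) ((Fintype.equivFin (Fin s ⊕ Fin m)).symm i)
      rcases h3 : (Fintype.equivFin (Fin s ⊕ Fin m)).symm i with j | j
      · exact p_expo hreg δ h1 j (hxV j)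
      · exact le_rfl

/-- The local rings of localizations. -/
theorem lo_cl {A B : Subring K} (hB : B ≤ A) {H : Set K} (hH : ∀ z ∈ H, z ∈ A) :
    lo A (Subring.closure ((lo A B : Set K) ∪ H)) =
      lo A (Subring.closure ((B : Set K) ∪ H)) := by
  refine lo_eq ?_ ?_ ?_
  · rw [Subring.closure_le]
    rintro z (hz | hz)
    · exact hB hz
    · exact hH z hz
  · refine Subring.closure_mono (Set.union_subset_union_left _ ?_)
    exact le_lo _ _
  · rw [Subring.closure_le]
    rintro z (hz | hz)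
    · exact lo_mono (fun a ha => Subring.subset_closure (Or.inl ha)) hz
    · exact le_lo _ _ (Subring.subset_closure (Or.inr hz))

end emb

end Pool.Agent.H176.DT
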