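import Pool.Agent.H176.DT.G1

/-!
# Stages over a vertical divisor
-/

set_option autoImplicit false
set_option linter.unusedVariables false
set_option linter.unusedSectionVars false

universe u

namespace Pool.Agent.H176.DT

open Pool.Agent.W418.LU2 IsLocalRing Polynomial

section vert

variable {F : Type u} [Field F] {ι κ : Type} [Fintype ι] [Fintype κ]

lemma mo_sum {x : ι → F} (hx : ∀ i, x i ≠ 0) (s : Finset κ) (v : κ → ι → ℤ) :
    mo x (∑ j ∈ s, v j) = ∏ j ∈ s, mo x (v j) := by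
  classical
  induction s using Finset.induction_on with
  | empty => rw [Finset.sum_empty, Finset.prod_empty, mo_zero]
  | insert a s ha ih => rw [Finset.sum_insert ha, Finset.prod_insert ha, mo_add hx, ih]

lemma mo_comp {x : ι → F} (hx : ∀ i, x i ≠ 0) {y : κ → F} {δ : κ → ι → ℤ}
    (hy : ∀ j, y j = mo x (δ j)) (c : κ → ℤ) : mo y c = mo x (∑ j, c j • δ j) := by
  rw [mo_sum hx]
  unfold mo
  refine Finset.prod_congr rfl fun j _ => ?_
  change y j ^ c j = mo x (c j • δ j)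
  rw [Pool.Agent.Y67.DT.mo_zsmul, hy]

/-- The exponents of inverse substitutions. -/
lemma inv_subst {V : ValuationSubring F} {x x' : ι → F} (hx : ∀ i, x i ≠ 0)
    (hind : ∀ δ : ι → ℤ, V.valuation (mo x δ) = 1 → δ = 0) {δ a : ι → ι → ℤ}
    (hδ : ∀ j, x' j = mo x (δ j)) (ha : ∀ i, x i = mo x' (a i)) (j : ι) :
    ∃ i, δ j i * a i j ≠ 0 := by
  classical
  have h1 : (Matrix.of a) * (Matrix.of δ) = 1 := by
    ext i l
    have h2 : mo x (∑ j, a i j • δ j - Pi.single i 1) = 1 := by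
      rw [sub_eq_add_neg, mo_add hx, ← mo_comp hx hδ, ← ha, mo_neg, mo_single]
      exact mul_inv_cancel₀ (hx i)
    have h3 := hind _ (by rw [h2, map_one])
    have h4 := congrFun h3 l
    rw [Pi.sub_apply, Pi.zero_apply, sub_eq_zero, Finset.sum_apply] at h4
    rw [Matrix.mul_apply]
    simp only [Matrix.of_apply]
    rw [Matrix.one_apply]
    simp only [Pi.smul_apply, smul_eq_mul] at h4
    rw [h4, Pi.single_apply]
    by_cases h5 : i = l
    · rw [if_pos h5, if_pos h5.symm]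
    · rw [if_neg h5, if_neg fun h => h5 h.symm]
  have h2 := mul_eq_one_comm.1 h1
  have h3 := congrFun (congrFun h2 j) j
  rw [Matrix.mul_apply, Matrix.one_apply_eq] at h3
  by_contra hcon
  push Not at hcon
  have h4 : ∑ i, δ j i * a i j = 0 := Finset.sum_eq_zero fun i _ => hcon i
  exact zero_ne_one (h4.symm.trans h3)

/-- A stage such that all coordinates divide `p`. -/
theorem vert_stage (V : ValuationSubring F) (A : Subring F) (h : SU V A) (p : F) (hp0 : p ≠ 0)
    (hpP : p ∈ V) (hpV : ∀ z : F, ∃ n : ℕ, p ^ n * z ∈ V) (G : Set F) (hG : G.Finite)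
    (hG0 : ∀ g ∈ G, g ≠ 0) :
    ∃ (T : Set F) (s : ℕ) (x : Fin s → F), St V A T x ∧ (∀ i, (x i)⁻¹ ∉ V) ∧
      (∀ g ∈ G, PMon (PP V A T) x g ∧ (g ∈ V → g ∈ PP V A T)) ∧
      ∃ (u : F) (η : Fin s → ℤ), u ∈ PP V A T ∧ u⁻¹ ∈ PP V A T ∧ u ≠ 0 ∧ p = u * mo x η ∧
        ∀ i, 0 < η i := by
  classical
  obtain ⟨T, s, x, hSt, hxV, hind, hmon⟩ := p_ind V A h (G ∪ {p}) (hG.union (Set.finite_singleton p))
    (by
      rintro g (hg | rfl)
      · exact hG0 g hg
      · exact hp0)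
  have hx0 := hSt.reg.ne
  choose N hN using fun i => hpV (x i)⁻¹
  set G' : Set F := (G ∪ {p}) ∪ Set.range fun i => p ^ N i * (x i)⁻¹ with hG'
  have hpm := (hmon p (Or.inr rfl)).1
  have hxm : ∀ i, PMon (PP V A T) x (x i) := fun i =>
    ⟨1, one_ne_zero, Subring.one_mem _, by rw [inv_one]; exact Subring.one_mem _,
      Pi.single i 1, by rw [mo_single, one_mul]⟩
  have hpow : ∀ n : ℕ, PMon (PP V A T) x (p ^ n) := by
    intro n
    induction n with
    | zero => rw [pow_zero]; exact PMon.one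
    | succ n ih => rw [pow_succ]; exact ih.mul hx0 hpm
  obtain ⟨T', x', hTT', hSt', href, hδ, hmon', hmem'⟩ := p_ref V A T x hSt G'
    ((hG.union (Set.finite_singleton p)).union (Set.finite_range _)) (by
      rintro g (hg | ⟨i, rfl⟩)
      · exact (hmon g hg).1
      · exact (hpow (N i)).mul hx0 (hxm i).inv)
  choose δ hδ using hδ
  have ha : ∀ i, ∃ a : Fin s → ℤ, 0 ≤ a ∧ x i = mo x' a := by
    intro i
    obtain ⟨a, ha0, ha1⟩ := href (Pi.single i 1) (by
      intro j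
      rw [Pi.single_apply]
      split_ifs <;> simp)
    exact ⟨a, ha0, by rw [← ha1, mo_single]⟩
  choose a ha0 ha using ha
  have hkey := inv_subst hx0 hind hδ ha
  have hreg' := hSt'.reg
  have hPV : PP V A T' ≤ V.toSubring := hreg'.PA
  have hx'V : ∀ j, (x' j)⁻¹ ∉ V := by
    intro j hj
    obtain ⟨i, hi⟩ := hkey j
    have h1 : V.valuation (x' j) = 1 := by
      apply le_antisymm
      · exact (V.valuation_le_one_iff _).2 (hPV (hreg'.mem j))
      · have h2 := (V.valuation_le_one_iff _).2 hj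
        rw [map_inv₀] at h2
        exact (inv_le_one₀ (zero_lt_iff.2 ((_root_.map_ne_zero _).2 (hreg'.ne j)))).1 h2
    rw [hδ j] at h1
    have h2 := hind _ h1
    rw [h2] at hi
    exact hi (by rw [Pi.zero_apply, zero_mul])
  obtain ⟨u, hu0, hu1, hu2, η, hη⟩ := hmon' p hpm
  refine ⟨T', s, x', hSt', hx'V, fun g hg => ⟨hmon' g (hmon g (Or.inl hg)).1,
    hmem' g (Or.inl (Or.inl hg))⟩, u, η, hu1, hu2, hu0, hη, fun j => ?_⟩
  obtain ⟨i, hi⟩ := hkey j
  have haij : 0 < a i j := lt_of_le_of_ne (ha0 i j) fun h => hi (by rw [← h, mul_zero])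
  have h1 : p ^ N i * (x i)⁻¹ ∈ PP V A T' := hmem' _ (Or.inr ⟨i, rfl⟩) (hN i)
  have h2 : mo x' ((N i : ℤ) • η - a i) = (u⁻¹) ^ N i * (p ^ N i * (x i)⁻¹) := by
    rw [sub_eq_add_neg, mo_add hreg'.ne, mo_neg, ← ha, Pool.Agent.Y67.DT.mo_zsmul, zpow_natCast,
      ← mul_assoc, ← mul_pow]
    congr 2
    rw [hη, ← mul_assoc, inv_mul_cancel₀ hu0, one_mul]
  have h3 := p_expo hreg' ((N i : ℤ) • η - a i) (by
    rw [h2]
    exact Subring.mul_mem _ (Subring.pow_mem _ hu2 _) h1) j (hx'V j)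
  have h4 : 0 < (N i : ℤ) * η j := by
    rw [Pi.sub_apply, Pi.smul_apply, smul_eq_mul] at h3
    linarith
  exact pos_of_mul_pos_right h4 (Int.natCast_nonneg _)

end vert

end Pool.Agent.H176.DT
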