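import Pool.Agent.H176.DT.G1

/-!
# The change of the base ring
-/

set_option autoImplicit false
set_option linter.unusedVariables false
set_option linter.unusedSectionVars false

universe u

namespace Pool.Agent.H176.DT

open Pool.Agent.W418.LU2 IsLocalRing Polynomial

section base

variable {L K : Type u} [Field L] [Field K] [Algebra L K] (V : ValuationSubring K)

/-- Strong uniformization of the models over a smaller base ring. -/
theorem inv_SU2 (O R : Subring L) (U : Set L) (hU : U.Finite)
    (hOR : R = Subring.closure ((O : Set L) ∪ U)) (hRV : ∀ a ∈ R, algebraMap L K a ∈ V)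
    (h : Inv V (R.map (algebraMap L K)) (⊤ : Subfield K).subtype) (A : Subring K) (G : Set K)
    (hG : G.Finite) (hA : A = Subring.closure ((O.map (algebraMap L K) : Set K) ∪ G))
    (hAM : Mod V A) : SU V A := by
  set O' : Subring K := O.map (algebraMap L K) with hO'
  have hU' : (algebraMap L K '' U).Finite := hU.image _
  have hUV : ∀ u ∈ algebraMap L K '' U, u ∈ V := by
    rintro _ ⟨a, ha, rfl⟩
    refine hRV a ?_
    rw [hOR]
    exact Subring.subset_closure (Or.inr ha)
  have hmap : R.map (algebraMap L K) = Subring.closure ((O' : Set K) ∪ algebraMap L K '' U) := by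
    rw [hOR, RingHom.map_closure, Set.image_union]
    rfl
  have hcl : Subring.closure ((A : Set K) ∪ algebraMap L K '' U) =
      Subring.closure ((R.map (algebraMap L K) : Set K) ∪ G) := by
    rw [hmap, hA]
    apply le_antisymm
    · rw [Subring.closure_le]
      rintro z (hz | hz)
      · refine (?_ : Subring.closure ((O' : Set K) ∪ G) ≤ _) hz
        rw [Subring.closure_le]
        rintro z (hz | hz)
        · exact Subring.subset_closure (Or.inl (Subring.subset_closure (Or.inl hz)))
        · exact Subring.subset_closure (Or.inr hz)
      · exact Subring.subset_closure (Or.inl (Subring.subset_closure (Or.inr hz)))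
    · rw [Subring.closure_le]
      rintro z (hz | hz)
      · refine (?_ : Subring.closure ((O' : Set K) ∪ algebraMap L K '' U) ≤ _) hz
        rw [Subring.closure_le]
        rintro z (hz | hz)
        · exact Subring.subset_closure (Or.inl (Subring.subset_closure (Or.inl hz)))
        · exact Subring.subset_closure (Or.inr hz)
      · exact Subring.subset_closure (Or.inl (Subring.subset_closure (Or.inr hz)))
  have hle : A ≤ Subring.closure ((A : Set K) ∪ algebraMap L K '' U) :=
    fun z hz => Subring.subset_closure (Or.inl hz)
  have hMod2 : Mod V (Subring.closure ((A : Set K) ∪ algebraMap L K '' U)) := by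
    refine ⟨?_, fun z => ?_⟩
    · rw [Subring.closure_le]
      rintro z (hz | hz)
      · exact hAM.1 hz
      · exact hUV z hz
    · obtain ⟨a, ha, b, hb, h⟩ := hAM.2 z
      exact ⟨a, hle ha, b, hle hb, h⟩
  have h1 := inv_SU V h _ G hG hcl hMod2
  exact (p_move V A hAM _ hU' hUV).2 h1

/-- Finitely generated rings are noetherian. -/
theorem noe_fg (G : Set K) (hG : G.Finite) : IsNoetherianRing (Subring.closure G) := by
  have h0 : IsNoetherianRing (⊥ : Subring K) := by
    refine isNoetherianRing_of_surjective ℤ (⊥ : Subring K) (Int.castRingHom _) ?_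
    rintro ⟨z, hz⟩
    obtain ⟨n, rfl⟩ := Subring.mem_bot.1 hz
    exact ⟨n, rfl⟩
  have h1 := p_noe (⊥ : Subring K) G hG
  have h2 : Subring.closure (((⊥ : Subring K) : Set K) ∪ G) = Subring.closure G := by
    rw [Subring.closure_union, Subring.closure_eq, bot_sup_eq]
  rwa [h2] at h1

end base

end Pool.Agent.H176.DT
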