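import Pool.Agent.Y925.DT.Str
import Pool.Agent.H176.DT.B16

/-!
# The structure of extensions with an orthogonal basis, with given scalars
The proof of `str_d` is the proof of `Pool.Agent.Y925.DT.str` by helper925 with a small change.
-/

set_option autoImplicit false
set_option linter.unusedVariables false
set_option linter.unusedSectionVars false

universe u

namespace Pool.Agent.Y925.DT

open Pool.Agent.W418.LU2 IsLocalRing Pool.Agent.H176.DT MvPolynomial

theorem str_d (h1 : S_val.{u}) (h2 : S_res.{u}) {E F : Type u} [Field E] [Field F] [Algebra E F]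
    (V : ValuationSubring F) (n : ℕ) (β : Fin n → F) (hβ : Orth (E := E) V β) (D : Set E)
    (hD : ∀ a : E, a ≠ 0 → ∃ e ∈ D, V.valuation (algebraMap E F e) =
      V.valuation (algebraMap E F a)) :
    ∃ (q r : ℕ) (t : Fin q → F) (ee : Fin q → ℕ) (b : Fin r → F) (ff : Fin r → ℕ),
      Str (E := E) V t ee b ff ∧ (∀ j, ∃ i, t i = β j) ∧ (∀ i, ∃ j, t i = β j) ∧
        ∀ l, ∃ e ∈ D, ∃ j, b l = algebraMap E F e * β j := by
  classical
  have hβ0 := hβ.1
  -- values
  let t : Fin n → Fˣ := fun i => Units.mk0 (β i) (hβ.1 i)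
  obtain ⟨ee, he0, hrel, hmin, huniq⟩ := h1 (HH E V) n t (torsion V hβ)
  set T : ((i : Fin n) → Fin (ee i)) → F := fun μ => ∏ i, β i ^ (μ i : ℕ) with hT
  have hT0 : ∀ μ, T μ ≠ 0 := fun μ =>
    Finset.prod_ne_zero_iff.2 fun i _ => pow_ne_zero _ (hβ0 i)
  have hTv : ∀ μ, V.valuation (T μ) ≠ 0 := fun μ => (map_ne_zero _).2 (hT0 μ)
  have hTu : ∀ μ : (i : Fin n) → Fin (ee i), ((∏ i, t i ^ (μ i : ℕ) : Fˣ) : F) = T μ := fun μ => by
    rw [Units.coe_prod]
    exact Finset.prod_congr rfl fun i _ => Units.val_pow_eq_pow_val _ _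
  have hT1 : ∀ z : F, z ≠ 0 → ∃ μ, ∃ a : E, V.valuation (algebraMap E F a * z) =
      V.valuation (T μ) := by
    intro z hz
    obtain ⟨μ, ⟨a, ha, hv⟩, -⟩ := huniq (Units.mk0 z hz) (sup_top V hβ _)
    rw [Units.val_mul, Units.val_inv_eq_inv_val, hTu, Units.val_mk0] at hv
    have hva : V.valuation (algebraMap E F a) ≠ 0 := (map_ne_zero _).2 ((map_ne_zero _).2 ha)
    refine ⟨μ, a⁻¹, ?_⟩
    rw [map_mul, map_inv₀] at hv
    rw [map_mul, map_inv₀, map_inv₀, ← hv, mul_inv, inv_inv, mul_assoc, mul_comm _ (V.valuation z),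
      ← mul_assoc, inv_mul_cancel₀ ((map_ne_zero _).2 hz), one_mul]
  have hT2 : ∀ μ μ' (a a' : E), a ≠ 0 → a' ≠ 0 → V.valuation (algebraMap E F a * T μ) =
      V.valuation (algebraMap E F a' * T μ') → μ = μ' := by
    intro μ μ' a a' ha ha' hv
    obtain ⟨μ0, -, hu⟩ := huniq (∏ i, t i ^ (μ i : ℕ)) (sup_top V hβ _)
    have g1 := hu μ (by
      show (∏ i, t i ^ (μ i : ℕ)) * (∏ i, t i ^ (μ i : ℕ))⁻¹ ∈ HH E V
      rw [mul_inv_cancel]
      exact Subgroup.one_mem _)
    have g2 := hu μ' (by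
      show (∏ i, t i ^ (μ i : ℕ)) * (∏ i, t i ^ (μ' i : ℕ))⁻¹ ∈ HH E V
      refine ⟨a' / a, div_ne_zero ha' ha, ?_⟩
      have hva : V.valuation (algebraMap E F a) ≠ 0 := (map_ne_zero _).2 ((map_ne_zero _).2 ha)
      rw [Units.val_mul, Units.val_inv_eq_inv_val, hTu, hTu, map_mul, map_inv₀, map_div₀,
        map_div₀, eq_div_iff hva]
      rw [map_mul, map_mul] at hv
      calc V.valuation (T μ) * (V.valuation (T μ'))⁻¹ * V.valuation (algebraMap E F a)
          = (V.valuation (algebraMap E F a) * V.valuation (T μ)) * (V.valuation (T μ'))⁻¹ := by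
            rw [mul_comm, ← mul_assoc]
        _ = V.valuation (algebraMap E F a') := by
            rw [hv, mul_assoc, mul_inv_cancel₀ (hTv μ'), mul_one])
    rw [g1, g2]
  -- residues
  let J : Type := {j : Fin n // ∃ d : E, V.valuation (algebraMap E F d * β j) = 1}
  set r := Fintype.card J with hr
  let e : Fin r ≃ J := (Fintype.equivFin J).symm
  have hdd' : ∀ l : Fin r, ∃ d ∈ D, V.valuation (algebraMap E F d * β (e l).1) = 1 := by
    intro l
    obtain ⟨d, hd⟩ := (e l).2
    have hd0 : d ≠ 0 := by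
      intro h
      rw [h, map_zero, zero_mul, map_zero] at hd
      exact zero_ne_one hd
    obtain ⟨e', he', hv⟩ := hD d hd0
    exact ⟨e', he', by rw [map_mul, hv, ← map_mul, hd]⟩
  choose dd hddD hdd using hdd'
  set b : Fin r → F := fun l => algebraMap E F (dd l) * β (e l).1 with hb
  have hb1 : ∀ l, V.valuation (b l) = 1 := hdd
  have hbV : ∀ l, b l ∈ V := fun l => mem_of_val V (hb1 l).le
  have hdd0 : ∀ l, dd l ≠ 0 := by
    intro l h
    have h3 := hdd l
    rw [h, map_zero, zero_mul, map_zero] at h3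
    exact zero_ne_one h3
  have hspan : ∀ x : ResidueField V,
      x ∈ Submodule.span (kk E V) (Set.range fun l => rs V (b l)) := by
    intro x
    obtain ⟨⟨z, hz⟩, rfl⟩ := residue_surjective x
    rw [← rs_mem V hz]
    obtain ⟨c, hc⟩ := hβ.2.1 z
    have hle : ∀ i, V.valuation (algebraMap E F (c i) * β i) ≤ 1 := fun i =>
      (hβ.2.2 c i).trans (by rw [← hc]; exact val_le V hz)
    rw [hc, rs_sum V _ _ fun i _ => mem_of_val V (hle i)]
    refine Submodule.sum_mem _ fun i _ => ?_
    by_cases hi : V.valuation (algebraMap E F (c i) * β i) = 1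
    · obtain ⟨l, hl⟩ : ∃ l, (e l).1 = i :=
        ⟨e.symm ⟨i, c i, hi⟩, by rw [Equiv.apply_symm_apply]⟩
      have hd0 : algebraMap E F (dd l) ≠ 0 := (map_ne_zero _).2 (hdd0 l)
      have h3 : algebraMap E F (c i) * β i = algebraMap E F (c i / dd l) * b l := by
        rw [hb]
        simp only
        rw [hl, map_div₀]
        field_simp
      have h4 : V.valuation (algebraMap E F (c i / dd l)) = 1 := by
        rw [h3, map_mul, hb1, mul_one] at hi
        exact hi
      rw [h3, rs_mul V (mem_of_val V h4.le) (hbV l)]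
      exact Submodule.smul_mem _ (⟨_, mem_kk E V (mem_of_val V h4.le)⟩ : kk E V)
        (Submodule.subset_span ⟨l, rfl⟩)
    · rw [(rs_eq_zero V (mem_of_val V (hle i))).2 (lt_of_le_of_ne (hle i) hi)]
      exact Submodule.zero_mem _
  have hfin : Module.Finite (kk E V) (ResidueField V) :=
    ⟨⟨Finset.univ.image fun l => rs V (b l), by
      rw [Finset.coe_image, Finset.coe_univ, Set.image_univ, eq_top_iff]
      exact fun x _ => hspan x⟩⟩
  have halg : ∀ l, IsAlgebraic (kk E V) (rs V (b l)) := fun l =>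
    Algebra.IsAlgebraic.isAlgebraic _
  obtain ⟨ff, hf0, hres, hli, hfld⟩ := h2 (k := kk E V) (κ := ResidueField V) r
    (fun l => rs V (b l)) halg
  set B : ((j : Fin r) → Fin (ff j)) → F := fun ν => ∏ j, b j ^ (ν j : ℕ) with hB
  have hB1 : ∀ ν, V.valuation (B ν) = 1 := fun ν => by
    rw [hB]
    simp only
    rw [map_prod]
    exact Finset.prod_eq_one fun j _ => by rw [map_pow, hb1, one_pow]
  have hBV : ∀ ν, B ν ∈ V := fun ν => mem_of_val V (hB1 ν).le
  have rsB : ∀ ν, rs V (B ν) = ∏ j, rs V (b j) ^ (ν j : ℕ) := fun ν => by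
    rw [hB]
    simp only
    rw [rs_prod V _ _ fun j _ => pow_mem (hbV j) _]
    exact Finset.prod_congr rfl fun j _ => rs_pow V (hbV j) _
  have hli' : LinearIndependent (kk E V) (fun ν => rs V (B ν)) := by
    have e1 : (fun ν => rs V (B ν)) = fun ν : (j : Fin r) → Fin (ff j) =>
        ∏ j, rs V (b j) ^ (ν j : ℕ) := funext rsB
    rw [e1]
    exact hli
  have horth : ∀ (c : ((i : Fin n) → Fin (ee i)) × ((j : Fin r) → Fin (ff j)) → E) (p),
      V.valuation (algebraMap E F (c p) * (T p.1 * B p.2)) ≤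
        V.valuation (∑ p, algebraMap E F (c p) * (T p.1 * B p.2)) := by
    intro c p
    have e1 : ∑ p, algebraMap E F (c p) * (T p.1 * B p.2) =
        ∑ μ, T μ * ∑ ν, algebraMap E F (c (μ, ν)) * B ν := by
      rw [Fintype.sum_prod_type]
      refine Finset.sum_congr rfl fun μ _ => ?_
      rw [Finset.mul_sum]
      exact Finset.sum_congr rfl fun ν _ => by ring
    have h3 : V.valuation (algebraMap E F (c p) * (T p.1 * B p.2)) ≤
        V.valuation (T p.1 * ∑ ν, algebraMap E F (c (p.1, ν)) * B ν) := by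
      rw [map_mul, map_mul, hB1, mul_one, map_mul, mul_comm]
      exact mul_le_mul_right ((orth_res V B hB1 hli' fun ν => c (p.1, ν)).1 p.2) _
    rw [e1]
    refine h3.trans ?_
    refine orth_val V (fun μ => T μ * ∑ ν, algebraMap E F (c (μ, ν)) * B ν) ?_ p.1
    intro μ μ' hμ hμ' hv
    have key : ∀ μ, T μ * ∑ ν, algebraMap E F (c (μ, ν)) * B ν ≠ 0 → ∃ a : E, a ≠ 0 ∧
        V.valuation (T μ * ∑ ν, algebraMap E F (c (μ, ν)) * B ν) =
          V.valuation (algebraMap E F a * T μ) := by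
      intro μ hμ
      obtain ⟨ν, hν, hv⟩ := (orth_res V B hB1 hli' fun ν => c (μ, ν)).2 (by
        by_contra hcon
        push Not at hcon
        apply hμ
        rw [Finset.sum_eq_zero, mul_zero]
        intro ν _
        rw [hcon ν, map_zero, zero_mul])
      exact ⟨c (μ, ν), hν, by rw [map_mul, hv, map_mul, mul_comm]⟩
    obtain ⟨a, ha, hva⟩ := key μ hμ
    obtain ⟨a', ha', hva'⟩ := key μ' hμ'
    exact hT2 μ μ' a a' ha ha' (by rw [← hva, ← hva']; exact hv)
  -- dimensions
  have hκ : Module.finrank (kk E V) (ResidueField V) ≤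
      Fintype.card ((j : Fin r) → Fin (ff j)) := by
    have hs : Submodule.span (kk E V) (Set.range fun ν => rs V (B ν)) = ⊤ := by
      rw [eq_top_iff]
      intro w _
      have hw : w ∈ IntermediateField.adjoin (kk E V)
          {z | ∃ l : Fin r, (l : ℕ) < r ∧ rs V (b l) = z} := by
        have h3 : Submodule.span (kk E V) (Set.range fun l => rs V (b l)) ≤
            Subalgebra.toSubmodule (IntermediateField.adjoin (kk E V)
              {z | ∃ l : Fin r, (l : ℕ) < r ∧ rs V (b l) = z}).toSubalgebra := by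
          rw [Submodule.span_le]
          rintro _ ⟨l, rfl⟩
          exact IntermediateField.subset_adjoin _ _ ⟨l, l.2, rfl⟩
        exact h3 (hspan w)
      obtain ⟨c, -, hc⟩ := hfld r w hw
      rw [hc]
      refine Submodule.sum_mem _ fun ν _ => Submodule.smul_mem _ _ ?_
      exact Submodule.subset_span ⟨ν, rsB ν⟩
    rw [← finrank_top (kk E V) (ResidueField V), ← hs]
    exact finrank_range_le_card _
  have hn : n ≤ Fintype.card (((i : Fin n) → Fin (ee i)) × ((j : Fin r) → Fin (ff j))) := by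
    choose μc d hd using fun j : Fin n => hT1 (β j) (hβ0 j)
    rw [Fintype.card_prod]
    have h3 : ∀ μ, (Finset.univ.filter fun j => μc j = μ).card ≤
        Fintype.card ((j : Fin r) → Fin (ff j)) := by
      intro μ
      have h4 := class_card V hβ (T μ) (hT0 μ) (J := {j // μc j = μ}) (fun j => j.1)
        Subtype.val_injective (fun j => d j.1) (fun j => by rw [hd, j.2])
      have h5 := h4.fintype_card_le_finrank
      rw [Fintype.card_subtype] at h5
      exact h5.trans hκ
    calc n = (Finset.univ : Finset (Fin n)).card := by rw [Finset.card_univ, Fintype.card_fin]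
      _ = ∑ μ, (Finset.univ.filter fun j => μc j = μ).card :=
          Finset.card_eq_sum_card_fiberwise fun j _ => Finset.mem_univ _
      _ ≤ ∑ μ : (i : Fin n) → Fin (ee i), Fintype.card ((j : Fin r) → Fin (ff j)) :=
          Finset.sum_le_sum fun μ _ => h3 μ
      _ = _ := by rw [Finset.sum_const, Finset.card_univ, smul_eq_mul]
  have hβs : Submodule.span E (Set.range β) = ⊤ := by
    rw [eq_top_iff]
    intro z _
    obtain ⟨c, hc⟩ := hβ.2.1 z
    rw [hc]
    refine Submodule.sum_mem _ fun i _ => ?_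
    rw [← Algebra.smul_def]
    exact Submodule.smul_mem _ _ (Submodule.subset_span ⟨i, rfl⟩)
  have hEF : Module.Finite E F :=
    ⟨⟨Finset.univ.image β, by rw [Finset.coe_image, Finset.coe_univ, Set.image_univ, hβs]⟩⟩
  have hfr : Module.finrank E F ≤ n := by
    rw [← finrank_top E F, ← hβs]
    have := finrank_range_le_card (R := E) β
    rwa [Fintype.card_fin] at this
  have hliP : LinearIndependent E
      (fun p : ((i : Fin n) → Fin (ee i)) × ((j : Fin r) → Fin (ff j)) => T p.1 * B p.2) := by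
    rw [Fintype.linearIndependent_iff]
    intro g hg p
    have h3 := horth g p
    have h4 : ∑ p, algebraMap E F (g p) * (T p.1 * B p.2) = 0 := by
      rw [← hg]
      exact Finset.sum_congr rfl fun p _ => (Algebra.smul_def _ _).symm
    rw [h4, map_zero] at h3
    have h5 := (map_eq_zero _).1 (le_antisymm h3 zero_le)
    rcases mul_eq_zero.1 h5 with h6 | h6
    · exact (map_eq_zero _).1 h6
    · rcases mul_eq_zero.1 h6 with h7 | h7
      · exact absurd h7 (hT0 _)
      · exfalso
        have := hB1 p.2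
        rw [h7, map_zero] at this
        exact zero_ne_one this
  have hcard : Fintype.card (((i : Fin n) → Fin (ee i)) × ((j : Fin r) → Fin (ff j))) =
      Module.finrank E F :=
    le_antisymm hliP.fintype_card_le_finrank (hfr.trans hn)
  have hspanP := hliP.span_eq_top_of_card_eq_finrank' hcard
  refine ⟨n, r, β, ee, b, ff, ⟨hβ0, he0, hb1, hf0, ?_, ?_, ?_, ?_, horth, ?_⟩,
    fun i => ⟨i, rfl⟩, fun i => ⟨i, rfl⟩, fun l => ⟨dd l, hddD l, _, rfl⟩⟩
  · -- rel
    intro i
    obtain ⟨a, m, ha, hm, hv⟩ := (mem_sup_iff V t i _).1 (hrel i)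
    exact ⟨a, m, ha, hm, by rw [Units.val_pow_eq_pow_val] at hv; exact hv⟩
  · -- min
    intro i k a m ha hm hv
    refine hmin i k ((mem_sup_iff V t i _).2 ⟨a, m, ha, hm, ?_⟩)
    rw [Units.val_zpow_eq_zpow_val]
    exact hv
  · -- res
    intro j
    obtain ⟨hh, hsup, heq⟩ := hres j
    have hal := fun l => aeval_lift E V (hh l) b hbV
    have hm1 : ∀ l ∈ (Finset.univ : Finset (Fin (ff j))),
        MvPolynomial.aeval b (lift E V (hh l)) * b j ^ (l : ℕ) ∈ V := fun l _ =>
      V.mul_mem _ _ (hal l).1 (pow_mem (hbV j) _)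
    refine ⟨fun l => lift E V (hh l), fun l => lift_supported E V (hsup l), fun l m => ?_, ?_⟩
    · rw [coeff_lift]
      exact (sc_spec E V _).1
    · rw [← rs_eq_zero V (V.add_mem _ _ (pow_mem (hbV j) _) (sum_mem hm1)),
        rs_add V (pow_mem (hbV j) _) (sum_mem hm1), rs_sum V _ _ hm1, rs_pow V (hbV j), ← heq]
      congr 1
      refine Finset.sum_congr rfl fun l _ => ?_
      rw [rs_mul V (hal l).1 (pow_mem (hbV j) _), (hal l).2, rs_pow V (hbV j)]
  · -- fld
    intro j w hw
    set M := IntermediateField.adjoin (kk E V)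
      {z | ∃ l : Fin r, (l : ℕ) < j ∧ rs V (b l) = z} with hM
    have hcl : ∀ a ∈ Subring.closure
        (((V.comap (algebraMap E F)).toSubring.map (algebraMap E F) : Set F) ∪
          {z | ∃ l : Fin r, (l : ℕ) < j ∧ b l = z}), a ∈ V ∧ rs V a ∈ M := by
      intro a ha
      induction ha using Subring.closure_induction with
      | mem x hx =>
        rcases hx with ⟨y, hy, rfl⟩ | ⟨l, hl, rfl⟩
        · have hy' : algebraMap E F y ∈ V := hy
          refine ⟨hy', ?_⟩
          exact M.algebraMap_mem (⟨_, mem_kk E V hy'⟩ : kk E V)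
        · exact ⟨hbV l, IntermediateField.subset_adjoin _ _ ⟨l, hl, rfl⟩⟩
      | zero => exact ⟨V.zero_mem, by rw [rs_zero]; exact M.zero_mem⟩
      | one => exact ⟨V.one_mem, by rw [rs_one]; exact M.one_mem⟩
      | add x y _ _ hx hy =>
        exact ⟨V.add_mem _ _ hx.1 hy.1, by rw [rs_add V hx.1 hy.1]; exact M.add_mem hx.2 hy.2⟩
      | neg x _ hx => exact ⟨V.neg_mem _ hx.1, by rw [rs_neg V hx.1]; exact M.neg_mem hx.2⟩
      | mul x y _ _ hx hy =>
        exact ⟨V.mul_mem _ _ hx.1 hy.1, by rw [rs_mul V hx.1 hy.1]; exact M.mul_mem hx.2 hy.2⟩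
    obtain ⟨a, ha, b', hb', hb0, hbA, rfl⟩ := mem_lo.1 hw
    obtain ⟨haV, haM⟩ := hcl a ha
    obtain ⟨hbV', hbM⟩ := hcl b' hb'
    have hbA' : b'⁻¹ ∈ V := hbA
    have hwV : a * b'⁻¹ ∈ V := V.mul_mem _ _ haV hbA'
    have hwM : rs V (a * b'⁻¹) ∈ M := by
      rw [rs_mul V haV hbA', rs_inv V hb0 hbV' hbA']
      exact M.mul_mem haM (M.inv_mem hbM)
    obtain ⟨c, hc1, hc2⟩ := hfld j _ hwM
    have hm1 : ∀ ν ∈ (Finset.univ : Finset ((i : Fin r) → Fin (ff i))),
        algebraMap E F (sc E V (c ν)) * B ν ∈ V := fun ν _ =>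
      V.mul_mem _ _ (sc_spec E V _).1 (hBV ν)
    refine ⟨fun ν => sc E V (c ν), fun ν => (sc_spec E V _).1, fun ν hν => ?_, ?_⟩
    · refine hc1 ν fun h0 => hν ?_
      show sc E V (c ν) = 0
      rw [h0, sc_zero]
    · show V.valuation (a * b'⁻¹ - ∑ ν, algebraMap E F (sc E V (c ν)) * B ν) < 1
      rw [← rs_eq_zero V (sub_mem hwV (sum_mem hm1)), rs_sub V hwV (sum_mem hm1),
        rs_sum V _ _ hm1, hc2, sub_eq_zero]
      refine Finset.sum_congr rfl fun ν _ => ?_
      rw [rs_mul V (sc_spec E V _).1 (hBV ν), (sc_spec E V _).2, rsB]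
      rfl
  · -- span
    intro z
    have hz : z ∈ Submodule.span E (Set.range fun p :
        ((i : Fin n) → Fin (ee i)) × ((j : Fin r) → Fin (ff j)) => T p.1 * B p.2) := by
      rw [hspanP]
      trivial
    obtain ⟨c, hc⟩ := (Submodule.mem_span_range_iff_exists_fun E).1 hz
    refine ⟨c, ?_⟩
    rw [← hc]
    exact Finset.sum_congr rfl fun p _ => Algebra.smul_def _ _

end Pool.Agent.Y925.DT
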