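import Pool.Agent.H176.DT.Stm6

/-!
# Completion of a primitive vector to a basis
-/

set_option autoImplicit false

universe u

namespace Pool.Agent.H176.DT

theorem lat6 : S6_lat := by
  intro s γ ⟨c, hc⟩
  let φ : (Fin s → ℤ) →ₗ[ℤ] ℤ :=
    { toFun := fun v => ∑ i, c i * v i
      map_add' := fun v w => by simp [mul_add, Finset.sum_add_distrib]
      map_smul' := fun n v => by
        simp only [Pi.smul_apply, smul_eq_mul, RingHom.id_apply, Finset.mul_sum]
        exact Finset.sum_congr rfl fun i _ => by ring }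
  have hφ : φ γ = 1 := hc
  obtain ⟨t, b⟩ := Submodule.basisOfPid (Pi.basisFun ℤ (Fin s)) (LinearMap.ker φ)
  have hk : ∀ v : Fin s → ℤ, v - φ v • γ ∈ LinearMap.ker φ := by
    intro v
    rw [LinearMap.mem_ker, map_sub, map_smul, hφ]
    simp
  let e : (ℤ × LinearMap.ker φ) ≃ₗ[ℤ] (Fin s → ℤ) :=
    { toFun := fun p => p.1 • γ + (p.2 : Fin s → ℤ)
      map_add' := fun p q => by
        simp only [Prod.fst_add, Prod.snd_add, Submodule.coe_add, add_smul]
        abel
      map_smul' := fun n p => by
        simp only [Prod.smul_fst, Prod.smul_snd, Submodule.coe_smul, RingHom.id_apply, smul_add,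
          smul_eq_mul, mul_smul]
      invFun := fun v => (φ v, ⟨v - φ v • γ, hk v⟩)
      left_inv := fun p => by
        have h0 : φ (p.2 : Fin s → ℤ) = 0 := LinearMap.mem_ker.1 p.2.2
        have h1 : φ (p.1 • γ + (p.2 : Fin s → ℤ)) = p.1 := by
          rw [map_add, map_smul, hφ, h0]; simp
        refine Prod.ext h1 (Subtype.ext ?_)
        show p.1 • γ + (p.2 : Fin s → ℤ) - φ (p.1 • γ + (p.2 : Fin s → ℤ)) • γ = _
        rw [h1]; abel
      right_inv := fun v => by
        show φ v • γ + (v - φ v • γ) = v
        abel }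
  have hs : s = t + 1 := by
    have h1 : Module.finrank ℤ (ℤ × LinearMap.ker φ) = s := by
      rw [e.finrank_eq, Module.finrank_fin_fun]
    have : Module.Free ℤ (LinearMap.ker φ) := Module.Free.of_basis b
    have : Module.Finite ℤ (LinearMap.ker φ) := Module.Finite.of_basis b
    rw [Module.finrank_prod, Module.finrank_self, Module.finrank_eq_card_basis b,
      Fintype.card_fin] at h1
    omega
  refine ⟨t, hs, fun j => (b j : Fin s → ℤ), fun i => φ (Pi.single i 1),
    fun i j => b.repr ⟨_, hk (Pi.single i 1)⟩ j, ?_, ?_⟩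
  · intro i
    have h2 := congrArg (Subtype.val) (b.sum_repr ⟨_, hk (Pi.single i 1)⟩)
    rw [Submodule.coe_sum] at h2
    simp only [Submodule.coe_smul] at h2
    rw [h2]
    abel
  · intro n q h
    have hz : ∀ j, φ (b j : Fin s → ℤ) = 0 := fun j => LinearMap.mem_ker.1 (b j).2
    have hn : n = 0 := by
      have h3 := congrArg φ h
      have h5 : ∑ j, φ (q j • (b j : Fin s → ℤ)) = 0 :=
        Finset.sum_eq_zero fun j _ => by rw [map_smul, hz, smul_zero]
      rw [map_add, map_smul, hφ, map_sum, map_zero, h5] at h3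
      simpa using h3
    refine ⟨hn, ?_⟩
    rw [hn, zero_smul, zero_add] at h
    have h4 : ∑ j, q j • b j = 0 := by
      apply Subtype.ext
      rw [Submodule.coe_sum]
      simpa using h
    funext j
    exact (Fintype.linearIndependent_iff.1 b.linearIndependent) q h4 j

end Pool.Agent.H176.DT
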