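import Pool.Agent.H176.DT.Stm5
import Pool.Agent.H176.DT.B16

/-!
# Descent along etale local extensions
-/

set_option autoImplicit false
set_option linter.unusedVariables false
set_option linter.unusedSectionVars false

universe u

namespace Pool.Agent.H176.DT

open Pool.Agent.W418.LU2 IsLocalRing Polynomial

section desc

variable {F F1 : Type u} [Field F] [Field F1] [Algebra F F1] (V : ValuationSubring F1) (ζ : F1)

/-- The minimal polynomial of a simple root. -/
theorem exists_min (f : F[X]) (hf : f.Monic) (hc : ∀ i, algebraMap F F1 (f.coeff i) ∈ V)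
    (h0 : aeval ζ f = 0) (h1 : V.valuation (aeval ζ (derivative f)) = 1) :
    ∃ h : F[X], h.Monic ∧ (∀ i, algebraMap F F1 (h.coeff i) ∈ V) ∧ aeval ζ h = 0 ∧
      V.valuation (aeval ζ (derivative h)) = 1 ∧
      ∀ q : F[X], q.degree < h.degree → aeval ζ q = 0 → q = 0 := by
  let O : ValuationSubring F := V.comap (algebraMap F F1)
  let _ : Algebra O F1 := ((algebraMap F F1).comp O.subtype).toAlgebra
  have : IsScalarTower O F F1 := IsScalarTower.of_algebraMap_eq fun _ => rfl
  have : Module.IsTorsionFree O F1 := Module.isTorsionFree_iff_algebraMap_injective.2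
    ((algebraMap F F1).injective.comp O.subtype_injective)
  obtain ⟨fO, hfO⟩ := Pool.Agent.H624.DT.lift_poly (RingHom.id F) O.toSubring f hc
  rw [Polynomial.map_id] at hfO
  have hfO' : fO.map (algebraMap O F) = f := hfO
  have hmon : fO.Monic := by
    have h2 : (fO.map (algebraMap O F)).Monic := by rw [hfO']; exact hf
    exact Polynomial.monic_of_injective (FaithfulSMul.algebraMap_injective O F) h2
  have hroot : aeval ζ fO = 0 := by
    rw [← h0, ← hfO', aeval_map_algebraMap]
  have hint : IsIntegral O ζ := ⟨fO, hmon, by rw [← aeval_def]; exact hroot⟩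
  have hmin : minpoly F ζ = (minpoly O ζ).map (algebraMap O F) :=
    minpoly.isIntegrallyClosed_eq_field_fractions F F1 hint
  obtain ⟨g, hg⟩ := minpoly.isIntegrallyClosed_dvd hint hroot
  have hζV : ζ ∈ V := Pool.Agent.H624.DT.int_mem V ζ f hf hc h0
  have hev : ∀ p : O[X], aeval ζ p ∈ V := by
    intro p
    rw [aeval_eq_sum_range]
    refine sum_mem fun i _ => ?_
    rw [Algebra.smul_def]
    exact mul_mem (p.coeff i).2 (pow_mem hζV _)
  have hle : ∀ p : O[X], V.valuation (aeval ζ p) ≤ 1 := fun p =>
    (V.valuation_le_one_iff _).2 (hev p)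
  have hder : aeval ζ (derivative f) = aeval ζ (derivative (minpoly O ζ)) * aeval ζ g := by
    rw [← hfO', derivative_map, aeval_map_algebraMap, hg, derivative_mul, map_add, map_mul,
      map_mul, minpoly.aeval, zero_mul, add_zero]
  refine ⟨(minpoly O ζ).map (algebraMap O F), (minpoly.monic hint).map _, fun i => ?_, ?_, ?_, ?_⟩
  · rw [coeff_map]
    exact ((minpoly O ζ).coeff i).2
  · rw [aeval_map_algebraMap, minpoly.aeval]
  · rw [derivative_map, aeval_map_algebraMap]
    rw [hder, map_mul] at h1
    refine le_antisymm (hle _) ?_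
    calc (1 : V.ValueGroup) = V.valuation (aeval ζ (derivative (minpoly O ζ))) *
          V.valuation (aeval ζ g) := h1.symm
      _ ≤ V.valuation (aeval ζ (derivative (minpoly O ζ))) * 1 :=
          mul_le_mul_right (hle g) _
      _ = _ := mul_one _
  · intro q hq hq0
    by_contra hne
    rw [← hmin] at hq
    exact absurd (minpoly.degree_le_of_ne_zero F ζ hne hq0) (not_le.2 hq)

/-- Descent of regular local rings. -/
theorem desc (hflat : S5_flat.{u}) (hregd : S5_reg.{u}) (B : Subring F) (h : F[X])
    (hB : B ≤ (V.comap (algebraMap F F1)).toSubring) (hm : h.Monic) (hc : ∀ i, h.coeff i ∈ B)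
    (h0 : aeval ζ h = 0) (h1 : V.valuation (aeval ζ (derivative h)) = 1)
    (hmin : ∀ q : F[X], q.degree < h.degree → aeval ζ q = 0 → q = 0) {ι : Type} [Fintype ι]
    (Y : ι → F) (P1 : Subring F1)
    (hP1 : P1 = lo V.toSubring (Subring.closure ((B.map (algebraMap F F1) : Set F1) ∪ {ζ})))
    (hreg : RegP V.toSubring P1 (fun i => algebraMap F F1 (Y i))) :
    (∀ z : F, algebraMap F F1 z ∈ P1 → z ∈ lo (V.comap (algebraMap F F1)).toSubring B) ∧
    RegP (V.comap (algebraMap F F1)).toSubring (lo (V.comap (algebraMap F F1)).toSubring B) Y := by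
  have hle : ∀ z : lo (V.comap (algebraMap F F1)).toSubring B, algebraMap F F1 z ∈ P1 := by
    intro z
    rw [hP1]
    have h2 : algebraMap F F1 z ∈ lo V.toSubring (B.map (algebraMap F F1)) := by
      rw [lo_map (algebraMap F F1) (A' := (V.comap (algebraMap F F1)).toSubring)
        (fun e => Iff.rfl)]
      exact ⟨z, z.2, rfl⟩
    exact lo_mono (fun z hz => Subring.subset_closure (Or.inl hz)) h2
  let inc : lo (V.comap (algebraMap F F1)).toSubring B →+* P1 :=
    ((algebraMap F F1).comp (lo (V.comap (algebraMap F F1)).toSubring B).subtype).codRestrict P1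
      hle
  have hinc : ∀ z, ((inc z : P1) : F1) = algebraMap F F1 z := fun z => rfl
  obtain ⟨ha, hb, hd, he⟩ := hflat V ζ B h hB hm hc h0 h1 hmin _ P1 rfl hP1 inc hinc
  have hr1 := hreg.reg
  have hloc : IsLocalRing (lo (V.comap (algebraMap F F1)).toSubring B) :=
    isLocalRing_lo (loc_V _) hB
  have hunit : ∀ z : lo (V.comap (algebraMap F F1)).toSubring B, IsUnit (inc z) → IsUnit z := by
    intro z hz
    rw [hreg.isUnit, hinc] at hz
    rw [isUnit_lo_iff hB]
    refine ⟨fun h => hz.1 (by rw [h, map_zero]), ?_⟩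
    change algebraMap F F1 (z : F)⁻¹ ∈ V
    rw [map_inv₀]
    exact hz.2
  have hmax : maximalIdeal P1 =
      (maximalIdeal (lo (V.comap (algebraMap F F1)).toSubring B)).map inc := by
    apply le_antisymm
    · intro z hz
      have h2 := hd z ((mem_maximalIdeal z).1 hz)
      refine Ideal.map_mono ?_ h2
      rw [Ideal.span_le]
      intro y hy
      exact (mem_maximalIdeal y).2 hy
    · rw [Ideal.map_le_iff_le_comap]
      intro z hz
      rw [Ideal.mem_comap, mem_maximalIdeal, mem_nonunits_iff]
      intro h2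
      exact (mem_maximalIdeal z).1 hz (hunit z h2)
  obtain ⟨hr, hi⟩ := hregd inc hb hmax he
  refine ⟨ha, ⟨lo_le hB, fun i hi => hreg.ne i ?_, fun i => ha _ (hreg.mem i), hr,
    fun y hy h0 h1 => inv_mem_lo hB hy h0 h1, ?_⟩⟩
  · simp only [hi, map_zero]
  · exact hi (fun i => ⟨Y i, ha _ (hreg.mem i)⟩) hreg.ind

end desc

end Pool.Agent.H176.DT
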