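import Pool.Agent.H176.DT.H5
import Pool.Agent.H176.DT.B17

/-!
# Defectless finite extensions of subfields
-/

set_option autoImplicit false
set_option linter.unusedVariables false
set_option linter.unusedSectionVars false

universe u

namespace Pool.Agent.H176.DT

open Pool.Agent.W418.LU2 IsLocalRing Polynomial

/-- Finite extensions of fields are generated by finitely many elements of the valuation ring. -/
lemma exists_gen {E F : Type u} [Field E] [Field F] [Algebra E F] (V : ValuationSubring F)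
    [FiniteDimensional E F] : ∃ U : Set F, U.Finite ∧ (∀ u ∈ U, u ∈ V) ∧
      ∀ z : F, z ∈ Subfield.closure (Set.range (algebraMap E F) ∪ U) := by
  classical
  let b := Module.finBasis E F
  refine ⟨Set.range fun i => if b i ∈ V then b i else (b i)⁻¹, Set.finite_range _, ?_, ?_⟩
  · rintro _ ⟨i, rfl⟩
    by_cases h : b i ∈ V
    · simp only [if_pos h]
      exact h
    · simp only [if_neg h]
      exact (V.mem_or_inv_mem _).resolve_left h
  · intro z
    rw [← b.sum_repr z]
    refine sum_mem fun i _ => ?_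
    rw [Algebra.smul_def]
    refine mul_mem (Subfield.subset_closure (Or.inl ⟨_, rfl⟩)) ?_
    have h1 : (if b i ∈ V then b i else (b i)⁻¹) ∈ Subfield.closure
        (Set.range (algebraMap E F) ∪ Set.range fun i => if b i ∈ V then b i else (b i)⁻¹) :=
      Subfield.subset_closure (Or.inr ⟨i, rfl⟩)
    by_cases h : b i ∈ V
    · rw [if_pos h] at h1
      exact h1
    · rw [if_neg h] at h1
      have h2 := inv_mem h1
      rwa [inv_inv] at h2

section gen

variable {M : Type u} [Field M]

lemma cl_gen {S : Set M} (z : Subfield.closure S) :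
    z ∈ Subfield.closure {w : Subfield.closure S | (w : M) ∈ S} := by
  have h1 : (z : M) ∈ (Subfield.closure {w : Subfield.closure S | (w : M) ∈ S}).map
      (Subfield.closure S).subtype := by
    rw [RingHom.map_field_closure]
    refine Subfield.closure_mono ?_ z.2
    intro w hw
    exact ⟨⟨w, Subfield.subset_closure hw⟩, hw, rfl⟩
  obtain ⟨w, hw, hwz⟩ := h1
  have h2 : w = z := Subtype.ext hwz
  rwa [h2] at hw

variable {E : Type u} [Field E] (φ : E →+* M) (ζ : M)

/-- The field generated by an element over the image of a field. -/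
abbrev Ad : Subfield M := Subfield.closure (Set.range φ ∪ {ζ})

/-- The inclusion. -/
def toAd : E →+* Ad φ ζ := φ.codRestrict (Ad φ ζ) fun z => Subfield.subset_closure (Or.inl ⟨z, rfl⟩)

/-- The generator. -/
def zAd : Ad φ ζ := ⟨ζ, Subfield.subset_closure (Or.inr rfl)⟩

lemma Ad_poly (f : E[X]) (hf : f.Monic) (h0 : eval₂ φ ζ f = 0) (z : Ad φ ζ) :
    ∃ p : E[X], eval₂ (toAd φ ζ) (zAd φ ζ) p = z := by
  letI := (toAd φ ζ).toAlgebra
  have hint : IsIntegral E (zAd φ ζ) := ⟨f, hf, by
    apply (Ad φ ζ).subtype_injective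
    rw [hom_eval₂, map_zero]
    exact h0⟩
  refine gen_alg hint ?_
  have h1 := cl_gen z
  refine Subfield.closure_mono ?_ h1
  rintro w (⟨a, ha⟩ | hw)
  · exact Or.inl ⟨a, Subtype.ext ha⟩
  · exact Or.inr (Subtype.ext hw)

lemma Ad_coe (p : E[X]) : ((eval₂ (toAd φ ζ) (zAd φ ζ) p : Ad φ ζ) : M) = eval₂ φ ζ p :=
  hom_eval₂ p (toAd φ ζ) (Ad φ ζ).subtype (zAd φ ζ)

end gen

section key

variable {E F M : Type u} [Field E] [Field F] [Field M] [Algebra E F] [Algebra F M]

lemma fin_dfl (ζ : M) (f : E[X]) (hf : f.Monic)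
    (h0 : eval₂ ((algebraMap F M).comp (algebraMap E F)) ζ f = 0) {n : ℕ} (β : Fin n → F)
    (hspan : ∀ z : F, ∃ p : Fin n → E[X], algebraMap F M z =
      ∑ i, eval₂ ((algebraMap F M).comp (algebraMap E F)) ζ (p i) * algebraMap F M (β i)) :
    FiniteDimensional E F := by
  letI : Algebra E M := ((algebraMap F M).comp (algebraMap E F)).toAlgebra
  haveI : IsScalarTower E F M := IsScalarTower.of_algebraMap_eq fun _ => rfl
  have hint : IsIntegral E ζ := ⟨f, hf, h0⟩
  have h1 : (Subalgebra.toSubmodule (Algebra.adjoin E {ζ})).FG := hint.fg_adjoin_singleton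
  have h2 : (Submodule.span E (Set.range fun i => algebraMap F M (β i))).FG :=
    Submodule.fg_span (Set.finite_range _)
  have h3 := h1.mul h2
  set N := Subalgebra.toSubmodule (Algebra.adjoin E {ζ}) *
    Submodule.span E (Set.range fun i => algebraMap F M (β i)) with hN
  have : Module.Finite E N := Module.Finite.iff_fg.2 h3
  have h4 : ∀ z : F, (IsScalarTower.toAlgHom E F M).toLinearMap z ∈ N := by
    intro z
    obtain ⟨p, hp⟩ := hspan z
    change algebraMap F M z ∈ N
    rw [hp]
    refine Submodule.sum_mem _ fun i _ => Submodule.mul_mem_mul ?_ (Submodule.subset_span ⟨i, rfl⟩)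
    exact aeval_mem_adjoin_singleton E ζ
  exact Module.Finite.of_injective ((IsScalarTower.toAlgHom E F M).toLinearMap.codRestrict N h4)
    fun a b hab => (algebraMap F M).injective (congrArg Subtype.val hab)

variable {E1 F1 : Type u} [Field E1] [Field F1] [Algebra E E1] [Algebra F F1] [Algebra E1 F1]

theorem key_abs (hflat : S5_flat.{u}) (hregd : S5_reg.{u}) (het : S5_et.{u}) (ψ : F1 →+* M)
    (hψ : ∀ z : F, ψ (algebraMap F F1 z) = algebraMap F M z)
    (hcomm : ∀ z : E, algebraMap E1 F1 (algebraMap E E1 z) = algebraMap F F1 (algebraMap E F z))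
    (ζ1 : E1) (hpoly : ∀ z : E1, ∃ p : E[X], aeval ζ1 p = z)
    (hpolyF : ∀ z : F1, ∃ p : F[X], eval₂ (algebraMap F M) (ψ (algebraMap E1 F1 ζ1)) p = ψ z)
    (W : ValuationSubring M) (A : Subring E)
    (hM : Mod ((W.comap (algebraMap F M)).comap (algebraMap E F)) A)
    (hSU : SU ((W.comap (algebraMap F M)).comap (algebraMap E F)) A)
    (ζ : M) (hζ : ψ (algebraMap E1 F1 ζ1) = ζ) (f : E[X]) (hf : f.Monic)
    (hfV : ∀ i, algebraMap F M (algebraMap E F (f.coeff i)) ∈ W)
    (h0 : eval₂ ((algebraMap F M).comp (algebraMap E F)) ζ f = 0)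
    (h1 : W.valuation (eval₂ ((algebraMap F M).comp (algebraMap E F)) ζ (derivative f)) = 1)
    {n : ℕ} (β : Fin n → F) (hβ0 : ∀ i, β i ≠ 0)
    (hspan : ∀ z : F, ∃ p : Fin n → E[X], algebraMap F M z =
      ∑ i, eval₂ ((algebraMap F M).comp (algebraMap E F)) ζ (p i) * algebraMap F M (β i))
    (horth : ∀ (p : Fin n → E[X]) (i : Fin n),
      W.valuation (eval₂ ((algebraMap F M).comp (algebraMap E F)) ζ (p i) *
        algebraMap F M (β i)) ≤
      W.valuation (∑ j, eval₂ ((algebraMap F M).comp (algebraMap E F)) ζ (p j) *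
        algebraMap F M (β j))) :
    ∃ U : Set F, U.Finite ∧
      Mod (W.comap (algebraMap F M)) (Subring.closure ((A.map (algebraMap E F) : Set F) ∪ U)) ∧
      SU (W.comap (algebraMap F M)) (Subring.closure ((A.map (algebraMap E F) : Set F) ∪ U)) := by
  classical
  have hfd := fin_dfl ζ f hf h0 β hspan
  have hW : (W.comap ψ).comap (algebraMap F F1) = W.comap (algebraMap F M) := by
    ext z
    change ψ (algebraMap F F1 z) ∈ W ↔ algebraMap F M z ∈ W
    rw [hψ]
  have hev : ∀ p : E[X], ψ (algebraMap E1 F1 (aeval ζ1 p)) =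
      eval₂ ((algebraMap F M).comp (algebraMap E F)) ζ p := by
    intro p
    have h3 : (ψ.comp (algebraMap E1 F1)).comp (algebraMap E E1) =
        (algebraMap F M).comp (algebraMap E F) := by
      ext z
      change ψ (algebraMap E1 F1 (algebraMap E E1 z)) = algebraMap F M (algebraMap E F z)
      rw [hcomm, hψ]
    have h4 := hom_eval₂ p (algebraMap E E1) (ψ.comp (algebraMap E1 F1)) ζ1
    rw [h3] at h4
    rw [← hζ]
    exact h4
  rw [← hW] at hM hSU ⊢
  obtain ⟨U0, hU0f, hU0V, hU0g⟩ := exists_gen (E := E) ((W.comap ψ).comap (algebraMap F F1))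
  have hspan' : ∀ z : F1, ∃ p : Fin n → E[X],
      ψ z = ∑ i, eval₂ ((algebraMap F M).comp (algebraMap E F)) ζ (p i) *
        algebraMap F M (β i) := by
    intro z
    obtain ⟨P, hP⟩ := hpolyF z
    rw [hζ] at hP
    rw [← hP]
    clear hP
    induction P using Polynomial.induction_on with
    | C a =>
      rw [eval₂_C]
      exact hspan a
    | add a b ha hb =>
      obtain ⟨p, hp⟩ := ha
      obtain ⟨p', hp'⟩ := hb
      refine ⟨p + p', ?_⟩
      rw [eval₂_add, hp, hp', ← Finset.sum_add_distrib]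
      exact Finset.sum_congr rfl fun i _ => by rw [Pi.add_apply, eval₂_add, add_mul]
    | monomial k a ha =>
      obtain ⟨p, hp⟩ := ha
      refine ⟨fun i => p i * X, ?_⟩
      rw [pow_succ, ← mul_assoc, eval₂_mul_X, hp, Finset.sum_mul]
      exact Finset.sum_congr rfl fun i _ => by rw [eval₂_mul_X]; ring
  have hsum : ∀ p : Fin n → E[X], ψ (∑ j, algebraMap E1 F1 (aeval ζ1 (p j)) *
      algebraMap F F1 (β j)) =
      ∑ j, eval₂ ((algebraMap F M).comp (algebraMap E F)) ζ (p j) * algebraMap F M (β j) := by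
    intro p
    rw [map_sum]
    exact Finset.sum_congr rfl fun j _ => by rw [map_mul, hev, hψ]
  refine key_dfl (E := E) (F := F) (E1 := E1) (F1 := F1) hflat hregd het hcomm
    (W.comap ψ) A hM hSU ζ1 hpoly f hf (fun i => ?_) ?_ ?_ (β := β) ⟨?_, ?_, ?_⟩ U0 hU0f
    hU0V hU0g
  · rw [hcomm, ValuationSubring.mem_comap, hψ]
    exact hfV i
  · apply (algebraMap E1 F1).injective
    apply ψ.injective
    rw [hev, h0, map_zero, map_zero]
  · rw [comap_one, hev]
    exact h1
  · intro i
    exact (_root_.map_ne_zero _).2 (hβ0 i)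
  · intro z
    obtain ⟨p, hp⟩ := hspan' z
    refine ⟨fun i => aeval ζ1 (p i), ?_⟩
    apply ψ.injective
    rw [hp, hsum]
  · intro c i
    choose p hp using fun j => hpoly (c j)
    obtain rfl : c = fun j => aeval ζ1 (p j) := funext fun j => (hp j).symm
    rw [comap_le, hsum, map_mul, hev, hψ]
    exact horth p i

end key

end Pool.Agent.H176.DT
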