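import Pool.Agent.H176.DT.H6

/-!
# Defectless finite extensions of subfields, continued
-/

set_option autoImplicit false
set_option linter.unusedVariables false
set_option linter.unusedSectionVars false

universe u

namespace Pool.Agent.H176.DT

open Pool.Agent.W418.LU2 IsLocalRing Polynomial

section key

variable {E F M : Type u} [Field E] [Field F] [Field M] [Algebra E F] [Algebra F M]

theorem key_dfl' (hflat : S5_flat.{u}) (hregd : S5_reg.{u}) (het : S5_et.{u})
    (W : ValuationSubring M) (A : Subring E)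
    (hM : Mod ((W.comap (algebraMap F M)).comap (algebraMap E F)) A)
    (hSU : SU ((W.comap (algebraMap F M)).comap (algebraMap E F)) A)
    (ζ : M) (f : E[X]) (hf : f.Monic)
    (hfV : ∀ i, algebraMap F M (algebraMap E F (f.coeff i)) ∈ W)
    (h0 : eval₂ ((algebraMap F M).comp (algebraMap E F)) ζ f = 0)
    (h1 : W.valuation (eval₂ ((algebraMap F M).comp (algebraMap E F)) ζ (derivative f)) = 1)
    {n : ℕ} (β : Fin n → F) (hβ0 : ∀ i, β i ≠ 0)
    (hspan : ∀ z : F, ∃ p : Fin n → E[X], algebraMap F M z =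
      ∑ i, eval₂ ((algebraMap F M).comp (algebraMap E F)) ζ (p i) * algebraMap F M (β i))
    (horth : ∀ (p : Fin n → E[X]) (i : Fin n),
      W.valuation (eval₂ ((algebraMap F M).comp (algebraMap E F)) ζ (p i) *
        algebraMap F M (β i)) ≤
      W.valuation (∑ j, eval₂ ((algebraMap F M).comp (algebraMap E F)) ζ (p j) *
        algebraMap F M (β j))) :
    ∃ U : Set F, U.Finite ∧
      Mod (W.comap (algebraMap F M)) (Subring.closure ((A.map (algebraMap E F) : Set F) ∪ U)) ∧
      SU (W.comap (algebraMap F M)) (Subring.closure ((A.map (algebraMap E F) : Set F) ∪ U)) := by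
  have hle : Ad ((algebraMap F M).comp (algebraMap E F)) ζ ≤ Ad (algebraMap F M) ζ := by
    refine Subfield.closure_mono (Set.union_subset_union_left _ ?_)
    rintro _ ⟨z, rfl⟩
    exact ⟨_, rfl⟩
  have hpoly := Ad_poly ((algebraMap F M).comp (algebraMap E F)) ζ f hf h0
  have hpolyF : ∀ z : Ad (algebraMap F M) ζ, ∃ p : F[X],
      eval₂ (algebraMap F M) ζ p = (z : M) := by
    intro z
    obtain ⟨p, hp⟩ := Ad_poly (algebraMap F M) ζ (f.map (algebraMap E F)) (hf.map _)
      (by rw [eval₂_map]; exact h0) z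
    exact ⟨p, by rw [← hp, Ad_coe]⟩
  exact @key_abs E F M _ _ _ _ _ (Ad ((algebraMap F M).comp (algebraMap E F)) ζ)
    (Ad (algebraMap F M) ζ) _ _ (toAd ((algebraMap F M).comp (algebraMap E F)) ζ).toAlgebra
    (toAd (algebraMap F M) ζ).toAlgebra (Subfield.inclusion hle).toAlgebra hflat hregd het
    (Ad (algebraMap F M) ζ).subtype (fun z => rfl) (fun z => rfl)
    (zAd ((algebraMap F M).comp (algebraMap E F)) ζ) hpoly hpolyF W A hM hSU ζ rfl f hf hfV h0 h1
    n β hβ0 hspan horth

end key

section sub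

variable {K : Type u} [Field K] {L L' : Subfield K}

/-- The step along a finite extension without defect. -/
theorem sub_dfl (hflat : S5_flat.{u}) (hregd : S5_reg.{u}) (het : S5_et.{u})
    (V : ValuationSubring K) (R : Subring K) (hL : L ≤ L') (M : Type u) [Field M] [Algebra K M]
    (W : ValuationSubring M) (hW : W.comap (algebraMap K M) = V) (ζ : M) (f : L[X])
    (hf : f.Monic) (hfV : ∀ i, (f.coeff i : K) ∈ V)
    (h0 : eval₂ ((algebraMap K M).comp L.subtype) ζ f = 0)
    (h1 : W.valuation (eval₂ ((algebraMap K M).comp L.subtype) ζ (derivative f)) = 1)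
    (n : ℕ) (β : Fin n → K) (hβ : ∀ i, β i ∈ L') (hβ0 : ∀ i, β i ≠ 0)
    (hspan : ∀ z ∈ L', ∃ p : Fin n → L[X], algebraMap K M z =
      ∑ i, eval₂ ((algebraMap K M).comp L.subtype) ζ (p i) * algebraMap K M (β i))
    (horth : ∀ (p : Fin n → L[X]) (i : Fin n),
      W.valuation (eval₂ ((algebraMap K M).comp L.subtype) ζ (p i) * algebraMap K M (β i)) ≤
      W.valuation (∑ j, eval₂ ((algebraMap K M).comp L.subtype) ζ (p j) * algebraMap K M (β j)))
    (h : Inv V R L.subtype) : Inv V R L'.subtype := by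
  subst hW
  let _ : Algebra L L' := (Subfield.inclusion hL).toAlgebra
  let _ : Algebra L' M := ((algebraMap K M).comp L'.subtype).toAlgebra
  refine Inv.step (F := L) (F' := L') (φ := L.subtype) rfl h ?_
  intro A hM hSU
  exact key_dfl' hflat hregd het W A hM hSU ζ f hf hfV h0 h1 (fun i => (⟨β i, hβ i⟩ : L'))
    (fun i h => hβ0 i (congrArg Subtype.val h)) (fun z => hspan z z.2) horth

end sub

end Pool.Agent.H176.DT
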