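import Pool.Agent.H176.DT.H7
import Pool.Agent.H208.DT5.Flat
import Pool.Agent.Y427.DT5.Reg
import Pool.Agent.Y212.DT5.Et

/-!
# Finite extensions without defect
-/

set_option autoImplicit false
set_option linter.unusedVariables false
set_option linter.unusedSectionVars false

universe u

namespace Pool.Agent.H176.DT

open Pool.Agent.W418.LU2 IsLocalRing Polynomial

theorem p_flat : S5_flat.{u} := Pool.Agent.H208.DT5.flat
theorem p_regd : S5_reg.{u} := Pool.Agent.Y427.DT5.reg
theorem p_et5 : S5_et.{u} := Pool.Agent.Y212.DT5.et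

section sub

variable {K : Type u} [Field K] {L L' : Subfield K}

/-- The step along a finite extension without defect. -/
theorem sub_nd (V : ValuationSubring K) (R : Subring K) (hL : L ≤ L')
    (hN : ∃ (M : Type u) (_ : Field M) (_ : Algebra K M) (W : ValuationSubring M) (ζ : M)
      (f : L[X]) (n : ℕ) (β : Fin n → K), W.comap (algebraMap K M) = V ∧ f.Monic ∧
      (∀ i, (f.coeff i : K) ∈ V) ∧ eval₂ ((algebraMap K M).comp L.subtype) ζ f = 0 ∧
      W.valuation (eval₂ ((algebraMap K M).comp L.subtype) ζ (derivative f)) = 1 ∧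
      (∀ i, β i ∈ L' ∧ β i ≠ 0) ∧
      (∀ z ∈ L', ∃ p : Fin n → L[X], algebraMap K M z =
        ∑ i, eval₂ ((algebraMap K M).comp L.subtype) ζ (p i) * algebraMap K M (β i)) ∧
      ∀ (p : Fin n → L[X]) (i : Fin n),
        W.valuation (eval₂ ((algebraMap K M).comp L.subtype) ζ (p i) * algebraMap K M (β i)) ≤
        W.valuation
          (∑ j, eval₂ ((algebraMap K M).comp L.subtype) ζ (p j) * algebraMap K M (β j)))
    (h : Inv V R L.subtype) : Inv V R L'.subtype := by
  obtain ⟨M, _, _, W, ζ, f, n, β, hW, hf, hfV, h0, h1, hβ, hspan, horth⟩ := hN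
  exact sub_dfl p_flat p_regd p_et5 V R hL M W hW ζ f hf hfV h0 h1 n β (fun i => (hβ i).1)
    (fun i => (hβ i).2) hspan horth h

end sub

end Pool.Agent.H176.DT
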