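import Pool.Agent.H176.DT.B17

/-!
# Statements for the project DT, part two (key polynomials)
-/

set_option autoImplicit false
set_option linter.unusedVariables false
set_option linter.unusedSectionVars false

universe u

namespace Pool.Agent.H176.DT

open Pool.Agent.W418.LU2 IsLocalRing Polynomial

section defs

variable {E F : Type u} [Field E] [Field F] [Algebra E F]

/-- `ϕ` is a key polynomial, and the `β i` are an orthogonal basis of the polynomials of smaller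
degree. -/
structure KP (V : ValuationSubring F) (θ : F) (ϕ : E[X]) {n : ℕ} (β : Fin n → E[X]) : Prop where
  monic : ϕ.Monic
  deg : 0 < ϕ.natDegree
  bdeg : ∀ i, (β i).degree < ϕ.degree
  b0 : ∀ i, β i ≠ 0
  span : ∀ f : E[X], f.degree < ϕ.degree → ∃ c : Fin n → E, f = ∑ i, C (c i) * β i
  orth : ∀ (c : Fin n → E) (i : Fin n), V.valuation (aeval θ (C (c i) * β i)) ≤
    V.valuation (aeval θ (∑ j, C (c j) * β j))
  key : ∀ f g : E[X], f.degree < ϕ.degree → g.degree < ϕ.degree → f ≠ 0 → g ≠ 0 →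
    V.valuation (aeval θ ((f * g /ₘ ϕ) * ϕ)) < V.valuation (aeval θ (f * g))

/-- The `ϕ`-adic expansion of `f` with the digits `d k`. -/
structure Exn (ϕ : E[X]) (N : ℕ) (d : ℕ → E[X]) (f : E[X]) : Prop where
  deg : ∀ k, (d k).degree < ϕ.degree
  sum : f = ∑ k ∈ Finset.range N, d k * ϕ ^ k

/-- The value of `f` dominates the values of the terms of its `ϕ`-adic expansion. -/
def Domi (V : ValuationSubring F) (θ : F) (ϕ f : E[X]) : Prop :=
  ∃ (N : ℕ) (d : ℕ → E[X]), Exn ϕ N d f ∧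
    ∀ k < N, V.valuation (aeval θ (d k * ϕ ^ k)) ≤ V.valuation (aeval θ f)

/-- The digit of degree zero is bounded by `ρ`, the other terms are smaller than `ρ`. -/
def Dig (V : ValuationSubring F) (θ : F) (ϕ : E[X]) (ρ : V.ValueGroup) (f : E[X]) : Prop :=
  ∃ (N : ℕ) (d : ℕ → E[X]), Exn ϕ (N + 1) d f ∧ V.valuation (aeval θ (d 0)) ≤ ρ ∧
    ∀ k, 1 ≤ k → k ≤ N → V.valuation (aeval θ (d k * ϕ ^ k)) < ρ

/-- The residue field `M` of the key polynomial. -/
structure Rsd (V : ValuationSubring F) (θ : F) (ϕ : E[X]) {M : Type u} [Field M] [Algebra E M]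
    (W : ValuationSubring M) (π : E[X] →ₐ[E] M) : Prop where
  comap : W.comap (algebraMap E M) = V.comap (algebraMap E F)
  sur : ∀ x : M, ∃ f : E[X], f.degree < ϕ.degree ∧ π f = x
  ker : ∀ f : E[X], π f = 0 ↔ ϕ ∣ f
  val : ∀ f g : E[X], f.degree < ϕ.degree → g.degree < ϕ.degree →
    (W.valuation (π f) ≤ W.valuation (π g) ↔ V.valuation (aeval θ f) ≤ V.valuation (aeval θ g))

/-- Sums of products of monomials and the elements `z p`. -/
def Rep (E : Type u) {F : Type u} [Field E] [Field F] [Algebra E F] (V : ValuationSubring F)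
    {q : ℕ} {P : Type} (t : Fin q → F) (z : P → F) (Q : V.ValueGroup → Prop) (w : F) : Prop :=
  ∃ (k : ℕ) (a : Fin k → E) (μ : Fin k → Fin q → ℤ) (p : Fin k → P),
    w = ∑ i, algebraMap E F (a i) * mo t (μ i) * z (p i) ∧
    ∀ i, a i ≠ 0 ∧ Q (V.valuation (algebraMap E F (a i) * mo t (μ i)))

/-- The data of a key polynomial: the `b j` generate the residue field, the `t i` generate the
value group, the last `t i` is the key polynomial, and the `z p` are the normalized elements of the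
basis of the polynomials of smaller degree. -/
structure Key (V : ValuationSubring F) (θ : F) {q r : ℕ} {P : Type} [Fintype P]
    (t : Fin (q + 1) → F) (ee : Fin (q + 1) → ℕ) (g : Fin (q + 1) → E)
    (m₀ : Fin (q + 1) → Fin (q + 1) → ℤ) (b : Fin r → F) (ff : Fin r → ℕ) (z : P → F) : Prop where
  nt : ∃ a : E, a ≠ 0 ∧ V.valuation (algebraMap E F a) < 1
  t0 : ∀ i, t i ≠ 0
  e0 : ∀ i, 0 < ee i
  g0 : ∀ i, g i ≠ 0
  b1 : ∀ j, V.valuation (b j) = 1
  f0 : ∀ j, 0 < ff j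
  z1 : ∀ p, V.valuation (z p) = 1
  m0 : ∀ i j, i ≤ j → m₀ i j = 0
  rel : ∀ i, V.valuation (t i ^ ee i) = V.valuation (algebraMap E F (g i) * mo t (m₀ i))
  min : ∀ (i : Fin (q + 1)) (k : ℤ) (a : E) (m : Fin (q + 1) → ℤ), a ≠ 0 →
    (∀ j, i ≤ j → m j = 0) →
    V.valuation (t i ^ k) = V.valuation (algebraMap E F a * mo t m) → (ee i : ℤ) ∣ k
  bm : ∀ (j : Fin r) (w : Fin (ff j) → F),
    (∀ k, w k ∈ lo V.toSubring (Subring.closure
      (((V.comap (algebraMap E F)).toSubring.map (algebraMap E F) : Set F) ∪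
        {z | ∃ l : Fin r, (l : ℕ) < (j : ℕ) ∧ b l = z}))) →
    V.valuation (∑ k, w k * b j ^ (k : ℕ)) < 1 → ∀ k, V.valuation (w k) < 1
  res : ∀ j, ∃ h : Fin (ff j) → MvPolynomial (Fin r) E,
    (∀ l, h l ∈ MvPolynomial.supported E {i | i < j}) ∧
    (∀ l m, algebraMap E F ((h l).coeff m) ∈ V) ∧
    Rep E V t z (· < 1) (b j ^ ff j + ∑ l, MvPolynomial.aeval b (h l) * b j ^ (l : ℕ))
  tw : ∀ i : Fin q, ∃ p : MvPolynomial (Fin r) E, (∀ m, algebraMap E F (p.coeff m) ∈ V) ∧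
    Rep E V t z (· < 1) (t i.castSucc ^ ee i.castSucc *
      (algebraMap E F (g i.castSucc) * mo t (m₀ i.castSucc))⁻¹ - MvPolynomial.aeval b p)
  zw : ∀ k : P, ∃ p : MvPolynomial (Fin r) E, (∀ m, algebraMap E F (p.coeff m) ∈ V) ∧
    Rep E V t z (· < 1) (z k - MvPolynomial.aeval b p)
  om : ∃ (d : ℕ) (c : ℕ → E), (∀ i, algebraMap E F (c i) ∈ V) ∧
    V.valuation ((t (Fin.last q) ^ ee (Fin.last q) *
      (algebraMap E F (g (Fin.last q)) * mo t (m₀ (Fin.last q)))⁻¹) ^ (d + 1) +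
      ∑ i ∈ Finset.range (d + 1), algebraMap E F (c i) *
        (t (Fin.last q) ^ ee (Fin.last q) *
          (algebraMap E F (g (Fin.last q)) * mo t (m₀ (Fin.last q)))⁻¹) ^ i) < 1
  tp : ∀ i, ∃ f : E[X], aeval θ f = t i
  bp : ∀ j, ∃ f : E[X], aeval θ f = b j
  zp : ∀ k : P, ∃ (m : Fin (q + 1) → ℤ) (f : E[X]), aeval θ f = z k * mo t m

/-- The element is a monomial times a unit with a good expansion. -/
def Mono (E : Type u) {F : Type u} [Field E] [Field F] [Algebra E F] (V : ValuationSubring F)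
    {q : ℕ} {P : Type} (t : Fin q → F) (z : P → F) (v : F) : Prop :=
  ∃ (a : E) (m : Fin q → ℤ) (w : F), a ≠ 0 ∧ v = algebraMap E F a * mo t m * w ∧
    V.valuation w = 1 ∧ Rep E V t z (· ≤ 1) w

/-- The data for the lifts of a defectless structure of the residue field of a key polynomial. -/
structure Lft (V : ValuationSubring F) (θ : F) (ϕ : E[X]) {M : Type u} [Field M] [Algebra E M]
    (W : ValuationSubring M) (π : E[X] →ₐ[E] M) {q r : ℕ} (t : Fin q → M) (ee : Fin q → ℕ)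
    (b : Fin r → M) (ff : Fin r → ℕ) (tt : Fin q → E[X]) (bb : Fin r → E[X])
    (zz : ((i : Fin q) → Fin (ee i)) × ((j : Fin r) → Fin (ff j)) → E[X]) : Prop where
  rsd : Rsd V θ ϕ W π
  str : Str (E := E) W t ee b ff
  td : ∀ i, (tt i).degree < ϕ.degree
  tπ : ∀ i, π (tt i) = t i
  bd : ∀ j, (bb j).degree < ϕ.degree
  bπ : ∀ j, π (bb j) = b j
  zd : ∀ p, (zz p).degree < ϕ.degree
  zπ : ∀ p, π (zz p) = (∏ i, t i ^ (p.1 i : ℕ)) * ∏ j, b j ^ (p.2 j : ℕ)

/-- The generators of the value group, with the key polynomial. -/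
noncomputable def tf (θ : F) (ϕ : E[X]) {q : ℕ} (tt : Fin q → E[X]) : Fin (q + 1) → F :=
  Fin.snoc (α := fun _ => F) (fun i => aeval θ (tt i)) (aeval θ ϕ)

/-- The normalized elements of the basis. -/
noncomputable def zf (θ : F) {q r : ℕ} {ee : Fin q → ℕ} {ff : Fin r → ℕ} (tt : Fin q → E[X])
    (zz : ((i : Fin q) → Fin (ee i)) × ((j : Fin r) → Fin (ff j)) → E[X])
    (p : ((i : Fin q) → Fin (ee i)) × ((j : Fin r) → Fin (ff j))) : F :=
  aeval θ (zz p) * (∏ i, aeval θ (tt i) ^ (p.1 i : ℕ))⁻¹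

end defs

/-! ## Expansions -/

/-- The calculus of digits. -/
def S2_dig : Prop :=
  ∀ {E F : Type u} [Field E] [Field F] [Algebra E F] (V : ValuationSubring F) (θ : F)
    (ϕ : E[X]) (n : ℕ) (β : Fin n → E[X]), Transcendental E θ → KP V θ ϕ β →
    (∀ (ρ : V.ValueGroup) (f : E[X]), f.degree < ϕ.degree → V.valuation (aeval θ f) ≤ ρ →
      ρ ≠ 0 → Dig V θ ϕ ρ f) ∧
    (∀ (ρ : V.ValueGroup) (f g : E[X]), Dig V θ ϕ ρ f → Dig V θ ϕ ρ g → Dig V θ ϕ ρ (f + g)) ∧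
    (∀ (ρ : V.ValueGroup) (f : E[X]), Dig V θ ϕ ρ f → Dig V θ ϕ ρ (-f)) ∧
    (∀ (ρ σ : V.ValueGroup) (f g : E[X]), ρ ≠ 0 → σ ≠ 0 → Dig V θ ϕ ρ f → Dig V θ ϕ σ g →
      Dig V θ ϕ (ρ * σ) (f * g)) ∧
    ∀ (ρ : V.ValueGroup) (f : E[X]), Dig V θ ϕ ρ f → ϕ ∣ f →
      ∃ (N : ℕ) (d : ℕ → E[X]), Exn ϕ (N + 1) d f ∧ d 0 = 0 ∧
        ∀ k, 1 ≤ k → k ≤ N → V.valuation (aeval θ (d k * ϕ ^ k)) < ρ

/-- Factors of dominated polynomials are dominated. -/
def S2_prod : Prop :=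
  ∀ {E F : Type u} [Field E] [Field F] [Algebra E F] (V : ValuationSubring F) (θ : F)
    (ϕ : E[X]) (n : ℕ) (β : Fin n → E[X]), Transcendental E θ → KP V θ ϕ β →
    ∀ f g : E[X], f ≠ 0 → g ≠ 0 → Domi V θ ϕ (f * g) → Domi V θ ϕ f

/-- The residue field of a key polynomial. -/
def S2_field : Prop :=
  ∀ {E F : Type u} [Field E] [Field F] [Algebra E F] (V : ValuationSubring F) (θ : F)
    (ϕ : E[X]) (n : ℕ) (β : Fin n → E[X]), Transcendental E θ → KP V θ ϕ β →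
    ∃ (M : Type u) (_ : Field M) (_ : Algebra E M) (W : ValuationSubring M) (π : E[X] →ₐ[E] M),
      Rsd V θ ϕ W π

/-! ## Lifts -/

/-- Values and residues of the lifts. -/
def S2_A : Prop :=
  ∀ {E F : Type u} [Field E] [Field F] [Algebra E F] (V : ValuationSubring F) (θ : F)
    (ϕ : E[X]) (n : ℕ) (β : Fin n → E[X]), Transcendental E θ → KP V θ ϕ β →
    ∀ {M : Type u} [Field M] [Algebra E M] (W : ValuationSubring M) (π : E[X] →ₐ[E] M)
      {q r : ℕ} (t : Fin q → M) (ee : Fin q → ℕ) (b : Fin r → M) (ff : Fin r → ℕ)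
      (tt : Fin q → E[X]) (bb : Fin r → E[X])
      (zz : ((i : Fin q) → Fin (ee i)) × ((j : Fin r) → Fin (ff j)) → E[X]),
    Lft V θ ϕ W π t ee b ff tt bb zz →
    (∀ i, aeval θ (tt i) ≠ 0) ∧
    (∀ j, V.valuation (aeval θ (bb j)) = 1) ∧
    (∀ p, V.valuation (zf θ tt zz p) = 1) ∧
    (∀ (i : Fin q) (k : ℤ) (a : E) (m : Fin q → ℤ), a ≠ 0 →
      (W.valuation (t i ^ k) = W.valuation (algebraMap E M a * mo t m) ↔
        V.valuation (aeval θ (tt i) ^ k) =
          V.valuation (algebraMap E F a * mo (fun i => aeval θ (tt i)) m))) ∧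
    ∀ (j : Fin r) (w : Fin (ff j) → F),
      (∀ k, w k ∈ lo V.toSubring (Subring.closure
        (((V.comap (algebraMap E F)).toSubring.map (algebraMap E F) : Set F) ∪
          {z | ∃ l : Fin r, (l : ℕ) < (j : ℕ) ∧ aeval θ (bb l) = z}))) →
      V.valuation (∑ k, w k * aeval θ (bb j) ^ (k : ℕ)) < 1 → ∀ k, V.valuation (w k) < 1

/-- The relations of the lifts. -/
def S2_B : Prop :=
  ∀ {E F : Type u} [Field E] [Field F] [Algebra E F] (V : ValuationSubring F) (θ : F)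
    (ϕ : E[X]) (n : ℕ) (β : Fin n → E[X]), Transcendental E θ → KP V θ ϕ β →
    ∀ {M : Type u} [Field M] [Algebra E M] (W : ValuationSubring M) (π : E[X] →ₐ[E] M)
      {q r : ℕ} (t : Fin q → M) (ee : Fin q → ℕ) (b : Fin r → M) (ff : Fin r → ℕ)
      (tt : Fin q → E[X]) (bb : Fin r → E[X])
      (zz : ((i : Fin q) → Fin (ee i)) × ((j : Fin r) → Fin (ff j)) → E[X]),
    Lft V θ ϕ W π t ee b ff tt bb zz →
    (∀ (j : Fin r) (h : Fin (ff j) → MvPolynomial (Fin r) E),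
      (∀ l m, algebraMap E F ((h l).coeff m) ∈ V) →
      W.valuation (b j ^ ff j + ∑ l, MvPolynomial.aeval b (h l) * b j ^ (l : ℕ)) < 1 →
      Rep E V (tf θ ϕ tt) (zf θ tt zz) (· < 1) (aeval θ (bb j) ^ ff j +
        ∑ l, MvPolynomial.aeval (fun i => aeval θ (bb i)) (h l) * aeval θ (bb j) ^ (l : ℕ))) ∧
    (∀ (i : Fin q) (g : E) (m : Fin q → ℤ), g ≠ 0 →
      W.valuation (t i ^ ee i) = W.valuation (algebraMap E M g * mo t m) →
      ∃ p : MvPolynomial (Fin r) E, (∀ m, algebraMap E F (p.coeff m) ∈ V) ∧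
        Rep E V (tf θ ϕ tt) (zf θ tt zz) (· < 1) (aeval θ (tt i) ^ ee i *
          (algebraMap E F g * mo (fun i => aeval θ (tt i)) m)⁻¹ -
          MvPolynomial.aeval (fun i => aeval θ (bb i)) p)) ∧
    (∀ k, ∃ p : MvPolynomial (Fin r) E, (∀ m, algebraMap E F (p.coeff m) ∈ V) ∧
      Rep E V (tf θ ϕ tt) (zf θ tt zz) (· < 1) (zf θ tt zz k -
        MvPolynomial.aeval (fun i => aeval θ (bb i)) p)) ∧
    ∀ f : E[X], f ≠ 0 → Domi V θ ϕ f → Mono E V (tf θ ϕ tt) (zf θ tt zz) (aeval θ f)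

/-- From key polynomials to the data. -/
def S2_key : Prop :=
  ∀ {E F : Type u} [Field E] [Field F] [Algebra E F] (V : ValuationSubring F) (θ : F)
    (ϕ : E[X]) (n : ℕ) (β : Fin n → E[X]), Transcendental E θ → KP V θ ϕ β →
    (∀ z : F, z ≠ 0 → ∃ N : ℕ, 0 < N ∧ ∃ a : E,
      V.valuation (z ^ N) = V.valuation (algebraMap E F a)) →
    (∀ z : F, V.valuation z = 1 → ∃ g : E[X], g.Monic ∧ (∀ i, algebraMap E F (g.coeff i) ∈ V) ∧
      V.valuation (aeval z g) < 1) →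
    ∃ (q r : ℕ) (P : Type) (_ : Fintype P) (t : Fin (q + 1) → F) (ee : Fin (q + 1) → ℕ)
      (g : Fin (q + 1) → E) (m₀ : Fin (q + 1) → Fin (q + 1) → ℤ) (b : Fin r → F)
      (ff : Fin r → ℕ) (z : P → F), Key V θ t ee g m₀ b ff z ∧
      ∀ f : E[X], f ≠ 0 → Domi V θ ϕ f → Mono E V t z (aeval θ f)

/-! ## Minimal polynomials over local rings -/

/-- Residually algebraic elements have monic polynomials of minimal degree. -/
def S2_min : Prop :=
  ∀ {F : Type u} [Field F] (A P : Subring F), Loc A → P ≤ A →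
    (∀ y ∈ P, y ≠ 0 → y⁻¹ ∈ A → y⁻¹ ∈ P) → ∀ t : F, t ∈ A →
    ∀ g : P[X], g.Monic → NU A (eval₂ P.subtype t g) →
    ∃ f : P[X], f.Monic ∧ 0 < f.natDegree ∧ NU A (eval₂ P.subtype t f) ∧
      ∀ h : P[X], h.degree < f.degree → NU A (eval₂ P.subtype t h) → ∀ i, NU A (h.coeff i : F)

end Pool.Agent.H176.DT
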